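import Pool.Agent.Lib.MP_0087d5_lc.NEGS.RSb

/-!
# The robust sunflower lemma for matchings

A large family of matchings with `i` edges has a core `K` with fewer than `i` edges such that
almost every 2-colouring makes `R \ K` monochromatic for some member `R` containing `K`.
-/

set_option autoImplicit false

namespace Pool.Agent.NEGS.RS

open Finset

variable {q : ℕ}

open Classical in
/-- The members of `F` which contain `K` and touch all vertices of `W` outside of `K`. -/
noncomputable def Fam (F : Finset (Finset (Fin q × Fin q))) (K : Finset (Fin q × Fin q))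
    (W : Finset (Fin q ⊕ Fin q)) : Finset (Finset (Fin q × Fin q)) :=
  F.filter fun R => K ⊆ R ∧ W ⊆ vs (R \ K)

open Classical in
theorem mem_Fam {F : Finset (Finset (Fin q × Fin q))} {K : Finset (Fin q × Fin q)}
    {W : Finset (Fin q ⊕ Fin q)} {R : Finset (Fin q × Fin q)} :
    R ∈ Fam F K W ↔ R ∈ F ∧ K ⊆ R ∧ W ⊆ vs (R \ K) := by
  unfold Fam
  rw [mem_filter]

/-- The potential. -/
noncomputable def pot (B D : ℕ) (F : Finset (Finset (Fin q × Fin q))) (K : Finset (Fin q × Fin q))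
    (W : Finset (Fin q ⊕ Fin q)) : ℕ :=
  (Fam F K W).card * B ^ K.card * D ^ W.card

open Classical in
/-- Adding vertices to `W`. -/
theorem Fam_union {B D : ℕ} (hB : 0 < B) (hD : 0 < D) {F : Finset (Finset (Fin q × Fin q))}
    {K : Finset (Fin q × Fin q)} {W U : Finset (Fin q ⊕ Fin q)} (hU : Disjoint U W)
    (hmax : pot B D F K (W ∪ U) ≤ pot B D F K W) :
    ((Fam F K W).filter fun R => U ⊆ vs (R \ K)).card * D ^ U.card ≤ (Fam F K W).card := by
  have h1 : ((Fam F K W).filter fun R => U ⊆ vs (R \ K)) = Fam F K (W ∪ U) := by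
    ext R
    rw [mem_filter, mem_Fam, mem_Fam, union_subset_iff]
    tauto
  unfold pot at hmax
  rw [card_union_of_disjoint hU.symm, pow_add] at hmax
  rw [h1]
  have h2 : (Fam F K (W ∪ U)).card * D ^ U.card * (B ^ K.card * D ^ W.card) ≤
      (Fam F K W).card * (B ^ K.card * D ^ W.card) := by
    calc (Fam F K (W ∪ U)).card * D ^ U.card * (B ^ K.card * D ^ W.card)
        = (Fam F K (W ∪ U)).card * B ^ K.card * (D ^ W.card * D ^ U.card) := by ring
      _ ≤ (Fam F K W).card * B ^ K.card * D ^ W.card := hmax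
      _ = _ := by ring
  exact Nat.le_of_mul_le_mul_right h2 (Nat.mul_pos (pow_pos hB _) (pow_pos hD _))

open Classical in
/-- Few members contain a given edge inside `W`. -/
theorem Fam_edge {B D : ℕ} (hB : 0 < B) (hD : 0 < D) {F : Finset (Finset (Fin q × Fin q))}
    {K : Finset (Fin q × Fin q)} {W : Finset (Fin q ⊕ Fin q)} {e : Fin q × Fin q}
    (he1 : (.inl e.1 : Fin q ⊕ Fin q) ∈ W) (he2 : (.inr e.2 : Fin q ⊕ Fin q) ∈ W)
    (hmax : pot B D F (insert e K) (W \ {.inl e.1, .inr e.2}) ≤ pot B D F K W) :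
    ((Fam F K W).filter fun R => e ∈ R \ K).card * B ≤ (Fam F K W).card * D ^ 2 := by
  by_cases heK : e ∈ K
  · have h0 : ((Fam F K W).filter fun R => e ∈ R \ K) = ∅ := by
      rw [filter_eq_empty_iff]
      intro R _ h1
      exact (mem_sdiff.1 h1).2 heK
    rw [h0, card_empty, zero_mul]
    exact Nat.zero_le _
  have h1 : ((Fam F K W).filter fun R => e ∈ R \ K) ⊆ Fam F (insert e K) (W \ {.inl e.1, .inr e.2}) := by
    intro R hR
    rw [mem_filter, mem_Fam] at hR
    obtain ⟨⟨hR1, hR2, hR3⟩, hR4⟩ := hR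
    rw [mem_Fam]
    refine ⟨hR1, insert_subset (mem_sdiff.1 hR4).1 hR2, ?_⟩
    intro w hw
    obtain ⟨hw1, hw2⟩ := mem_sdiff.1 hw
    obtain ⟨f, hf, hf'⟩ := mem_vs.1 (hR3 hw1)
    refine mem_vs.2 ⟨f, ?_, hf'⟩
    obtain ⟨hf1, hf2⟩ := mem_sdiff.1 hf
    refine mem_sdiff.2 ⟨hf1, fun h2 => ?_⟩
    rcases mem_insert.1 h2 with h3 | h3
    · subst h3
      rcases hf' with h4 | h4
      · exact hw2 (h4 ▸ mem_insert_self _ _)
      · exact hw2 (h4 ▸ mem_insert_of_mem (mem_singleton_self _))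
    · exact hf2 h3
  have h2 : (W \ {.inl e.1, .inr e.2}).card + 2 = W.card := by
    have h3 : ({.inl e.1, .inr e.2} : Finset (Fin q ⊕ Fin q)) ⊆ W :=
      insert_subset he1 (singleton_subset_iff.2 he2)
    have h4 : ({.inl e.1, .inr e.2} : Finset (Fin q ⊕ Fin q)).card = 2 := card_pair Sum.inl_ne_inr
    have h5 := card_sdiff_add_card_eq_card h3
    rw [h4] at h5
    exact h5
  unfold pot at hmax
  rw [card_insert_of_notMem heK, ← h2, pow_succ, pow_add] at hmax
  have h3 : ((Fam F K W).filter fun R => e ∈ R \ K).card * B * (B ^ K.card * D ^ (W \ {.inl e.1, .inr e.2}).card) ≤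
      (Fam F K W).card * D ^ 2 * (B ^ K.card * D ^ (W \ {.inl e.1, .inr e.2}).card) := by
    calc ((Fam F K W).filter fun R => e ∈ R \ K).card * B * (B ^ K.card * D ^ (W \ {.inl e.1, .inr e.2}).card)
        ≤ (Fam F (insert e K) (W \ {.inl e.1, .inr e.2})).card * B *
            (B ^ K.card * D ^ (W \ {.inl e.1, .inr e.2}).card) :=
          Nat.mul_le_mul_right _ (Nat.mul_le_mul_right _ (card_le_card h1))
      _ = (Fam F (insert e K) (W \ {.inl e.1, .inr e.2})).card * (B ^ K.card * B) *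
            D ^ (W \ {.inl e.1, .inr e.2}).card := by ring
      _ ≤ (Fam F K W).card * B ^ K.card * (D ^ (W \ {.inl e.1, .inr e.2}).card * D ^ 2) := hmax
      _ = _ := by ring
  exact Nat.le_of_mul_le_mul_right h3 (Nat.mul_pos (pow_pos hB _) (pow_pos hD _))

open Classical in
/-- At least half of the members have no edge inside `W`. -/
theorem Fam_free {B D l : ℕ} (hl : 1 ≤ l) (hD : 0 < D) (hB : B = 2 * l ^ 2 * D ^ 2)
    {F : Finset (Finset (Fin q × Fin q))} (hF : ∀ R ∈ F, R.card ≤ l)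
    {K : Finset (Fin q × Fin q)} {W : Finset (Fin q ⊕ Fin q)}
    (hmax : ∀ K' W', K ⊆ K' → pot B D F K' W' ≤ pot B D F K W) :
    (Fam F K W).card ≤ 2 * ((Fam F K W).filter fun R => Fre W (R \ K)).card := by
  have hB0 : 0 < B := by
    rw [hB]
    positivity
  rcases (Fam F K W).eq_empty_or_nonempty with h0 | ⟨R0, hR0⟩
  · rw [h0, card_empty]
    exact Nat.zero_le _
  obtain ⟨hR1, hR2, hR3⟩ := mem_Fam.1 hR0
  set E : Finset (Fin q × Fin q) := univ.filter fun e =>
    (.inl e.1 : Fin q ⊕ Fin q) ∈ W ∧ (.inr e.2 : Fin q ⊕ Fin q) ∈ W with hE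
  have hEc : E.card ≤ l * l := by
    have h1 : E ⊆ (R0.image Prod.fst) ×ˢ (R0.image Prod.snd) := by
      intro e he
      rw [hE, mem_filter] at he
      rw [mem_product, mem_image, mem_image]
      constructor
      · obtain ⟨f, hf, h | h⟩ := mem_vs.1 (hR3 he.2.1)
        · exact ⟨f, (mem_sdiff.1 hf).1, (Sum.inl.inj h).symm⟩
        · exact absurd h Sum.inl_ne_inr
      · obtain ⟨f, hf, h | h⟩ := mem_vs.1 (hR3 he.2.2)
        · exact absurd h Sum.inr_ne_inl
        · exact ⟨f, (mem_sdiff.1 hf).1, (Sum.inr.inj h).symm⟩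
    refine (card_le_card h1).trans ?_
    rw [card_product]
    exact Nat.mul_le_mul (card_image_le.trans (hF R0 hR1)) (card_image_le.trans (hF R0 hR1))
  have h1 : ((Fam F K W).filter fun R => ¬ Fre W (R \ K)) ⊆
      E.biUnion fun e => (Fam F K W).filter fun R => e ∈ R \ K := by
    intro R hR
    rw [mem_filter] at hR
    unfold Fre at hR
    push Not at hR
    obtain ⟨hR1, e, he, he1, he2⟩ := hR
    rw [mem_biUnion]
    exact ⟨e, mem_filter.2 ⟨mem_univ _, he1, he2⟩, mem_filter.2 ⟨hR1, he⟩⟩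
  have h2 : ((Fam F K W).filter fun R => ¬ Fre W (R \ K)).card * B ≤ l * l * ((Fam F K W).card * D ^ 2) := by
    calc ((Fam F K W).filter fun R => ¬ Fre W (R \ K)).card * B
        ≤ (∑ e ∈ E, ((Fam F K W).filter fun R => e ∈ R \ K).card) * B :=
          Nat.mul_le_mul_right _ ((card_le_card h1).trans card_biUnion_le)
      _ = ∑ e ∈ E, ((Fam F K W).filter fun R => e ∈ R \ K).card * B := sum_mul _ _ _
      _ ≤ ∑ e ∈ E, (Fam F K W).card * D ^ 2 := sum_le_sum fun e he => by
          rw [hE, mem_filter] at he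
          exact Fam_edge hB0 hD he.2.1 he.2.2 (hmax _ _ (subset_insert e K))
      _ = E.card * ((Fam F K W).card * D ^ 2) := by rw [sum_const, smul_eq_mul]
      _ ≤ _ := Nat.mul_le_mul_right _ hEc
  have h3 : 2 * ((Fam F K W).filter fun R => ¬ Fre W (R \ K)).card ≤ (Fam F K W).card := by
    have h4 : 2 * ((Fam F K W).filter fun R => ¬ Fre W (R \ K)).card * (l ^ 2 * D ^ 2) ≤
        (Fam F K W).card * (l ^ 2 * D ^ 2) := by
      calc 2 * ((Fam F K W).filter fun R => ¬ Fre W (R \ K)).card * (l ^ 2 * D ^ 2)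
          = ((Fam F K W).filter fun R => ¬ Fre W (R \ K)).card * B := by
            rw [hB]
            ring
        _ ≤ l * l * ((Fam F K W).card * D ^ 2) := h2
        _ = _ := by ring
    exact Nat.le_of_mul_le_mul_right h4 (by positivity)
  have h4 := card_filter_add_card_filter_not (s := Fam F K W) fun R => Fre W (R \ K)
  omega

open Classical in
/-- **The robust sunflower lemma for matchings.** -/
theorem robust {m l i : ℕ} (hm : 1 ≤ m) (hil : i ≤ l) (F : Finset (Finset (Fin q × Fin q)))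
    (hM : ∀ R ∈ F, Mat R) (hc : ∀ R ∈ F, R.card = i) (K0 : Finset (Fin q × Fin q)) (hK0 : ∀ R ∈ F, K0 ⊆ R)
    (hF : (32 * m ^ 2 * l ^ 4) ^ i < F.card * (32 * m ^ 2 * l ^ 4) ^ K0.card) :
    ∃ K : Finset (Fin q × Fin q), K.card < i ∧ K0 ⊆ K ∧ (∃ R ∈ F, K ⊆ R) ∧
      ((univ.filter fun c : Fin q ⊕ Fin q → Bool => ∀ R ∈ F, K ⊆ R → ¬ mono c (R \ K)).card : ℝ) ≤
        2 ^ (2 * q) * Real.exp (- (m / 6)) := by
  have hF0 : 0 < F.card := by
    rcases Nat.eq_zero_or_pos F.card with h | h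
    · rw [h, zero_mul] at hF
      exact absurd hF (Nat.not_lt_zero _)
    · exact h
  obtain ⟨R0, hR0⟩ := card_pos.1 hF0
  rcases Nat.eq_zero_or_pos i with hi | hi
  · exfalso
    subst hi
    have h1 : ∀ R ∈ F, R = ∅ := fun R hR => card_eq_zero.1 (hc R hR)
    have h2 : F.card ≤ 1 := card_le_one.2 fun a ha b hb => (h1 a ha).trans (h1 b hb).symm
    have h3 : K0 = ∅ := subset_empty.1 ((h1 R0 hR0) ▸ hK0 R0 hR0)
    rw [h3, card_empty, pow_zero, mul_one] at hF
    omega
  have hl : 1 ≤ l := by omega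
  set B : ℕ := 32 * m ^ 2 * l ^ 4 with hBd
  set D : ℕ := 4 * m * l with hDd
  have hD0 : 0 < D := by positivity
  have hB : B = 2 * l ^ 2 * D ^ 2 := by
    rw [hBd, hDd]
    ring
  have hB0 : 0 < B := by positivity
  obtain ⟨⟨K, W⟩, hKW, hmax⟩ := exists_max_image
    ((univ.filter fun K : Finset (Fin q × Fin q) => K0 ⊆ K) ×ˢ (univ : Finset (Finset (Fin q ⊕ Fin q))))
    (fun x => pot B D F x.1 x.2) ⟨(K0, ∅), mem_product.2 ⟨mem_filter.2 ⟨mem_univ _, Subset.rfl⟩, mem_univ _⟩⟩
  have hKK0 : K0 ⊆ K := (mem_filter.1 (mem_product.1 hKW).1).2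
  have hmax' : ∀ K' W', K ⊆ K' → pot B D F K' W' ≤ pot B D F K W := fun K' W' h =>
    hmax (K', W') (mem_product.2 ⟨mem_filter.2 ⟨mem_univ _, hKK0.trans h⟩, mem_univ _⟩)
  have hbig : B ^ i < pot B D F K W := by
    refine lt_of_lt_of_le ?_ (hmax (K0, ∅) (mem_product.2 ⟨mem_filter.2 ⟨mem_univ _, Subset.rfl⟩, mem_univ _⟩))
    change B ^ i < pot B D F K0 ∅
    unfold pot
    have h1 : Fam F K0 ∅ = F := by
      ext R
      rw [mem_Fam]
      exact ⟨fun h => h.1, fun h => ⟨h, hK0 R h, empty_subset _⟩⟩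
    rw [h1, card_empty, pow_zero, mul_one]
    exact hF
  have hne : (Fam F K W).Nonempty := by
    rw [← card_pos]
    rcases Nat.eq_zero_or_pos (Fam F K W).card with h | h
    · unfold pot at hbig
      rw [h, zero_mul, zero_mul] at hbig
      exact absurd hbig (Nat.not_lt_zero _)
    · exact h
  obtain ⟨R1, hR1⟩ := hne
  obtain ⟨hR1F, hR1K, hR1W⟩ := mem_Fam.1 hR1
  have hKi : K.card < i := by
    rcases Nat.lt_or_ge K.card i with h | h
    · exact h
    · exfalso
      have h1 : ∀ R ∈ Fam F K W, R = K := by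
        intro R hR
        obtain ⟨h2, h3, _⟩ := mem_Fam.1 hR
        exact (eq_of_subset_of_card_le h3 ((hc R h2).le.trans h)).symm
      have h2 : (Fam F K W).card ≤ 1 := card_le_one.2 fun a ha b hb => (h1 a ha).trans (h1 b hb).symm
      have h3 : W = ∅ := by
        rw [h1 R1 hR1, sdiff_self] at hR1W
        refine subset_empty.1 (hR1W.trans ?_)
        intro w hw
        obtain ⟨e, he, _⟩ := mem_vs.1 hw
        exact absurd he (notMem_empty e)
      have h4 : K.card = i := le_antisymm ((card_le_card hR1K).trans (hc R1 hR1F).le) h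
      unfold pot at hbig
      rw [h3, card_empty, pow_zero, mul_one, h4, ← h3] at hbig
      have h5 : (Fam F K W).card * B ^ i ≤ 1 * B ^ i := Nat.mul_le_mul_right _ h2
      omega
  refine ⟨K, hKi, hKK0, ⟨R1, hR1F, hR1K⟩, ?_⟩
  set G : Finset (Finset (Fin q × Fin q)) := (Fam F K W).filter fun R => Fre W (R \ K) with hG
  have hhalf : (Fam F K W).card ≤ 2 * G.card :=
    Fam_free hl hD0 hB (fun R hR => (hc R hR).le.trans hil) hmax'
  have hGm : ∀ R ∈ G, R ∈ F ∧ K ⊆ R ∧ W ⊆ vs (R \ K) ∧ Fre W (R \ K) := fun R hR => by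
    rw [hG, mem_filter, mem_Fam] at hR
    exact ⟨hR.1.1, hR.1.2.1, hR.1.2.2, hR.2⟩
  have hG0 : 0 < G.card := by
    have h1 : 0 < (Fam F K W).card := card_pos.2 ⟨R1, hR1⟩
    omega
  have hinj : ∀ G' ⊆ G, (G'.image fun R => R \ K).card = G'.card := by
    intro G' hG'
    refine card_image_of_injOn ?_
    intro R hR S hS hRS
    have h1 := (hGm R (hG' hR)).2.1
    have h2 := (hGm S (hG' hS)).2.1
    change R \ K = S \ K at hRS
    rw [← sdiff_union_of_subset h1, ← sdiff_union_of_subset h2, hRS]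
  have hkey := spread_mono (W := W) (h := i - K.card) hm hl ((Nat.sub_le _ _).trans hil) (G.image fun R => R \ K)
    ((card_pos.1 hG0).image _) (by
      intro R hR
      obtain ⟨S, hS, rfl⟩ := mem_image.1 hR
      exact (hM S (hGm S hS).1).mono sdiff_subset) (by
      intro R hR
      obtain ⟨S, hS, rfl⟩ := mem_image.1 hR
      exact (hGm S hS).2.2.2) (by
      intro R hR
      obtain ⟨S, hS, rfl⟩ := mem_image.1 hR
      rw [card_sdiff_of_subset (hGm S hS).2.1, hc S (hGm S hS).1]) (by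
      intro R hR
      obtain ⟨S, hS, rfl⟩ := mem_image.1 hR
      exact (hGm S hS).2.2.1) (by
      intro U hU
      rw [filter_image, hinj _ (filter_subset _ _), hinj _ Subset.rfl]
      have h1 := Fam_union (U := U) hB0 hD0 hU (hmax' K (W ∪ U) Subset.rfl)
      refine (Nat.mul_le_mul_right _ (card_le_card ?_)).trans (h1.trans hhalf)
      intro R hR
      rw [mem_filter] at hR ⊢
      exact ⟨(mem_filter.1 hR.1).1, hR.2⟩)
  refine (Nat.cast_le.2 (card_le_card ?_)).trans hkey
  intro c hc'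
  rw [mem_filter] at hc' ⊢
  refine ⟨mem_univ _, fun R hR => ?_⟩
  obtain ⟨S, hS, rfl⟩ := mem_image.1 hR
  exact hc'.2 S (hGm S hS).1 (hGm S hS).2.1

end Pool.Agent.NEGS.RS
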