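import Pool.Agent.Lib.MP_0087d5_lc.NEGS.Fam
import Pool.Agent.Lib.MP_0087d5_lc.NEGS.RSun

/-!
The robust sunflower lemma in the form used for the closed families.
-/

set_option autoImplicit false

namespace Pool.Agent.NEGS

open Finset

open Classical in
theorem sun (q l k : ℕ) (hk : 1 ≤ k) : Sun q l (2 ^ (2 * q) / 2 ^ k) (32 * (6 * k) ^ 2 * l ^ 4) := by
  intro i F K0 _ hil hF hB
  obtain ⟨K, h1, _, h3, h4⟩ := RS.robust (m := 6 * k) (l := l) (i := i) (by omega) hil F (fun R hR => by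
    intro e he f hf hef
    exact ⟨fun h => hef ((hF R hR).1.2 e he f hf (Or.inl h)), fun h => hef ((hF R hR).1.2 e he f hf (Or.inr h))⟩)
    (fun R hR => (hF R hR).2.1) K0 (fun R hR => (hF R hR).2.2) hB
  refine ⟨K, h1, h3, ?_⟩
  rw [Nat.le_div_iff_mul_le (by positivity)]
  have h5 : fail F K = univ.filter fun c : Fin q ⊕ Fin q → Bool => ∀ R ∈ F, K ⊆ R → ¬ RS.mono c (R \ K) := by
    unfold fail
    refine filter_congr fun c _ => ?_
    refine forall₃_congr fun R _ _ => ?_
    unfold RS.mono yin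
    simp only [decide_eq_true_eq]
  rw [h5]
  have h6 : Real.exp (-(((6 * k : ℕ) : ℝ) / 6)) ≤ 1 / 2 ^ k := by
    have h7 : -(((6 * k : ℕ) : ℝ) / 6) = (k : ℝ) * (-1) := by
      push_cast
      ring
    rw [h7, Real.exp_nat_mul, ← one_div_pow]
    refine pow_le_pow_left₀ (Real.exp_pos _).le ?_ k
    rw [Real.exp_neg, ← one_div]
    refine one_div_le_one_div_of_le (by norm_num) ?_
    have h8 := Real.exp_one_gt_d9
    linarith
  have h7 := h4.trans (mul_le_mul_of_nonneg_left h6 (by positivity))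
  rw [mul_one_div, le_div_iff₀ (by positivity)] at h7
  exact_mod_cast h7

end Pool.Agent.NEGS
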