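import Pool.Agent.Lib.MP_0087d5_lc.NEGS.App
import Pool.Agent.Lib.MP_0087d5_lc.NEGS.RSw

/-!
The class of approximators exists.
-/

set_option autoImplicit false

namespace Pool.Agent.NEGS

theorem exists_app (l : ℕ) (hl : 2 ^ 38 ≤ l) : ∃ 𝒜, IsApp l (l ^ 7) 𝒜 :=
  exists_app_of l hl fun _ hk => sun _ _ _ hk

end Pool.Agent.NEGS
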