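import Pool.Agent.Lib.MP_0087d5_lc.NEGS.Sys
import Pool.Agent.Lib.MP_0087d5_lc.NEG.C2DT

/-!
Circuits whose special gates are forced to constants: monotonicity, the values of the
original circuit, and the approximation along the gates.
-/

namespace Pool.Agent.NEGS

open Pool.Agent.NEG

/-- the values of substituted variables -/
def pl {I J : Type} (f : J → I ⊕ Bool) (x : I → Bool) (j : J) : Bool :=
  match f j with
  | .inl i => x i
  | .inr b => b

section Forced

variable {I G : Type}

open Classical in
/-- the circuit in which the special gates are replaced by the constants `z` -/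
noncomputable def forced (C : Circuit I G) (z : G → Bool) : Circuit I G where
  arity := C.arity
  src := C.src
  fn g := if C.Plain g then C.fn g else fun _ => z g
  out := C.out

/-- levels of a circuit -/
structure Lev (C : Circuit I G) where
  lev : G → ℕ
  top : ℕ
  le_top : ∀ g, lev g ≤ top
  lt : ∀ g i g', C.src g i = Sum.inr g' → lev g' < lev g

theorem exists_fval (C : Circuit I G) (l : Lev C) (z : G → Bool) (x : I → Bool) :
    ∃ v, (forced C z).Consistent x v :=
  exists_consistent (forced C z) l.lev l.top l.le_top (fun g i g' h => l.lt g i g' h) x

/-- the values of the gates when the special gates have the values `z` -/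
noncomputable def fval (C : Circuit I G) (l : Lev C) (z : G → Bool) (x : I → Bool) : G → Bool :=
  (exists_fval C l z x).choose

theorem fval_plain (C : Circuit I G) (l : Lev C) (z : G → Bool) (x : I → Bool) (g : G)
    (hg : C.Plain g) :
    fval C l z x g = C.fn g (fun i => Circuit.node x (fval C l z x) (C.src g i)) := by
  have h := (exists_fval C l z x).choose_spec g
  change (exists_fval C l z x).choose g = _
  rw [h]
  simp only [forced]
  rw [if_pos hg]
  rfl

theorem fval_special (C : Circuit I G) (l : Lev C) (z : G → Bool) (x : I → Bool) (g : G)
    (hg : ¬ C.Plain g) : fval C l z x g = z g := by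
  have h := (exists_fval C l z x).choose_spec g
  change (exists_fval C l z x).choose g = _
  rw [h]
  simp only [forced]
  rw [if_neg hg]

/-- the forced values are the true values if the special gates have their true values -/
theorem fval_true (C : Circuit I G) (l : Lev C) (z : G → Bool) (x : I → Bool) (v : G → Bool)
    (hv : C.Consistent x v) (n : ℕ) (hz : ∀ s, ¬ C.Plain s → l.lev s ≤ n → z s = v s) :
    ∀ g, l.lev g ≤ n → fval C l z x g = v g := by
  induction n with
  | zero =>
      intro g hg
      by_cases hp : C.Plain g
      · rw [fval_plain C l z x g hp, hv g]
        congr 1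
        funext i
        cases h : C.src g i with
        | inl a => cases a <;> rfl
        | inr g' =>
            have := l.lt g i g' h
            omega
      · rw [fval_special C l z x g hp]
        exact hz g hp hg
  | succ n ih =>
      intro g hg
      by_cases hp : C.Plain g
      · rw [fval_plain C l z x g hp, hv g]
        congr 1
        funext i
        cases h : C.src g i with
        | inl a => cases a <;> rfl
        | inr g' =>
            have := l.lt g i g' h
            simp only [Circuit.node]
            exact ih (fun s hs hl => hz s hs (by omega)) g' (by omega)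
      · rw [fval_special C l z x g hp]
        exact hz g hp hg

/-- the forced values are monotone in the input -/
theorem fval_mono (C : Circuit I G) (l : Lev C) (z : G → Bool) {x y : I → Bool}
    (hxy : ∀ i, x i = true → y i = true) (n : ℕ) :
    ∀ g, l.lev g ≤ n → fval C l z x g = true → fval C l z y g = true := by
  induction n with
  | zero =>
      intro g hg hx
      by_cases hp : C.Plain g
      · rw [fval_plain C l z x g hp] at hx
        rw [fval_plain C l z y g hp]
        refine hp.2 _ _ (fun i hi => ?_) hx
        cases h : C.src g i with
        | inl a =>
            rw [h] at hi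
            cases a with
            | inl j => exact hxy j hi
            | inr b => exact hi
        | inr g' =>
            have := l.lt g i g' h
            omega
      · rw [fval_special C l z x g hp] at hx
        rw [fval_special C l z y g hp]
        exact hx
  | succ n ih =>
      intro g hg hx
      by_cases hp : C.Plain g
      · rw [fval_plain C l z x g hp] at hx
        rw [fval_plain C l z y g hp]
        refine hp.2 _ _ (fun i hi => ?_) hx
        cases h : C.src g i with
        | inl a =>
            rw [h] at hi
            cases a with
            | inl j => exact hxy j hi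
            | inr b => exact hi
        | inr g' =>
            rw [h] at hi
            have := l.lt g i g' h
            exact ih g' (by omega) hi
      · rw [fval_special C l z x g hp] at hx
        rw [fval_special C l z y g hp]
        exact hx

/-- the forced values depend only on the forced constants of the lower special gates -/
theorem fval_congr (C : Circuit I G) (l : Lev C) (z z' : G → Bool) (x : I → Bool) (n : ℕ)
    (hz : ∀ s, ¬ C.Plain s → l.lev s ≤ n → z s = z' s) :
    ∀ g, l.lev g ≤ n → fval C l z x g = fval C l z' x g := by
  induction n with
  | zero =>
      intro g hg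
      by_cases hp : C.Plain g
      · rw [fval_plain C l z x g hp, fval_plain C l z' x g hp]
        congr 1
        funext i
        cases h : C.src g i with
        | inl a => cases a <;> rfl
        | inr g' =>
            have := l.lt g i g' h
            omega
      · rw [fval_special C l z x g hp, fval_special C l z' x g hp]
        exact hz g hp hg
  | succ n ih =>
      intro g hg
      by_cases hp : C.Plain g
      · rw [fval_plain C l z x g hp, fval_plain C l z' x g hp]
        congr 1
        funext i
        cases h : C.src g i with
        | inl a => cases a <;> rfl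
        | inr g' =>
            have := l.lt g i g' h
            simp only [Circuit.node]
            exact ih (fun s hs hl => hz s hs (by omega)) g' (by omega)
      · rw [fval_special C l z x g hp, fval_special C l z' x g hp]
        exact hz g hp hg

/-- the value of a node in the forced circuit -/
noncomputable def nv (C : Circuit I G) (l : Lev C) (z : G → Bool) (nd : (I ⊕ Bool) ⊕ G)
    (x : I → Bool) : Bool :=
  Circuit.node x (fval C l z x) nd

/-- the inputs of a gate depend only on the forced constants of lower special gates -/
theorem nv_congr (C : Circuit I G) (l : Lev C) (z z' : G → Bool) (x : I → Bool) (s : G)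
    (i : Fin (C.arity s)) (hz : ∀ s', ¬ C.Plain s' → l.lev s' < l.lev s → z s' = z' s') :
    nv C l z (C.src s i) x = nv C l z' (C.src s i) x := by
  unfold nv
  cases h : C.src s i with
  | inl a => cases a <;> rfl
  | inr g =>
      have h1 := l.lt s i g h
      exact fval_congr C l z z' x (l.lev g) (fun s' hs' hl => hz s' hs' (by omega)) g le_rfl

theorem nv_mono (C : Circuit I G) (l : Lev C) (z : G → Bool) (nd : (I ⊕ Bool) ⊕ G)
    {x y : I → Bool} (hxy : ∀ i, x i = true → y i = true) (hx : nv C l z nd x = true) :
    nv C l z nd y = true := by
  cases nd with
  | inl a =>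
      cases a with
      | inl j => exact hxy j hx
      | inr b => exact hx
  | inr g => exact fval_mono C l z hxy (l.lev g) g le_rfl hx

/-- the true output is determined by the forced values of the inputs of the special gates
and of the output -/
theorem out_eq (C : Circuit I G) (l : Lev C) (x y : I → Bool) (v w z : G → Bool)
    (hv : C.Consistent x v) (hw : C.Consistent y w) (hz : ∀ s, ¬ C.Plain s → z s = v s)
    (h : ∀ (s : G) (i : Fin (C.arity s)), ¬ C.Plain s →
      nv C l z (C.src s i) x = nv C l z (C.src s i) y)
    (ho : fval C l z x C.out = fval C l z y C.out) : v C.out = w C.out := by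
  have key : ∀ n : ℕ, ∀ s, ¬ C.Plain s → l.lev s ≤ n → z s = w s := by
    intro n
    induction n with
    | zero =>
        intro s hs hl
        rw [hz s hs, hv s, hw s]
        congr 1
        funext i
        have h1 := h s i hs
        simp only [nv] at h1
        cases hsrc : C.src s i with
        | inl a =>
            rw [hsrc] at h1
            cases a with
            | inl j => exact h1
            | inr b => rfl
        | inr g' =>
            have := l.lt s i g' hsrc
            omega
    | succ n ih =>
        intro s hs hl
        rw [hz s hs, hv s, hw s]
        congr 1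
        funext i
        have h1 := h s i hs
        simp only [nv] at h1
        cases hsrc : C.src s i with
        | inl a =>
            rw [hsrc] at h1
            cases a with
            | inl j => exact h1
            | inr b => rfl
        | inr g' =>
            rw [hsrc] at h1
            have hlt := l.lt s i g' hsrc
            simp only [Circuit.node] at h1 ⊢
            rw [← fval_true C l z x v hv n (fun s hs _ => hz s hs) g' (by omega),
              ← fval_true C l z y w hw n ih g' (by omega)]
            exact h1
  rw [← fval_true C l z x v hv l.top (fun s hs _ => hz s hs) C.out (l.le_top _),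
    ← fval_true C l z y w hw l.top (fun s hs hl => key l.top s hs hl) C.out (l.le_top _)]
  exact ho

end Forced

section Approx

variable {V P N : Type} [Fintype P] [Fintype N] {px : P → V → Bool} {py : N → V → Bool}
  {ep en : ℝ} (S : Sys V P N px py ep en)

include S in
theorem ep_nonneg : 0 ≤ ep := le_trans (Nat.cast_nonneg _) (S.or_pos S.top S.top)

include S in
theorem en_nonneg : 0 ≤ en := le_trans (Nat.cast_nonneg _) (S.or_neg S.top S.top)

/-- the approximator `c` approximates `h` of the approximators with small local errors -/
def Good (c : S.A) (h : (V → Bool) → Bool) : Prop :=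
  (({p : P | h (px p) = true ∧ S.ev c (px p) = false} : Set P).ncard : ℝ) ≤ ep ∧
    (({p : N | h (py p) = false ∧ S.ev c (py p) = true} : Set N).ncard : ℝ) ≤ en

theorem good_exact (c : S.A) (h : (V → Bool) → Bool) (he : ∀ x, S.ev c x = h x) :
    Good S c h := by
  constructor
  · have : ({p : P | h (px p) = true ∧ S.ev c (px p) = false} : Set P) = ∅ := by
      ext p
      simp only [Set.mem_ofPred_eq, Set.mem_empty_iff_false, iff_false, not_and]
      intro h1 h2
      rw [he, h1] at h2
      exact absurd h2 (by decide)
    rw [this]
    simpa using ep_nonneg S
  · have : ({p : N | h (py p) = false ∧ S.ev c (py p) = true} : Set N) = ∅ := by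
      ext p
      simp only [Set.mem_ofPred_eq, Set.mem_empty_iff_false, iff_false, not_and]
      intro h1 h2
      rw [he, h1] at h2
      exact absurd h2 (by decide)
    rw [this]
    simpa using en_nonneg S

theorem good_or (a b : S.A) : Good S (S.or a b) (fun x => S.ev a x || S.ev b x) := by
  constructor
  · have h := S.or_pos a b
    have e : ({p : P | (S.ev a (px p) || S.ev b (px p)) = true ∧
        S.ev (S.or a b) (px p) = false} : Set P) =
        {p : P | ((S.ev a (px p) || S.ev b (px p)) && !(S.ev (S.or a b) (px p))) = true} := by
      ext p
      simp only [Set.mem_ofPred_eq]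
      cases S.ev a (px p) <;> cases S.ev b (px p) <;> cases S.ev (S.or a b) (px p) <;> simp
    rw [e]
    exact h
  · have h := S.or_neg a b
    have e : ({p : N | (S.ev a (py p) || S.ev b (py p)) = false ∧
        S.ev (S.or a b) (py p) = true} : Set N) =
        {p : N | (!(S.ev a (py p) || S.ev b (py p)) && S.ev (S.or a b) (py p)) = true} := by
      ext p
      simp only [Set.mem_ofPred_eq]
      cases S.ev a (py p) <;> cases S.ev b (py p) <;> cases S.ev (S.or a b) (py p) <;> simp
    rw [e]
    exact h

theorem good_and (a b : S.A) : Good S (S.and a b) (fun x => S.ev a x && S.ev b x) := by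
  constructor
  · have h := S.and_pos a b
    have e : ({p : P | (S.ev a (px p) && S.ev b (px p)) = true ∧
        S.ev (S.and a b) (px p) = false} : Set P) =
        {p : P | ((S.ev a (px p) && S.ev b (px p)) && !(S.ev (S.and a b) (px p))) = true} := by
      ext p
      simp only [Set.mem_ofPred_eq]
      cases S.ev a (px p) <;> cases S.ev b (px p) <;> cases S.ev (S.and a b) (px p) <;> simp
    rw [e]
    exact h
  · have h := S.and_neg a b
    have e : ({p : N | (S.ev a (py p) && S.ev b (py p)) = false ∧
        S.ev (S.and a b) (py p) = true} : Set N) =
        {p : N | (!(S.ev a (py p) && S.ev b (py p)) && S.ev (S.and a b) (py p)) = true} := by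
      ext p
      simp only [Set.mem_ofPred_eq]
      cases S.ev a (py p) <;> cases S.ev b (py p) <;> cases S.ev (S.and a b) (py p) <;> simp
    rw [e]
    exact h

/-- a monotone binary function of two approximators -/
theorem good_two (f : Bool → Bool → Bool) (hf : Mon2 f) (a b : S.A) :
    ∃ c : S.A, Good S c (fun x => f (S.ev a x) (S.ev b x)) := by
  cases h11 : f true true
  · refine ⟨S.bot, good_exact S _ _ (fun x => ?_)⟩
    have h : ∀ a b, f a b = false := by
      intro a b
      by_contra hc
      have h1 : f a b = true := by simpa using hc
      have := hf a b true true (fun _ => rfl) (fun _ => rfl) h1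
      rw [h11] at this
      exact absurd this (by decide)
    rw [S.ev_bot, h]
  · cases h00 : f false false
    · cases h10 : f true false
      · cases h01 : f false true
        · refine ⟨S.and a b, ?_⟩
          have e : (fun x => f (S.ev a x) (S.ev b x)) = fun x => S.ev a x && S.ev b x := by
            funext x
            cases S.ev a x <;> cases S.ev b x <;> simp [h11, h00, h10, h01]
          rw [e]
          exact good_and S a b
        · refine ⟨b, good_exact S _ _ (fun x => ?_)⟩
          cases S.ev a x <;> cases S.ev b x <;> simp [h11, h00, h10, h01]
      · cases h01 : f false true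
        · refine ⟨a, good_exact S _ _ (fun x => ?_)⟩
          cases S.ev a x <;> cases S.ev b x <;> simp [h11, h00, h10, h01]
        · refine ⟨S.or a b, ?_⟩
          have e : (fun x => f (S.ev a x) (S.ev b x)) = fun x => S.ev a x || S.ev b x := by
            funext x
            cases S.ev a x <;> cases S.ev b x <;> simp [h11, h00, h10, h01]
          rw [e]
          exact good_or S a b
    · refine ⟨S.top, good_exact S _ _ (fun x => ?_)⟩
      have h : ∀ a b, f a b = true := by
        intro a b
        exact hf false false a b (fun h => absurd h (by decide))
          (fun h => absurd h (by decide)) h00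
      rw [S.ev_top, h]

/-- a monotone function of at most two approximators -/
theorem good_fn (k : ℕ) (hk : k ≤ 2) (f : (Fin k → Bool) → Bool)
    (hf : ∀ u w : Fin k → Bool, (∀ i, u i = true → w i = true) → f u = true → f w = true)
    (b : Fin k → S.A) :
    ∃ c : S.A, Good S c (fun x => f (fun i => S.ev (b i) x)) := by
  match k, hk, f, hf, b with
  | 0, _, f, _, b =>
      cases h : f Fin.elim0
      · refine ⟨S.bot, good_exact S _ _ (fun x => ?_)⟩
        rw [S.ev_bot, ← h]
        congr 1
        funext i
        exact i.elim0
      · refine ⟨S.top, good_exact S _ _ (fun x => ?_)⟩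
        rw [S.ev_top, ← h]
        congr 1
        funext i
        exact i.elim0
  | 1, _, f, hf, b =>
      obtain ⟨c, hc⟩ := good_two S (fun u _ => f (fun _ => u)) (by
        intro u w u' w' hu _ h
        exact hf _ _ (fun _ => hu) h) (b 0) (b 0)
      refine ⟨c, ?_⟩
      have e : (fun x => f (fun i => S.ev (b i) x)) = fun x => f (fun _ => S.ev (b 0) x) := by
        funext x
        congr 1
        funext i
        rw [Subsingleton.elim i 0]
      rw [e]
      exact hc
  | 2, _, f, hf, b =>
      obtain ⟨c, hc⟩ := good_two S (fun u w => f (fun i => if i = 0 then u else w)) (by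
        intro u w u' w' hu hw h
        refine hf _ _ (fun i => ?_) h
        by_cases hi : i = 0
        · simpa [hi] using hu
        · simpa [hi] using hw) (b 0) (b 1)
      refine ⟨c, ?_⟩
      have e : (fun x => f (fun i => S.ev (b i) x)) =
          fun x => f (fun i => if i = 0 then S.ev (b 0) x else S.ev (b 1) x) := by
        funext x
        congr 1
        funext i
        fin_cases i <;> simp
      rw [e]
      exact hc

variable {J G : Type}

/-- the approximator of a node -/
def an (f : J → V ⊕ Bool) (a : G → S.A) : (J ⊕ Bool) ⊕ G → S.A
  | .inl (.inl j) => (match f j with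
      | .inl i => S.var i
      | .inr true => S.top
      | .inr false => S.bot)
  | .inl (.inr true) => S.top
  | .inl (.inr false) => S.bot
  | .inr g => a g

/-- exactness on the nodes which are not gates -/
theorem an_inl (f : J → V ⊕ Bool) (a : G → S.A) (w : J ⊕ Bool) (v : G → Bool) (x : V → Bool) :
    S.ev (an S f a (Sum.inl w)) x = Circuit.node (pl f x) v (Sum.inl w) := by
  cases w with
  | inl j =>
      simp only [an, Circuit.node, pl]
      cases h : f j with
      | inl i => exact S.ev_var i x
      | inr b =>
          cases b
          · exact S.ev_bot x
          · exact S.ev_top x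
  | inr b =>
      cases b
      · exact S.ev_bot x
      · exact S.ev_top x

/-- approximation along the gates: outside the local error sets the approximators bound the
forced values from above on the positive tests and from below on the negative tests -/
theorem along (C : Circuit J G) (l : Lev C) (z : G → Bool) (f : J → V ⊕ Bool) (n : ℕ) :
    ∃ (a : G → S.A) (E : G → Set P) (F : G → Set N),
      (∀ g, ((E g).ncard : ℝ) ≤ ep) ∧ (∀ g, ((F g).ncard : ℝ) ≤ en) ∧
      (∀ p, (∀ g, l.lev g ≤ n → p ∉ E g) → ∀ g, l.lev g ≤ n →
        fval C l z (pl f (px p)) g = true → S.ev (a g) (px p) = true) ∧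
      (∀ p, (∀ g, l.lev g ≤ n → p ∉ F g) → ∀ g, l.lev g ≤ n → S.ev (a g) (py p) = true →
        fval C l z (pl f (py p)) g = true) := by
  classical
  -- one step of the recursion, from approximators `a` for the lower levels
  have step : ∀ (a : G → S.A) (g : G), ∃ (c : S.A) (E : Set P) (F : Set N),
      ((E.ncard : ℝ) ≤ ep) ∧ ((F.ncard : ℝ) ≤ en) ∧
      (∀ p, p ∉ E → (∀ g', l.lev g' < l.lev g → fval C l z (pl f (px p)) g' = true →
        S.ev (a g') (px p) = true) → fval C l z (pl f (px p)) g = true →
        S.ev c (px p) = true) ∧
      (∀ p, p ∉ F → (∀ g', l.lev g' < l.lev g → S.ev (a g') (py p) = true →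
        fval C l z (pl f (py p)) g' = true) → S.ev c (py p) = true →
        fval C l z (pl f (py p)) g = true) := by
    intro a g
    by_cases hp : C.Plain g
    · obtain ⟨c, hc1, hc2⟩ := good_fn S (C.arity g) hp.1 (C.fn g) hp.2
        (fun i => an S f a (C.src g i))
      refine ⟨c, {p : P | C.fn g (fun i => S.ev (an S f a (C.src g i)) (px p)) = true ∧
        S.ev c (px p) = false}, {p : N | C.fn g (fun i =>
          S.ev (an S f a (C.src g i)) (py p)) = false ∧ S.ev c (py p) = true},
        hc1, hc2, ?_, ?_⟩
      · intro p hpE hlow hv
        rw [fval_plain C l z _ g hp] at hv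
        have h1 : C.fn g (fun i => S.ev (an S f a (C.src g i)) (px p)) = true := by
          refine hp.2 _ _ (fun i hi => ?_) hv
          cases h : C.src g i with
          | inl w =>
              rw [h] at hi
              rw [an_inl S f a w (fval C l z (pl f (px p)))]
              exact hi
          | inr g' =>
              rw [h] at hi
              exact hlow g' (l.lt g i g' h) hi
        cases hc : S.ev c (px p)
        · exact absurd ⟨h1, hc⟩ hpE
        · rfl
      · intro p hpF hlow hc
        rw [fval_plain C l z _ g hp]
        have h1 : C.fn g (fun i => S.ev (an S f a (C.src g i)) (py p)) = true := by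
          cases h : C.fn g (fun i => S.ev (an S f a (C.src g i)) (py p))
          · exact absurd ⟨h, hc⟩ hpF
          · rfl
        refine hp.2 _ _ (fun i hi => ?_) h1
        cases h : C.src g i with
        | inl w =>
            rw [h] at hi
            rw [an_inl S f a w (fval C l z (pl f (py p)))] at hi
            exact hi
        | inr g' =>
            rw [h] at hi
            exact hlow g' (l.lt g i g' h) hi
    · refine ⟨if z g = true then S.top else S.bot, ∅, ∅, ?_, ?_, ?_, ?_⟩
      · simpa using ep_nonneg S
      · simpa using en_nonneg S
      · intro p _ _ hv
        rw [fval_special C l z _ g hp] at hv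
        rw [if_pos hv]
        exact S.ev_top _
      · intro p _ _ hc
        rw [fval_special C l z _ g hp]
        by_cases hz : z g = true
        · exact hz
        · rw [if_neg hz, S.ev_bot] at hc
          exact absurd hc (by decide)
  choose c E F hE hF hpos hneg using step
  induction n with
  | zero =>
      refine ⟨fun g => c (fun _ => S.bot) g, fun g => E (fun _ => S.bot) g,
        fun g => F (fun _ => S.bot) g, fun g => hE _ g, fun g => hF _ g, ?_, ?_⟩
      · intro p hp g hg hv
        exact hpos _ g p (hp g hg) (fun g' h => by omega) hv
      · intro p hp g hg hv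
        exact hneg _ g p (hp g hg) (fun g' h => by omega) hv
  | succ n ih =>
      obtain ⟨a, E', F', hE', hF', h1, h2⟩ := ih
      refine ⟨fun g => if l.lev g ≤ n then a g else c a g,
        fun g => if l.lev g ≤ n then E' g else E a g,
        fun g => if l.lev g ≤ n then F' g else F a g, ?_, ?_, ?_, ?_⟩
      · intro g
        by_cases hg : l.lev g ≤ n
        · simp only [if_pos hg]
          exact hE' g
        · simp only [if_neg hg]
          exact hE a g
      · intro g
        by_cases hg : l.lev g ≤ n
        · simp only [if_pos hg]
          exact hF' g
        · simp only [if_neg hg]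
          exact hF a g
      · intro p hp g hg hv
        have hlow : ∀ g', l.lev g' ≤ n → fval C l z (pl f (px p)) g' = true →
            S.ev (a g') (px p) = true := by
          intro g' hg' hv'
          refine h1 p (fun g'' hg'' => ?_) g' hg' hv'
          have := hp g'' (by omega)
          simp only [if_pos hg''] at this
          exact this
        by_cases hgn : l.lev g ≤ n
        · simp only [if_pos hgn]
          exact hlow g hgn hv
        · simp only [if_neg hgn]
          have hpg := hp g hg
          simp only [if_neg hgn] at hpg
          exact hpos a g p hpg (fun g' hg' hv' => hlow g' (by omega) hv') hv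
      · intro p hp g hg hv
        have hlow : ∀ g', l.lev g' ≤ n → S.ev (a g') (py p) = true →
            fval C l z (pl f (py p)) g' = true := by
          intro g' hg' hv'
          refine h2 p (fun g'' hg'' => ?_) g' hg' hv'
          have := hp g'' (by omega)
          simp only [if_pos hg''] at this
          exact this
        by_cases hgn : l.lev g ≤ n
        · simp only [if_pos hgn] at hv
          exact hlow g hgn hv
        · simp only [if_neg hgn] at hv
          have hpg := hp g hg
          simp only [if_neg hgn] at hpg
          exact hneg a g p hpg (fun g' hg' hv' => hlow g' (by omega) hv') hv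

/-- the dichotomy for the nodes of a forced circuit -/
theorem node_dich [Fintype G] (C : Circuit J G) (l : Lev C) (z : G → Bool) (f : J → V ⊕ Bool)
    (nd : (J ⊕ Bool) ⊕ G) (c : ℝ)
    (hgap : ∀ a : S.A, (({p : P | S.ev a (px p) = true} : Set P).ncard : ℝ) ≤ c ∨
      ∀ p, S.ev a (py p) = true) :
    (({p : P | nv C l z nd (pl f (px p)) = true} : Set P).ncard : ℝ) ≤
        c + Fintype.card G * ep ∨
      (({p : N | nv C l z nd (pl f (py p)) = false} : Set N).ncard : ℝ) ≤
        Fintype.card G * en := by
  classical
  obtain ⟨a, E, F, hE, hF, h1, h2⟩ := along S C l z f l.top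
  have hcE : (((⋃ g, E g : Set P)).ncard : ℝ) ≤ Fintype.card G * ep := by
    calc (((⋃ g, E g : Set P)).ncard : ℝ) ≤ ((∑ g, (E g).ncard : ℕ) : ℝ) := by
          exact_mod_cast Set.ncard_iUnion_le_of_fintype E
      _ = ∑ g, ((E g).ncard : ℝ) := by push_cast; rfl
      _ ≤ ∑ _g : G, ep := Finset.sum_le_sum (fun g _ => hE g)
      _ = Fintype.card G * ep := by
          rw [Finset.sum_const, Finset.card_univ, nsmul_eq_mul]
  have hcF : (((⋃ g, F g : Set N)).ncard : ℝ) ≤ Fintype.card G * en := by
    calc (((⋃ g, F g : Set N)).ncard : ℝ) ≤ ((∑ g, (F g).ncard : ℕ) : ℝ) := by
          exact_mod_cast Set.ncard_iUnion_le_of_fintype F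
      _ = ∑ g, ((F g).ncard : ℝ) := by push_cast; rfl
      _ ≤ ∑ _g : G, en := Finset.sum_le_sum (fun g _ => hF g)
      _ = Fintype.card G * en := by
          rw [Finset.sum_const, Finset.card_univ, nsmul_eq_mul]
  -- the approximator of the node
  have hup : ∀ p, p ∉ (⋃ g, E g : Set P) → nv C l z nd (pl f (px p)) = true →
      S.ev (an S f a nd) (px p) = true := by
    intro p hp hv
    rw [Set.mem_iUnion] at hp
    push Not at hp
    cases nd with
    | inl w =>
        rw [an_inl S f a w (fval C l z (pl f (px p)))]
        exact hv
    | inr g => exact h1 p (fun g _ => hp g) g (l.le_top g) hv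
  have hdown : ∀ p, p ∉ (⋃ g, F g : Set N) → S.ev (an S f a nd) (py p) = true →
      nv C l z nd (pl f (py p)) = true := by
    intro p hp hv
    rw [Set.mem_iUnion] at hp
    push Not at hp
    cases nd with
    | inl w =>
        rw [an_inl S f a w (fval C l z (pl f (py p)))] at hv
        exact hv
    | inr g => exact h2 p (fun g _ => hp g) g (l.le_top g) hv
  rcases hgap (an S f a nd) with h | h
  · left
    have hsub : ({p : P | nv C l z nd (pl f (px p)) = true} : Set P) ⊆
        {p : P | S.ev (an S f a nd) (px p) = true} ∪ ⋃ g, E g := by
      intro p hp
      by_cases hpE : p ∈ (⋃ g, E g : Set P)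
      · exact Or.inr hpE
      · exact Or.inl (hup p hpE hp)
    calc (({p : P | nv C l z nd (pl f (px p)) = true} : Set P).ncard : ℝ)
        ≤ (({p : P | S.ev (an S f a nd) (px p) = true} ∪ ⋃ g, E g : Set P).ncard : ℝ) := by
          exact_mod_cast Set.ncard_le_ncard hsub (Set.toFinite _)
      _ ≤ (({p : P | S.ev (an S f a nd) (px p) = true} : Set P).ncard : ℝ) +
          ((⋃ g, E g : Set P).ncard : ℝ) := by
          exact_mod_cast Set.ncard_union_le _ _
      _ ≤ c + Fintype.card G * ep := add_le_add h hcE
  · right
    have hsub : ({p : N | nv C l z nd (pl f (py p)) = false} : Set N) ⊆ ⋃ g, F g := by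
      intro p hp
      by_contra hpF
      have := hdown p hpF (h p)
      simp only [Set.mem_ofPred_eq] at hp
      rw [hp] at this
      exact absurd this (by decide)
    calc (({p : N | nv C l z nd (pl f (py p)) = false} : Set N).ncard : ℝ)
        ≤ ((⋃ g, F g : Set N).ncard : ℝ) := by
          exact_mod_cast Set.ncard_le_ncard hsub (Set.toFinite _)
      _ ≤ Fintype.card G * en := hcF

end Approx

end Pool.Agent.NEGS
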