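import Pool.Agent.Lib.MP_0087d5_lc.NEGS.Fam

/-!
The class of approximators for the bipartite perfect matching function.
-/

namespace Pool.Agent.NEGS

open Finset

/-- the number of terms -/
theorem card_terms (q r : ℕ) : (terms q r).card ≤ (q ^ 2 + 1) ^ r := by
  classical
  calc (terms q r).card
      ≤ (univ : Finset (Fin r → Option (Fin q × Fin q))).card := by
        apply card_le_card_of_injOn (fun R (k : Fin r) => R.toList[(k : ℕ)]?)
          (fun _ _ => mem_coe.mpr (mem_univ _))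
        intro R hR S hS h
        have hR' := (mem_filter.mp (mem_coe.mp hR)).2.1
        have hS' := (mem_filter.mp (mem_coe.mp hS)).2.1
        have hl : R.toList = S.toList := by
          apply List.ext_getElem?
          intro i
          by_cases hi : i < r
          · exact congrFun h ⟨i, hi⟩
          · rw [List.getElem?_eq_none, List.getElem?_eq_none]
            · rw [length_toList]
              omega
            · rw [length_toList]
              omega
        rw [← toList_toFinset R, hl, toList_toFinset S]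
    _ = (q ^ 2 + 1) ^ r := by
        rw [card_univ, Fintype.card_fun, Fintype.card_option, Fintype.card_prod,
          Fintype.card_fin, Fintype.card_fin, sq]

theorem card_col (q : ℕ) : (univ : Finset (Fin q ⊕ Fin q → Bool)).card = 2 ^ (2 * q) := by
  simp [two_mul]

/-- half of the colourings are not monochromatic on an edge -/
theorem half_ne {q : ℕ} (e : Fin q × Fin q) :
    2 ^ (2 * q) ≤ 2 * (univ.filter (fun c : Fin q ⊕ Fin q → Bool => ¬ yin c e = true)).card := by
  classical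
  have h1 := card_filter_add_card_filter_not (s := (univ : Finset (Fin q ⊕ Fin q → Bool)))
    (fun c => yin c e = true)
  rw [card_col] at h1
  have h2 : (univ.filter (fun c : Fin q ⊕ Fin q → Bool => yin c e = true)).card ≤
      (univ.filter (fun c : Fin q ⊕ Fin q → Bool => ¬ yin c e = true)).card := by
    apply card_le_card_of_injOn
      (fun c => Function.update c (Sum.inl e.1) (!c (Sum.inl e.1)))
    · intro c hc
      rw [mem_coe, mem_filter] at hc ⊢
      refine ⟨mem_univ _, ?_⟩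
      have h3 := hc.2
      simp only [yin, decide_eq_true_eq] at h3 ⊢
      rw [Function.update_self, Function.update_of_ne (by simp), h3]
      cases c (Sum.inr e.2) <;> simp
    · intro c _ c' _ h
      funext w
      have h3 := congrFun h w
      simp only at h3
      by_cases hw : w = Sum.inl e.1
      · subst hw
        rw [Function.update_self, Function.update_self] at h3
        exact Bool.not_inj h3
      · rw [Function.update_of_ne hw, Function.update_of_ne hw] at h3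
        exact h3
  omega

theorem isApp_cl {l q k B : ℕ} (hl : 1 ≤ l) (hk : 2 ≤ k) (hB : 1 ≤ B)
    (hsun : Sun q l (2 ^ (2 * q) / 2 ^ k) B) (hq : 64 * B ≤ q - 2 * l)
    (hkt : 2 ^ (4 * l) * (terms q l).card ≤ 2 ^ k) :
    IsApp l q {A | ∃ 𝓕, Closed l (2 ^ (2 * q) / 2 ^ k) 𝓕 ∧ A = ev 𝓕} := by
  classical
  set ρ := 2 ^ (2 * q) / 2 ^ k with hρ
  have hρ1 : 4 * ρ ≤ 2 ^ (2 * q) := by
    have h1 : 2 ^ k * ρ ≤ 2 ^ (2 * q) := Nat.mul_div_le _ _
    have h2 : 2 ^ 2 ≤ 2 ^ k := Nat.pow_le_pow_right (by norm_num) hk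
    nlinarith
  have hq0 : 0 < 2 ^ (2 * q) := by positivity
  refine ⟨?_, ?_, ?_, ?_, ?_⟩
  · -- variables
    intro e
    refine ⟨(terms q l).filter (fun R => e ∈ R), ⟨?_, ?_, ?_⟩, ?_⟩
    · intro R hR
      exact (mem_filter.mp (mem_filter.mp hR).1).2
    · intro S hS R hR hSR
      refine mem_filter.mpr ⟨mem_filter.mpr ⟨mem_univ _, hR⟩, hSR (mem_filter.mp hS).2⟩
    · intro K hK hf
      refine mem_filter.mpr ⟨mem_filter.mpr ⟨mem_univ _, hK⟩, ?_⟩
      by_contra heK
      have h1 : univ.filter (fun c : Fin q ⊕ Fin q → Bool => ¬ yin c e = true) ⊆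
          fail ((terms q l).filter (fun R => e ∈ R)) K := by
        intro c hc
        unfold fail
        rw [mem_filter] at hc ⊢
        refine ⟨mem_univ _, fun R hR _ h3 => hc.2 (h3 e ?_)⟩
        exact mem_sdiff.mpr ⟨(mem_filter.mp hR).2, heK⟩
      have h2 := card_le_card h1
      have h3 := half_ne e
      omega
    · funext w
      apply propext
      constructor
      · intro hw
        refine ⟨{e}, mem_filter.mpr ⟨mem_filter.mpr ⟨mem_univ _, ?_, ?_⟩, ?_⟩, ?_⟩
        · rw [card_singleton]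
          omega
        · intro a ha b hb _
          rw [mem_singleton.mp ha, mem_singleton.mp hb]
        · exact mem_singleton_self e
        · intro f hf
          rw [mem_singleton.mp hf]
          exact hw
      · rintro ⟨R, hR, hw⟩
        exact hw e (mem_filter.mp hR).2
  · -- constants
    intro p
    by_cases hp : p
    · refine ⟨terms q l, ⟨fun R hR => (mem_filter.mp hR).2,
        fun S _ R hR _ => mem_filter.mpr ⟨mem_univ _, hR⟩,
        fun R hR _ => mem_filter.mpr ⟨mem_univ _, hR⟩⟩, ?_⟩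
      funext w
      apply propext
      refine ⟨fun _ => ⟨∅, mem_filter.mpr ⟨mem_univ _, ?_, ?_⟩, ?_⟩, fun _ => hp⟩
      · simp
      · intro a ha
        exact absurd ha (notMem_empty a)
      · intro a ha
        exact absurd ha (notMem_empty a)
    · refine ⟨∅, ⟨fun R hR => absurd hR (notMem_empty R),
        fun S hS => absurd hS (notMem_empty S), ?_⟩, ?_⟩
      · intro K hK hf
        exfalso
        have h1 : fail (∅ : Finset (Finset (Fin q × Fin q))) K = univ := by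
          unfold fail
          apply filter_true_of_mem
          intro c _ R hR
          exact absurd hR (notMem_empty R)
        rw [h1, card_col] at hf
        omega
      · funext w
        apply propext
        refine ⟨fun h => absurd h hp, ?_⟩
        rintro ⟨R, hR, _⟩
        exact absurd hR (notMem_empty R)
  · -- meet
    rintro A ⟨𝓕, h𝓕, rfl⟩ B' ⟨𝓖, h𝓖, rfl⟩
    refine ⟨ev (𝓕 ∩ 𝓖), ⟨𝓕 ∩ 𝓖, h𝓕.inter h𝓖, rfl⟩, ?_, ?_⟩
    · rintro w ⟨R, hR, hw⟩
      rw [mem_inter] at hR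
      exact ⟨⟨R, hR.1, hw⟩, ⟨R, hR.2, hw⟩⟩
    · have h1 := meet_count hB hsun hq h𝓕 h𝓖
      have h2 : 8 * 2 ^ l * (2 ^ l * (l + 1) ^ 2) ≤ 64 ^ (l + 1) := by
        have h3 : l + 1 ≤ 2 ^ l := Nat.lt_two_pow_self
        calc 8 * 2 ^ l * (2 ^ l * (l + 1) ^ 2)
            ≤ 2 ^ 3 * 2 ^ l * (2 ^ l * (2 ^ l) ^ 2) := by
              gcongr
              norm_num
          _ = 2 ^ (3 + l + (l + l * 2)) := by
              rw [← pow_add, ← pow_mul, ← pow_add, ← pow_add]
          _ ≤ 2 ^ (6 * (l + 1)) := Nat.pow_le_pow_right (by norm_num) (by omega)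
          _ = 64 ^ (l + 1) := by rw [pow_mul]; norm_num
      have hpos : 0 < 2 ^ l * (l + 1) ^ 2 := by positivity
      apply Nat.le_of_mul_le_mul_left _ hpos
      calc 2 ^ l * (l + 1) ^ 2 * (8 * 2 ^ l * (univ.filter (fun σ : Equiv.Perm (Fin q) =>
            (ev 𝓕 (xin σ) ∧ ev 𝓖 (xin σ)) ∧ ¬ ev (𝓕 ∩ 𝓖) (xin σ))).card)
          = (8 * 2 ^ l * (2 ^ l * (l + 1) ^ 2)) * (univ.filter
            (fun σ : Equiv.Perm (Fin q) =>
            (ev 𝓕 (xin σ) ∧ ev 𝓖 (xin σ)) ∧ ¬ ev (𝓕 ∩ 𝓖) (xin σ))).card := by ring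
        _ ≤ 64 ^ (l + 1) * (univ.filter (fun σ : Equiv.Perm (Fin q) =>
            (ev 𝓕 (xin σ) ∧ ev 𝓖 (xin σ)) ∧ ¬ ev (𝓕 ∩ 𝓖) (xin σ))).card :=
            Nat.mul_le_mul_right _ h2
        _ ≤ 2 ^ l * (l + 1) ^ 2 * q.factorial := h1
  · -- join
    rintro A ⟨𝓕, h𝓕, rfl⟩ B' ⟨𝓖, h𝓖, rfl⟩
    obtain ⟨ℋ, h1, h2, h3⟩ := exists_closed (l := l) ρ (terms q l).card (𝓕 ∪ 𝓖) (by
      intro R hR
      rcases mem_union.mp hR with h | h
      · exact h𝓕.term R h
      · exact h𝓖.term R h) (by omega)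
    refine ⟨ev ℋ, ⟨ℋ, h1, rfl⟩, ?_, ?_⟩
    · rintro w (⟨R, hR, hw⟩ | ⟨R, hR, hw⟩)
      · exact ⟨R, h2 (mem_union_left _ hR), hw⟩
      · exact ⟨R, h2 (mem_union_right _ hR), hw⟩
    · have h4 : (univ.filter (fun c : Fin q ⊕ Fin q → Bool =>
          ev ℋ (yin c) ∧ ¬ (ev 𝓕 (yin c) ∨ ev 𝓖 (yin c)))).card ≤
          (terms q l).card * ρ := by
        refine le_trans (card_le_card ?_) h3
        intro c hc
        rw [mem_filter] at hc ⊢
        refine ⟨mem_univ _, hc.2.1, ?_⟩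
        rintro ⟨R, hR, hw⟩
        apply hc.2.2
        rcases mem_union.mp hR with h | h
        · exact Or.inl ⟨R, h, hw⟩
        · exact Or.inr ⟨R, h, hw⟩
      calc _ ≤ 2 ^ (4 * l) * ((terms q l).card * ρ) := Nat.mul_le_mul_left _ h4
        _ = 2 ^ (4 * l) * (terms q l).card * ρ := by ring
        _ ≤ 2 ^ k * ρ := Nat.mul_le_mul_right _ hkt
        _ ≤ 2 ^ (2 * q) := Nat.mul_div_le _ _
  · -- dichotomy
    rintro A ⟨𝓕, h𝓕, rfl⟩
    exact dich_count hB hsun hq h𝓕

theorem isApp_of {l q k B : ℕ} (hl : 1 ≤ l) (hk : 2 ≤ k) (hB : 1 ≤ B)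
    (hsun : Sun q l (2 ^ (2 * q) / 2 ^ k) B) (hq : 64 * B ≤ q - 2 * l)
    (hkt : 2 ^ (4 * l) * (terms q l).card ≤ 2 ^ k) :
    ∃ 𝒜 : Set ((Fin q × Fin q → Bool) → Prop), IsApp l q 𝒜 :=
  ⟨_, isApp_cl hl hk hB hsun hq hkt⟩

/-- the numbers -/
theorem num_sq (a : ℕ) (ha : 39 ≤ a) : 26615809 * a ^ 2 ≤ 2 ^ (a - 1) := by
  induction a, ha using Nat.le_induction with
  | base => norm_num
  | succ a ha ih =>
      have h1 : (a + 1) ^ 2 ≤ 2 * a ^ 2 := by nlinarith
      have h2 : 2 ^ (a + 1 - 1) = 2 * 2 ^ (a - 1) := by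
        rw [← pow_succ']
        congr 1
        omega
      rw [h2]
      calc 26615809 * (a + 1) ^ 2 ≤ 26615809 * (2 * a ^ 2) := Nat.mul_le_mul_left _ h1
        _ = 2 * (26615809 * a ^ 2) := by ring
        _ ≤ 2 * 2 ^ (a - 1) := Nat.mul_le_mul_left _ ih

/-- the numbers for the class of approximators -/
theorem app_numbers (l : ℕ) (hl : 2 ^ 38 ≤ l) :
    ∃ k : ℕ, 1 ≤ l ∧ 2 ≤ k ∧ 1 ≤ 32 * (6 * k) ^ 2 * l ^ 4 ∧
      64 * (32 * (6 * k) ^ 2 * l ^ 4) ≤ l ^ 7 - 2 * l ∧
      2 ^ (4 * l) * (terms (l ^ 7) l).card ≤ 2 ^ k := by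
  set a := Nat.log 2 l + 1 with ha
  have hl0 : l ≠ 0 := by
    have : 0 < 2 ^ 38 := by positivity
    omega
  have ha39 : 39 ≤ a := by
    have : 38 ≤ Nat.log 2 l := by
      calc 38 = Nat.log 2 (2 ^ 38) := (Nat.log_pow (by norm_num) 38).symm
        _ ≤ Nat.log 2 l := Nat.log_mono_right hl
    omega
  have hla : l < 2 ^ a := Nat.lt_pow_succ_log_self (by norm_num) l
  have hal : 2 ^ (a - 1) ≤ l := by
    rw [ha, Nat.add_sub_cancel]
    exact Nat.pow_log_le_self 2 hl0
  have hl1 : 1 ≤ l := by omega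
  set k := 19 * a * l with hk
  have hk1 : 2 ≤ k := by
    rw [hk]
    nlinarith
  have hB1 : 1 ≤ 32 * (6 * k) ^ 2 * l ^ 4 := by
    have h1 : 0 < 32 * (6 * k) ^ 2 * l ^ 4 := by positivity
    exact h1
  refine ⟨k, hl1, hk1, hB1, ?_, ?_⟩
  · -- 64 B ≤ q - 2 l
    apply Nat.le_sub_of_add_le
    have h1 := num_sq a ha39
    have h2 : 64 * (32 * (6 * k) ^ 2 * l ^ 4) = 26615808 * a ^ 2 * l ^ 6 := by
      rw [hk]
      ring
    have h3 : 2 * l ≤ a ^ 2 * l ^ 6 := by
      calc 2 * l ≤ a ^ 2 * l := by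
            apply Nat.mul_le_mul_right
            nlinarith
        _ ≤ a ^ 2 * l ^ 6 := by
            apply Nat.mul_le_mul_left
            calc l = l ^ 1 := (pow_one l).symm
              _ ≤ l ^ 6 := Nat.pow_le_pow_right hl1 (by norm_num)
    calc 64 * (32 * (6 * k) ^ 2 * l ^ 4) + 2 * l
        ≤ 26615808 * a ^ 2 * l ^ 6 + a ^ 2 * l ^ 6 := by omega
      _ = (26615809 * a ^ 2) * l ^ 6 := by ring
      _ ≤ l * l ^ 6 := Nat.mul_le_mul_right _ (h1.trans hal)
      _ = l ^ 7 := by ring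
  · -- the number of terms
    have h1 : (terms (l ^ 7) l).card ≤ 2 ^ (15 * a * l) := by
      calc (terms (l ^ 7) l).card ≤ ((l ^ 7) ^ 2 + 1) ^ l := card_terms _ _
        _ ≤ (2 ^ (15 * a)) ^ l := by
            apply Nat.pow_le_pow_left
            calc (l ^ 7) ^ 2 + 1 = l ^ 14 + 1 := by ring
              _ ≤ (2 ^ a) ^ 14 + 1 :=
                  Nat.add_le_add_right (Nat.pow_le_pow_left hla.le 14) 1
              _ = 2 ^ (14 * a) + 1 := by rw [← pow_mul, mul_comm a 14]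
              _ ≤ 2 ^ (14 * a) + 2 ^ (14 * a) := Nat.add_le_add_left Nat.one_le_two_pow _
              _ = 2 ^ (14 * a + 1) := by rw [pow_succ]; ring
              _ ≤ 2 ^ (15 * a) := Nat.pow_le_pow_right (by norm_num) (by omega)
        _ = 2 ^ (15 * a * l) := by rw [← pow_mul]
    calc 2 ^ (4 * l) * (terms (l ^ 7) l).card ≤ 2 ^ (4 * l) * 2 ^ (15 * a * l) :=
          Nat.mul_le_mul_left _ h1
      _ = 2 ^ (4 * l + 15 * a * l) := by rw [← pow_add]
      _ ≤ 2 ^ k := by
          apply Nat.pow_le_pow_right (by norm_num)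
          rw [hk]
          nlinarith

/-- the class of approximators, given the robust sunflower lemma -/
theorem exists_app_of (l : ℕ) (hl : 2 ^ 38 ≤ l)
    (hsun : ∀ k : ℕ, 1 ≤ k →
      Sun (l ^ 7) l (2 ^ (2 * l ^ 7) / 2 ^ k) (32 * (6 * k) ^ 2 * l ^ 4)) :
    ∃ 𝒜 : Set ((Fin (l ^ 7) × Fin (l ^ 7) → Bool) → Prop), IsApp l (l ^ 7) 𝒜 := by
  obtain ⟨k, h1, h2, h3, h4, h5⟩ := app_numbers l hl
  exact isApp_of h1 h2 h3 (hsun k (by omega)) h4 h5

end Pool.Agent.NEGS
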