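import Mathlib

/-!
Definitions for the dichotomy for monotone circuits on the bipartite perfect matching function.
-/

namespace Pool.Agent.NEGS

/-- the input given by the perfect matching of a permutation -/
def xin {q : ℕ} (σ : Equiv.Perm (Fin q)) (e : Fin q × Fin q) : Bool := decide (σ e.1 = e.2)

/-- the input given by the monochromatic edges of a 2-colouring of the vertices -/
def yin {q : ℕ} (c : Fin q ⊕ Fin q → Bool) (e : Fin q × Fin q) : Bool :=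
  decide (c (.inl e.1) = c (.inr e.2))

open Classical in
/-- a class of approximators for `K_{q,q}` with the quality `E` -/
structure IsApp (E q : ℕ) (𝒜 : Set ((Fin q × Fin q → Bool) → Prop)) : Prop where
  var : ∀ e, (fun w => w e = true) ∈ 𝒜
  const : ∀ p : Prop, (fun _ => p) ∈ 𝒜
  meet : ∀ A ∈ 𝒜, ∀ B ∈ 𝒜, ∃ D ∈ 𝒜, (∀ w, D w → A w ∧ B w) ∧
    8 * 2 ^ E * (Finset.univ.filter (fun σ : Equiv.Perm (Fin q) =>
      (A (xin σ) ∧ B (xin σ)) ∧ ¬ D (xin σ))).card ≤ q.factorial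
  join : ∀ A ∈ 𝒜, ∀ B ∈ 𝒜, ∃ D ∈ 𝒜, (∀ w, A w ∨ B w → D w) ∧
    2 ^ (4 * E) * (Finset.univ.filter (fun c : Fin q ⊕ Fin q → Bool =>
      D (yin c) ∧ ¬ (A (yin c) ∨ B (yin c)))).card ≤ 2 ^ (2 * q)
  dich : ∀ A ∈ 𝒜, (∀ w, A w) ∨
    8 * (Finset.univ.filter (fun σ : Equiv.Perm (Fin q) => A (xin σ))).card ≤ q.factorial

end Pool.Agent.NEGS
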