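import Pool.Agent.Lib.MP_0087d5_lc.NEGS.Along
import Pool.Agent.Lib.MP_0087d5_lc.NEGS.SDef

/-!
The chain of block matrices.
-/

namespace Pool.Agent.NEGS

open Pool.Agent.NEG

section Blocks

variable {n q L : ℕ} (hq : 0 < q)

/-- position inside the block -/
def ps (a : Fin n) : Fin q := ⟨(a : ℕ) % q, Nat.mod_lt _ hq⟩

/-- the two indices lie in the same block -/
def Same (q L : ℕ) {n : ℕ} (e : Fin n × Fin n) : Prop :=
  (e.1 : ℕ) / q = (e.2 : ℕ) / q ∧ (e.1 : ℕ) / q < L

instance (q L : ℕ) {n : ℕ} (e : Fin n × Fin n) : Decidable (Same q L e) :=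
  inferInstanceAs (Decidable (_ ∧ _))

/-- the substitution with free block `j`, full blocks before `j` and the permutations `t`
after `j` -/
def sb (j : ℕ) (t : Fin L → Equiv.Perm (Fin q)) (e : Fin n × Fin n) :
    (Fin q × Fin q) ⊕ Bool :=
  if h : Same q L e then
    (if (e.1 : ℕ) / q < j then Sum.inr true
    else if (e.1 : ℕ) / q = j then Sum.inl (ps hq e.1, ps hq e.2)
    else Sum.inr (decide (t ⟨(e.1 : ℕ) / q, h.2⟩ (ps hq e.1) = ps hq e.2)))
  else Sum.inr (decide (e.1 = e.2))

/-- the chain: full blocks before `j`, the permutations `t` from `j` on -/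
def W (j : ℕ) (t : Fin L → Equiv.Perm (Fin q)) (e : Fin n × Fin n) : Bool :=
  if h : Same q L e then
    (decide ((e.1 : ℕ) / q < j) ||
      decide (t ⟨(e.1 : ℕ) / q, h.2⟩ (ps hq e.1) = ps hq e.2))
  else decide (e.1 = e.2)

theorem W_mono (j : ℕ) (t : Fin L → Equiv.Perm (Fin q)) (e : Fin n × Fin n)
    (h : W hq j t e = true) : W hq (j + 1) t e = true := by
  unfold W at h ⊢
  by_cases hs : Same q L e
  · rw [dif_pos hs] at h ⊢
    simp only [Bool.or_eq_true, decide_eq_true_eq] at h ⊢
    rcases h with h | h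
    · left; omega
    · right; exact h
  · rw [dif_neg hs] at h ⊢
    exact h

theorem W_mono_le {j k : ℕ} (hjk : j ≤ k) (t : Fin L → Equiv.Perm (Fin q))
    (e : Fin n × Fin n) (h : W hq j t e = true) : W hq k t e = true := by
  induction k, hjk using Nat.le_induction with
  | base => exact h
  | succ k _ ih => exact W_mono hq k t e ih

theorem pl_sb_perm (j : Fin L) (t : Fin L → Equiv.Perm (Fin q)) (s : Equiv.Perm (Fin q)) :
    (pl (sb (n := n) hq j t) (xin s)) = W hq j (Function.update t j s) := by
  funext e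
  unfold pl sb W
  by_cases hs : Same q L e
  · rw [dif_pos hs, dif_pos hs]
    by_cases h1 : (e.1 : ℕ) / q < j
    · rw [if_pos h1]
      simp [h1]
    · rw [if_neg h1]
      by_cases h2 : (e.1 : ℕ) / q = j
      · rw [if_pos h2]
        have h3 : (⟨(e.1 : ℕ) / q, hs.2⟩ : Fin L) = j := Fin.ext h2
        simp only [xin, h3, Function.update_self]
        simp [h1]
      · rw [if_neg h2]
        have h3 : (⟨(e.1 : ℕ) / q, hs.2⟩ : Fin L) ≠ j := fun h => h2 (congrArg Fin.val h)
        rw [Function.update_of_ne h3]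
        simp [h1]
  · rw [dif_neg hs, dif_neg hs]

theorem pl_sb_one (j : Fin L) (t : Fin L → Equiv.Perm (Fin q)) :
    (pl (sb (n := n) hq j t) (fun _ => true)) = W hq (j + 1) t := by
  funext e
  unfold pl sb W
  by_cases hs : Same q L e
  · rw [dif_pos hs, dif_pos hs]
    by_cases h1 : (e.1 : ℕ) / q < j
    · rw [if_pos h1]
      have : (e.1 : ℕ) / q < j + 1 := by omega
      simp [this]
    · rw [if_neg h1]
      by_cases h2 : (e.1 : ℕ) / q = j
      · rw [if_pos h2]
        simp [h2]
      · rw [if_neg h2]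
        have : ¬ (e.1 : ℕ) / q < j + 1 := by omega
        simp [this]
  · rw [dif_neg hs, dif_neg hs]

theorem W_update (j : Fin L) (t : Fin L → Equiv.Perm (Fin q)) (s : Equiv.Perm (Fin q)) :
    W (n := n) hq (j + 1) (Function.update t j s) = W hq (j + 1) t := by
  funext e
  unfold W
  by_cases hs : Same q L e
  · rw [dif_pos hs, dif_pos hs]
    by_cases h1 : (e.1 : ℕ) / q < j + 1
    · simp [h1]
    · have h3 : (⟨(e.1 : ℕ) / q, hs.2⟩ : Fin L) ≠ j := fun h => h1 (by
        have := congrArg Fin.val h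
        simp only at this
        omega)
      rw [Function.update_of_ne h3]
  · rw [dif_neg hs, dif_neg hs]

theorem pl_mono {I J : Type} (f : J → I ⊕ Bool) {x y : I → Bool}
    (h : ∀ i, x i = true → y i = true) (j : J) (hx : pl f x j = true) : pl f y j = true := by
  unfold pl at hx ⊢
  cases hf : f j with
  | inl i =>
      rw [hf] at hx
      exact h i hx
  | inr b =>
      rw [hf] at hx
      exact hx

/-- full blocks have a perfect matching -/
theorem bpm_one (j : Fin L) (t : Fin L → Equiv.Perm (Fin q)) (hn : L * q ≤ n) :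
    BPM n (pl (sb (n := n) hq j t) (fun _ => true)) := by
  -- the permutation which is `t` in all blocks
  have hlt : ∀ (a : Fin n) (h : (a : ℕ) / q < L) (s : Equiv.Perm (Fin q)),
      (a : ℕ) / q * q + (s (ps hq a) : ℕ) < n := by
    intro a h s
    have h1 := (s (ps hq a)).2
    have h2 : ((a : ℕ) / q + 1) * q ≤ L * q := Nat.mul_le_mul_right q h
    have h3 : ((a : ℕ) / q + 1) * q = (a : ℕ) / q * q + q := by ring
    omega
  let g : (Fin L → Equiv.Perm (Fin q)) → Fin n → Fin n := fun t a =>
    if h : (a : ℕ) / q < L then ⟨(a : ℕ) / q * q + (t ⟨(a : ℕ) / q, h⟩ (ps hq a) : ℕ), hlt a h _⟩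
    else a
  have hdiv : ∀ t (a : Fin n), ((g t a : ℕ)) / q = (a : ℕ) / q := by
    intro t a
    simp only [g]
    by_cases h : (a : ℕ) / q < L
    · rw [dif_pos h]
      simp only
      rw [Nat.add_comm, Nat.add_mul_div_right _ _ hq, Nat.div_eq_of_lt (t ⟨_, h⟩ (ps hq a)).2,
        Nat.zero_add]
    · rw [dif_neg h]
  have hps : ∀ t (a : Fin n) (h : (a : ℕ) / q < L), ps hq (g t a) = t ⟨(a : ℕ) / q, h⟩ (ps hq a) := by
    intro t a h
    apply Fin.ext
    simp only [ps, g]
    rw [dif_pos h]
    simp only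
    rw [Nat.add_comm, Nat.add_mul_mod_self_right, Nat.mod_eq_of_lt]
    exact (t ⟨_, h⟩ _).2
  have hinv : ∀ t (a : Fin n), g (fun i => (t i).symm) (g t a) = a := by
    intro t a
    by_cases h : (a : ℕ) / q < L
    · have h' : ((g t a : Fin n) : ℕ) / q < L := by rw [hdiv]; exact h
      apply Fin.ext
      have e1 : ((g (fun i => (t i).symm) (g t a) : Fin n) : ℕ) =
          ((g t a : Fin n) : ℕ) / q * q +
            ((t ⟨((g t a : Fin n) : ℕ) / q, h'⟩).symm (ps hq (g t a)) : ℕ) := by
        simp only [g]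
        rw [dif_pos (by
          have := h'
          simp only [g] at this
          exact this)]
      rw [e1, hps t a h]
      have e2 : (⟨((g t a : Fin n) : ℕ) / q, h'⟩ : Fin L) = ⟨(a : ℕ) / q, h⟩ :=
        Fin.ext (hdiv t a)
      rw [e2, Equiv.symm_apply_apply, hdiv]
      simp only [ps]
      rw [Nat.mul_comm]
      exact Nat.div_add_mod _ _
    · have e1 : g t a = a := by
        simp only [g]
        rw [dif_neg h]
      rw [e1]
      simp only [g]
      rw [dif_neg h]
  refine ⟨⟨g t, g (fun i => (t i).symm), fun a => hinv t a, fun a => ?_⟩, fun a => ?_⟩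
  · have := hinv (fun i => (t i).symm) a
    simpa using this
  · rw [pl_sb_one]
    change W hq (j + 1) t (a, g t a) = true
    unfold W
    by_cases h : (a : ℕ) / q < L
    · have hs : Same q L (a, g t a) := ⟨(hdiv t a).symm, h⟩
      rw [dif_pos hs]
      simp only [Bool.or_eq_true, decide_eq_true_eq]
      right
      exact (hps t a h).symm
    · have hs : ¬ Same q L (a, g t a) := fun hs => h hs.2
      rw [dif_neg hs]
      simp only [decide_eq_true_eq, g]
      rw [dif_neg h]

/-- a perfect matching of the block matrix gives one of the free block -/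
theorem bpm_block (j : Fin L) (t : Fin L → Equiv.Perm (Fin q)) (hn : L * q ≤ n)
    (x : Fin q × Fin q → Bool) (h : BPM n (pl (sb (n := n) hq j t) x)) : BPM q x := by
  obtain ⟨s, hs⟩ := h
  have hj : ∀ a : Fin q, (j : ℕ) * q + a < n := by
    intro a
    have h2 : ((j : ℕ) + 1) * q ≤ L * q := Nat.mul_le_mul_right q j.2
    have h3 : ((j : ℕ) + 1) * q = (j : ℕ) * q + q := by ring
    omega
  have hdiv : ∀ a : Fin q, ((j : ℕ) * q + a) / q = j := by
    intro a
    rw [Nat.add_comm, Nat.add_mul_div_right _ _ hq, Nat.div_eq_of_lt a.2, Nat.zero_add]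
  have hmod : ∀ a : Fin q, ((j : ℕ) * q + a) % q = a := by
    intro a
    rw [Nat.add_comm, Nat.add_mul_mod_self_right, Nat.mod_eq_of_lt a.2]
  let e : Fin q → Fin n := fun a => ⟨(j : ℕ) * q + a, hj a⟩
  have key : ∀ a : Fin q, ((s (e a) : Fin n) : ℕ) / q = j ∧ x (a, ps hq (s (e a))) = true := by
    intro a
    have h1 := hs (e a)
    unfold pl sb at h1
    by_cases hsame : Same q L (e a, s (e a))
    · rw [dif_pos hsame] at h1
      have h2 : ((e a : Fin n) : ℕ) / q = j := hdiv a
      simp only [h2, lt_irrefl, if_false, if_true] at h1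
      refine ⟨?_, ?_⟩
      · rw [← hsame.1]
        exact h2
      · have h3 : ps hq (e a) = a := Fin.ext (hmod a)
        rw [h3] at h1
        exact h1
    · exfalso
      rw [dif_neg hsame] at h1
      simp only [decide_eq_true_eq] at h1
      apply hsame
      refine ⟨by simp only [← h1], ?_⟩
      change ((e a : Fin n) : ℕ) / q < L
      rw [show ((e a : Fin n) : ℕ) / q = j from hdiv a]
      exact j.2
  have hinj : Function.Injective (fun a => ps hq (s (e a))) := by
    intro a b hab
    have h1 := (key a).1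
    have h2 := (key b).1
    have h3 : ((s (e a) : Fin n) : ℕ) % q = ((s (e b) : Fin n) : ℕ) % q := congrArg Fin.val hab
    have h4 : ((s (e a) : Fin n) : ℕ) = ((s (e b) : Fin n) : ℕ) := by
      rw [← Nat.div_add_mod ((s (e a) : Fin n) : ℕ) q, ← Nat.div_add_mod ((s (e b) : Fin n) : ℕ) q,
        h1, h2, h3]
    have h5 := s.injective (Fin.ext h4)
    have h6 := congrArg Fin.val h5
    simp only [e] at h6
    exact Fin.ext (by omega)
  exact ⟨Equiv.ofBijective _ (Finite.injective_iff_bijective.mp hinj), fun a => (key a).2⟩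

end Blocks

end Pool.Agent.NEGS
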