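import Pool.Agent.Lib.MP_0087d5_lc.NEGS.SDef

/-!
The number of permutations which contain a given set of pairs.
-/

namespace Pool.Agent.NEGS

open Finset

/-- the permutations whose matching contains `S` -/
def thru {q : ℕ} (S : Finset (Fin q × Fin q)) : Finset (Equiv.Perm (Fin q)) :=
  univ.filter (fun σ => ∀ e ∈ S, σ e.1 = e.2)

theorem mem_thru {q : ℕ} {S : Finset (Fin q × Fin q)} {σ : Equiv.Perm (Fin q)} :
    σ ∈ thru S ↔ ∀ e ∈ S, σ e.1 = e.2 := by
  simp [thru]

theorem thru_insert {q : ℕ} (S : Finset (Fin q × Fin q)) (e : Fin q × Fin q) (he : e ∉ S) :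
    (q - S.card) * (thru (insert e S)).card ≤ (thru S).card := by
  classical
  set V : Finset (Fin q) := univ \ S.image Prod.snd with hV
  have hVc : q - S.card ≤ V.card := by
    rw [hV, card_sdiff_of_subset (subset_univ _), card_univ, Fintype.card_fin]
    have := card_image_le (s := S) (f := Prod.snd)
    omega
  have hinj : Set.InjOn (fun p : Fin q × Equiv.Perm (Fin q) => Equiv.swap e.2 p.1 * p.2)
      ((V ×ˢ thru (insert e S) : Finset _) : Set (Fin q × Equiv.Perm (Fin q))) := by
    rintro ⟨v, σ⟩ h1 ⟨w, τ⟩ h2 h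
    simp only [coe_product, Set.mem_prod, mem_coe] at h1 h2
    simp only at h
    have hσ : σ e.1 = e.2 := mem_thru.mp h1.2 e (mem_insert_self _ _)
    have hτ : τ e.1 = e.2 := mem_thru.mp h2.2 e (mem_insert_self _ _)
    have h3 := congrArg (fun π : Equiv.Perm (Fin q) => π e.1) h
    simp only [Equiv.Perm.mul_apply, hσ, hτ, Equiv.swap_apply_left] at h3
    subst h3
    rw [mul_right_inj] at h
    rw [h]
  have hmap : (V ×ˢ thru (insert e S)).image
      (fun p : Fin q × Equiv.Perm (Fin q) => Equiv.swap e.2 p.1 * p.2) ⊆ thru S := by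
    intro π hπ
    obtain ⟨⟨v, σ⟩, h1, rfl⟩ := mem_image.mp hπ
    rw [mem_product] at h1
    rw [mem_thru]
    intro f hf
    have hσ : σ e.1 = e.2 := mem_thru.mp h1.2 e (mem_insert_self _ _)
    have hσf : σ f.1 = f.2 := mem_thru.mp h1.2 f (mem_insert_of_mem hf)
    simp only [Equiv.Perm.mul_apply, hσf]
    apply Equiv.swap_apply_of_ne_of_ne
    · intro h
      have h4 : f.1 = e.1 := by
        apply σ.injective
        rw [hσf, hσ, h]
      exact he (by rw [show e = f from Prod.ext h4.symm h.symm]; exact hf)
    · intro h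
      have h5 : v ∈ V := h1.1
      rw [hV, mem_sdiff] at h5
      exact h5.2 (mem_image.mpr ⟨f, hf, h⟩)
  calc (q - S.card) * (thru (insert e S)).card ≤ V.card * (thru (insert e S)).card :=
        Nat.mul_le_mul_right _ hVc
    _ = (V ×ˢ thru (insert e S)).card := (card_product _ _).symm
    _ = ((V ×ˢ thru (insert e S)).image _).card := (card_image_of_injOn hinj).symm
    _ ≤ (thru S).card := card_le_card hmap

theorem thru_anti {q : ℕ} {S T : Finset (Fin q × Fin q)} (h : S ⊆ T) :
    (thru T).card ≤ (thru S).card := by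
  apply card_le_card
  intro σ hσ
  rw [mem_thru] at hσ ⊢
  exact fun e he => hσ e (h he)

theorem thru_card {q : ℕ} (S : Finset (Fin q × Fin q)) (r : ℕ) (hS : S.card ≤ r + 1) :
    (q - r) ^ S.card * (thru S).card ≤ q.factorial := by
  classical
  induction S using Finset.induction_on with
  | empty =>
      simp only [card_empty, pow_zero, one_mul]
      refine (card_le_univ _).trans ?_
      rw [Fintype.card_perm, Fintype.card_fin]
  | insert e S he ih =>
      rw [card_insert_of_notMem he] at hS
      have h1 := ih (by omega)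
      have h2 := thru_insert S e he
      rw [card_insert_of_notMem he, pow_succ, mul_assoc]
      refine le_trans (Nat.mul_le_mul_left _ ?_) h1
      refine le_trans (Nat.mul_le_mul_right _ ?_) h2
      omega

end Pool.Agent.NEGS
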