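import Pool.Agent.Lib.MP_0087d5_lc.NEGS.SDef
import Pool.Agent.Lib.MP_0087d5_lc.NEGS.PermCount

/-!
Closed families of terms.
-/

namespace Pool.Agent.NEGS

open Finset

variable {q : ℕ}

/-- a term: a matching with at most `l` edges -/
def Term (l : ℕ) (R : Finset (Fin q × Fin q)) : Prop :=
  R.card ≤ l ∧ ∀ e ∈ R, ∀ f ∈ R, (e.1 = f.1 ∨ e.2 = f.2) → e = f

theorem Term.sub {l : ℕ} {R S : Finset (Fin q × Fin q)} (hR : Term l R) (h : S ⊆ R) :
    Term l S :=
  ⟨(card_le_card h).trans hR.1, fun e he f hf => hR.2 e (h he) f (h hf)⟩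

/-- the function computed by a family of terms -/
def ev (𝓕 : Finset (Finset (Fin q × Fin q))) (w : Fin q × Fin q → Bool) : Prop :=
  ∃ R ∈ 𝓕, ∀ e ∈ R, w e = true

open Classical in
/-- the colourings for which no member of the family over `K` is monochromatic outside `K` -/
noncomputable def fail (𝓕 : Finset (Finset (Fin q × Fin q))) (K : Finset (Fin q × Fin q)) :
    Finset (Fin q ⊕ Fin q → Bool) :=
  univ.filter (fun c => ∀ R ∈ 𝓕, K ⊆ R → ¬ ∀ e ∈ R \ K, yin c e = true)

theorem fail_anti {𝓕 𝓖 : Finset (Finset (Fin q × Fin q))} (h : 𝓕 ⊆ 𝓖)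
    (K : Finset (Fin q × Fin q)) : fail 𝓖 K ⊆ fail 𝓕 K := by
  intro c hc
  unfold fail at hc ⊢
  rw [mem_filter] at hc ⊢
  exact ⟨mem_univ _, fun R hR => hc.2 R (h hR)⟩

/-- closed families -/
structure Closed (l ρ : ℕ) (𝓕 : Finset (Finset (Fin q × Fin q))) : Prop where
  term : ∀ R ∈ 𝓕, Term l R
  up : ∀ S ∈ 𝓕, ∀ R, Term l R → S ⊆ R → R ∈ 𝓕
  cl : ∀ K, Term l K → (fail 𝓕 K).card ≤ ρ → K ∈ 𝓕

open Classical in
/-- the minimal members -/
noncomputable def mins (𝓕 : Finset (Finset (Fin q × Fin q))) :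
    Finset (Finset (Fin q × Fin q)) :=
  𝓕.filter (fun R => ∀ S ∈ 𝓕, S ⊆ R → S = R)

theorem exists_min (𝓕 : Finset (Finset (Fin q × Fin q))) (R : Finset (Fin q × Fin q))
    (hR : R ∈ 𝓕) : ∃ S ∈ mins 𝓕, S ⊆ R := by
  induction R using Finset.strongInduction with
  | H R ih =>
      by_cases h : ∀ S ∈ 𝓕, S ⊆ R → S = R
      · exact ⟨R, mem_filter.mpr ⟨hR, h⟩, Subset.rfl⟩
      · push Not at h
        obtain ⟨S, hS, hSR, hne⟩ := h
        obtain ⟨T, hT, hTS⟩ := ih S (hSR.ssubset_of_ne hne) hS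
        exact ⟨T, hT, hTS.trans hSR⟩

/-- the robust sunflower property with the parameters `l`, `ρ`, `B` -/
def Sun (q l ρ B : ℕ) : Prop :=
  ∀ (i : ℕ) (F : Finset (Finset (Fin q × Fin q))) (K0 : Finset (Fin q × Fin q)),
    1 ≤ i → i ≤ l → (∀ R ∈ F, Term l R ∧ R.card = i ∧ K0 ⊆ R) →
    B ^ i < F.card * B ^ K0.card →
    ∃ K : Finset (Fin q × Fin q), K.card < i ∧ (∃ R ∈ F, K ⊆ R) ∧ (fail F K).card ≤ ρ

/-- the number of minimal members of size `i` over `K0` -/
theorem card_mins_over {l ρ B : ℕ} (hsun : Sun q l ρ B)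
    {𝓕 : Finset (Finset (Fin q × Fin q))} (h𝓕 : Closed l ρ 𝓕) (i : ℕ)
    (K0 : Finset (Fin q × Fin q)) :
    ((mins 𝓕).filter (fun R => R.card = i ∧ K0 ⊆ R)).card * B ^ K0.card ≤ B ^ i := by
  rcases Nat.eq_zero_or_pos i with rfl | hi
  · rcases ((mins 𝓕).filter (fun R => R.card = 0 ∧ K0 ⊆ R)).eq_empty_or_nonempty with h | h
    · rw [h]
      simp
    · obtain ⟨R, hR⟩ := h
      have h1 := (mem_filter.mp hR).2
      have h2 : R = ∅ := card_eq_zero.mp h1.1
      have h3 : K0 = ∅ := by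
        rw [h2] at h1
        exact subset_empty.mp h1.2
      have h4 : (mins 𝓕).filter (fun R => R.card = 0 ∧ K0 ⊆ R) ⊆ {∅} := by
        intro S hS
        rw [mem_singleton]
        exact card_eq_zero.mp (mem_filter.mp hS).2.1
      have := card_le_card h4
      rw [h3, card_empty, pow_zero, mul_one]
      rw [h3] at this
      simpa using this
  by_cases hil : i ≤ l
  swap
  · have : (mins 𝓕).filter (fun R => R.card = i ∧ K0 ⊆ R) = ∅ := by
      apply filter_eq_empty_iff.mpr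
      rintro R hR ⟨h1, _⟩
      have := (h𝓕.term R (mem_filter.mp hR).1).1
      omega
    rw [this]
    simp
  by_contra hcon
  push Not at hcon
  obtain ⟨K, h1, ⟨R, hR, hKR⟩, h2⟩ := hsun i _ K0 hi hil (by
    intro R hR
    rw [mem_filter] at hR
    exact ⟨h𝓕.term R (mem_filter.mp hR.1).1, hR.2.1, hR.2.2⟩) hcon
  have hsub : (mins 𝓕).filter (fun R => R.card = i ∧ K0 ⊆ R) ⊆ 𝓕 :=
    (filter_subset _ _).trans (filter_subset _ _)
  have hR' := mem_filter.mp hR
  have hRm := mem_filter.mp hR'.1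
  have hK : K ∈ 𝓕 := h𝓕.cl K ((h𝓕.term R hRm.1).sub hKR)
    ((card_le_card (fail_anti hsub K)).trans h2)
  have h3 := hRm.2 K hK hKR
  rw [h3] at h1
  omega

theorem Closed.inter {l ρ : ℕ} {𝓕 𝓖 : Finset (Finset (Fin q × Fin q))}
    (h𝓕 : Closed l ρ 𝓕) (h𝓖 : Closed l ρ 𝓖) : Closed l ρ (𝓕 ∩ 𝓖) where
  term R hR := h𝓕.term R (mem_inter.mp hR).1
  up S hS R hR hSR := by
    rw [mem_inter] at hS ⊢
    exact ⟨h𝓕.up S hS.1 R hR hSR, h𝓖.up S hS.2 R hR hSR⟩
  cl K hK hc := by
    rw [mem_inter]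
    exact ⟨h𝓕.cl K hK ((card_le_card (fail_anti inter_subset_left K)).trans hc),
      h𝓖.cl K hK ((card_le_card (fail_anti inter_subset_right K)).trans hc)⟩

theorem term_of_perm {l : ℕ} (R : Finset (Fin q × Fin q)) (σ : Equiv.Perm (Fin q))
    (hσ : ∀ e ∈ R, xin σ e = true) (hr : R.card ≤ l) : Term l R := by
  refine ⟨hr, fun e he f hf h => ?_⟩
  have h1 := hσ e he
  have h2 := hσ f hf
  simp only [xin, decide_eq_true_eq] at h1 h2
  rcases h with h | h
  · exact Prod.ext h (by rw [← h1, ← h2, h])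
  · exact Prod.ext (σ.injective (by rw [h1, h2, h])) h

/-- the error of the meet -/
theorem meet_err {l ρ : ℕ} {𝓕 𝓖 : Finset (Finset (Fin q × Fin q))}
    (h𝓕 : Closed l ρ 𝓕) (h𝓖 : Closed l ρ 𝓖) (σ : Equiv.Perm (Fin q))
    (h1 : ev 𝓕 (xin σ)) (h2 : ev 𝓖 (xin σ)) (h3 : ¬ ev (𝓕 ∩ 𝓖) (xin σ)) :
    ∃ R ∈ mins 𝓕, ∃ S ∈ mins 𝓖, l + 1 ≤ (R ∪ S).card ∧ σ ∈ thru (R ∪ S) := by
  obtain ⟨R', hR', hRσ⟩ := h1
  obtain ⟨S', hS', hSσ⟩ := h2
  obtain ⟨R, hR, hRR⟩ := exists_min 𝓕 R' hR'
  obtain ⟨S, hS, hSS⟩ := exists_min 𝓖 S' hS'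
  have hU : ∀ e ∈ R ∪ S, xin σ e = true := by
    intro e he
    rcases mem_union.mp he with h | h
    · exact hRσ e (hRR h)
    · exact hSσ e (hSS h)
  refine ⟨R, hR, S, hS, ?_, ?_⟩
  · by_contra hcon
    push Not at hcon
    have ht : Term l (R ∪ S) := term_of_perm _ σ hU (by omega)
    apply h3
    refine ⟨R ∪ S, mem_inter.mpr ⟨?_, ?_⟩, hU⟩
    · exact h𝓕.up R (mem_filter.mp hR).1 _ ht subset_union_left
    · exact h𝓖.up S (mem_filter.mp hS).1 _ ht subset_union_right
  · rw [mem_thru]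
    intro e he
    have := hU e he
    simpa [xin] using this

/-- the pairs of one class -/
theorem class_count {l ρ B : ℕ} (hB : 1 ≤ B) (hsun : Sun q l ρ B) (hq : 64 * B ≤ q - 2 * l)
    {𝓖 : Finset (Finset (Fin q × Fin q))} (h𝓖 : Closed l ρ 𝓖)
    (R U : Finset (Fin q × Fin q)) (hR : R.card ≤ l) (hU : U ⊆ R) (j : ℕ) :
    B ^ R.card * 64 ^ (l + 1) * (∑ S ∈ (mins 𝓖).filter (fun S => S.card = j ∧ R ∩ S = U ∧
      l + 1 ≤ (R ∪ S).card), (thru (R ∪ S)).card) ≤ q.factorial := by
  set 𝒮 := (mins 𝓖).filter (fun S => S.card = j ∧ R ∩ S = U ∧ l + 1 ≤ (R ∪ S).card) with h𝒮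
  rcases 𝒮.eq_empty_or_nonempty with h | ⟨S0, hS0⟩
  · rw [h]
    simp
  have hw : ∀ S ∈ 𝒮, (R ∪ S).card = R.card + j - U.card ∧ l + 1 ≤ (R ∪ S).card ∧
      U ⊆ S ∧ j ≤ l := by
    intro S hS
    rw [h𝒮, mem_filter] at hS
    obtain ⟨h1, h2, h3, h4⟩ := hS
    have h5 := card_union_add_card_inter R S
    rw [h3] at h5
    have h6 := (h𝓖.term S (mem_filter.mp h1).1).1
    refine ⟨by omega, h4, ?_, by omega⟩
    rw [← h3]
    exact inter_subset_right
  set w := R.card + j - U.card with hwdef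
  have hS0' := hw S0 hS0
  have hUj : U.card ≤ j := by
    have h1 := card_le_card hS0'.2.2.1
    have h2 : S0.card = j := by
      rw [h𝒮, mem_filter] at hS0
      exact hS0.2.1
    omega
  have hUR := card_le_card hU
  have hpos : 0 < (q - 2 * l) ^ w := Nat.pow_pos (by omega)
  have h1 : (q - 2 * l) ^ w * (∑ S ∈ 𝒮, (thru (R ∪ S)).card) ≤ 𝒮.card * q.factorial := by
    rw [mul_sum]
    calc ∑ S ∈ 𝒮, (q - 2 * l) ^ w * (thru (R ∪ S)).card ≤ ∑ S ∈ 𝒮, q.factorial := by
          apply sum_le_sum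
          intro S hS
          obtain ⟨h2, h3, h4, h5⟩ := hw S hS
          have h6 := thru_card (R ∪ S) (2 * l) (by omega)
          rw [h2] at h6
          exact h6
      _ = 𝒮.card * q.factorial := by simp
  have h2 : 𝒮.card * B ^ U.card ≤ B ^ j := by
    refine le_trans (Nat.mul_le_mul_right _ (card_le_card ?_)) (card_mins_over hsun h𝓖 j U)
    intro S hS
    have h3 := (hw S hS).2.2.1
    rw [h𝒮, mem_filter] at hS
    exact mem_filter.mpr ⟨hS.1, hS.2.1, h3⟩
  have h3 : 𝒮.card * B ^ R.card ≤ B ^ w := by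
    have hBU : 0 < B ^ U.card := Nat.pow_pos hB
    apply Nat.le_of_mul_le_mul_right _ hBU
    calc 𝒮.card * B ^ R.card * B ^ U.card = B ^ R.card * (𝒮.card * B ^ U.card) := by ring
      _ ≤ B ^ R.card * B ^ j := Nat.mul_le_mul_left _ h2
      _ = B ^ w * B ^ U.card := by
          rw [← pow_add, ← pow_add]
          congr 1
          omega
  apply Nat.le_of_mul_le_mul_left _ hpos
  calc (q - 2 * l) ^ w * (B ^ R.card * 64 ^ (l + 1) * (∑ S ∈ 𝒮, (thru (R ∪ S)).card))
      = B ^ R.card * 64 ^ (l + 1) * ((q - 2 * l) ^ w * (∑ S ∈ 𝒮, (thru (R ∪ S)).card)) := by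
        ring
    _ ≤ B ^ R.card * 64 ^ (l + 1) * (𝒮.card * q.factorial) := Nat.mul_le_mul_left _ h1
    _ = (𝒮.card * B ^ R.card) * 64 ^ (l + 1) * q.factorial := by ring
    _ ≤ B ^ w * 64 ^ w * q.factorial := by
        apply Nat.mul_le_mul_right
        apply Nat.mul_le_mul h3
        apply Nat.pow_le_pow_right (by norm_num)
        have := hS0'.1
        have := hS0'.2.1
        omega
    _ = (64 * B) ^ w * q.factorial := by rw [mul_pow]; ring
    _ ≤ (q - 2 * l) ^ w * q.factorial :=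
        Nat.mul_le_mul_right _ (Nat.pow_le_pow_left hq w)

open Classical in
theorem meet_count {l ρ B : ℕ} (hB : 1 ≤ B) (hsun : Sun q l ρ B) (hq : 64 * B ≤ q - 2 * l)
    {𝓕 𝓖 : Finset (Finset (Fin q × Fin q))}
    (h𝓕 : Closed l ρ 𝓕) (h𝓖 : Closed l ρ 𝓖) :
    64 ^ (l + 1) * (univ.filter (fun σ : Equiv.Perm (Fin q) =>
      (ev 𝓕 (xin σ) ∧ ev 𝓖 (xin σ)) ∧ ¬ ev (𝓕 ∩ 𝓖) (xin σ))).card ≤
      2 ^ l * (l + 1) ^ 2 * q.factorial := by
  -- the bound for one `R`
  set T : Finset (Fin q × Fin q) → ℕ := fun R =>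
    ∑ S ∈ (mins 𝓖).filter (fun S => l + 1 ≤ (R ∪ S).card), (thru (R ∪ S)).card with hT
  have hone : ∀ R ∈ mins 𝓕, B ^ R.card * 64 ^ (l + 1) * T R ≤
      2 ^ l * (l + 1) * q.factorial := by
    intro R hR
    have hRl := (h𝓕.term R (mem_filter.mp hR).1).1
    have h1 : T R ≤ ∑ p ∈ R.powerset ×ˢ range (l + 1), ∑ S ∈ (mins 𝓖).filter (fun S =>
        S.card = p.2 ∧ R ∩ S = p.1 ∧ l + 1 ≤ (R ∪ S).card), (thru (R ∪ S)).card := by
      have hmaps : ∀ S ∈ (mins 𝓖).filter (fun S => l + 1 ≤ (R ∪ S).card),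
          ((R ∩ S, S.card) : Finset (Fin q × Fin q) × ℕ) ∈ R.powerset ×ˢ range (l + 1) := by
        intro S hS
        rw [mem_product, mem_powerset, mem_range]
        have := (h𝓖.term S (mem_filter.mp (mem_filter.mp hS).1).1).1
        exact ⟨inter_subset_left, by simp only; omega⟩
      rw [hT]
      simp only
      rw [← sum_fiberwise_of_maps_to hmaps]
      apply sum_le_sum
      rintro ⟨U, j⟩ _
      apply le_of_eq
      apply sum_congr _ (fun _ _ => rfl)
      ext S
      simp only [mem_filter, Prod.mk.injEq]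
      tauto
    calc B ^ R.card * 64 ^ (l + 1) * T R
        ≤ B ^ R.card * 64 ^ (l + 1) * ∑ p ∈ R.powerset ×ˢ range (l + 1),
          ∑ S ∈ (mins 𝓖).filter (fun S => S.card = p.2 ∧ R ∩ S = p.1 ∧
            l + 1 ≤ (R ∪ S).card), (thru (R ∪ S)).card := Nat.mul_le_mul_left _ h1
      _ = ∑ p ∈ R.powerset ×ˢ range (l + 1), B ^ R.card * 64 ^ (l + 1) *
          ∑ S ∈ (mins 𝓖).filter (fun S => S.card = p.2 ∧ R ∩ S = p.1 ∧
            l + 1 ≤ (R ∪ S).card), (thru (R ∪ S)).card := by rw [mul_sum]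
      _ ≤ ∑ p ∈ R.powerset ×ˢ range (l + 1), q.factorial := by
          apply sum_le_sum
          rintro ⟨U, j⟩ hp
          rw [mem_product, mem_powerset] at hp
          exact class_count hB hsun hq h𝓖 R U hRl hp.1 j
      _ = 2 ^ R.card * (l + 1) * q.factorial := by
          rw [sum_const, card_product, card_powerset, card_range, smul_eq_mul]
      _ ≤ 2 ^ l * (l + 1) * q.factorial := by
          apply Nat.mul_le_mul_right
          apply Nat.mul_le_mul_right
          exact Nat.pow_le_pow_right (by norm_num) hRl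
  -- the sum over the `R` of size `i`
  have htwo : ∀ i ∈ range (l + 1), 64 ^ (l + 1) *
      (∑ R ∈ (mins 𝓕).filter (fun R => R.card = i), T R) ≤ 2 ^ l * (l + 1) * q.factorial := by
    intro i _
    have hBi : 0 < B ^ i := Nat.pow_pos hB
    apply Nat.le_of_mul_le_mul_left _ hBi
    have h1 := card_mins_over hsun h𝓕 i ∅
    simp only [card_empty, pow_zero, mul_one, empty_subset, and_true] at h1
    calc B ^ i * (64 ^ (l + 1) * (∑ R ∈ (mins 𝓕).filter (fun R => R.card = i), T R))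
        = ∑ R ∈ (mins 𝓕).filter (fun R => R.card = i), B ^ i * 64 ^ (l + 1) * T R := by
          rw [← mul_assoc, mul_sum]
      _ ≤ ∑ R ∈ (mins 𝓕).filter (fun R => R.card = i), 2 ^ l * (l + 1) * q.factorial := by
          apply sum_le_sum
          intro R hR
          rw [mem_filter] at hR
          have := hone R hR.1
          rw [hR.2] at this
          exact this
      _ = ((mins 𝓕).filter (fun R => R.card = i)).card * (2 ^ l * (l + 1) * q.factorial) := by
          rw [sum_const, smul_eq_mul]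
      _ ≤ B ^ i * (2 ^ l * (l + 1) * q.factorial) := Nat.mul_le_mul_right _ h1
  have hsub : univ.filter (fun σ : Equiv.Perm (Fin q) =>
      (ev 𝓕 (xin σ) ∧ ev 𝓖 (xin σ)) ∧ ¬ ev (𝓕 ∩ 𝓖) (xin σ)) ⊆
      (range (l + 1)).biUnion (fun i => ((mins 𝓕).filter (fun R => R.card = i)).biUnion
        (fun R => ((mins 𝓖).filter (fun S => l + 1 ≤ (R ∪ S).card)).biUnion
          (fun S => thru (R ∪ S)))) := by
    intro σ hσ
    rw [mem_filter] at hσ
    obtain ⟨_, ⟨h1, h2⟩, h3⟩ := hσ
    obtain ⟨R, hR, S, hS, hc, hσ⟩ := meet_err h𝓕 h𝓖 σ h1 h2 h3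
    have hRl := (h𝓕.term R (mem_filter.mp hR).1).1
    exact mem_biUnion.mpr ⟨R.card, mem_range.mpr (by omega), mem_biUnion.mpr
      ⟨R, mem_filter.mpr ⟨hR, rfl⟩, mem_biUnion.mpr ⟨S, mem_filter.mpr ⟨hS, hc⟩, hσ⟩⟩⟩
  have hcard : (univ.filter (fun σ : Equiv.Perm (Fin q) =>
      (ev 𝓕 (xin σ) ∧ ev 𝓖 (xin σ)) ∧ ¬ ev (𝓕 ∩ 𝓖) (xin σ))).card ≤
      ∑ i ∈ range (l + 1), ∑ R ∈ (mins 𝓕).filter (fun R => R.card = i), T R := by
    refine (card_le_card hsub).trans (card_biUnion_le.trans (sum_le_sum fun i _ => ?_))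
    refine card_biUnion_le.trans (sum_le_sum fun R _ => ?_)
    exact card_biUnion_le
  calc _ ≤ 64 ^ (l + 1) * ∑ i ∈ range (l + 1),
        ∑ R ∈ (mins 𝓕).filter (fun R => R.card = i), T R := Nat.mul_le_mul_left _ hcard
    _ = ∑ i ∈ range (l + 1), 64 ^ (l + 1) *
        ∑ R ∈ (mins 𝓕).filter (fun R => R.card = i), T R := by rw [mul_sum]
    _ ≤ ∑ i ∈ range (l + 1), 2 ^ l * (l + 1) * q.factorial := sum_le_sum htwo
    _ = 2 ^ l * (l + 1) ^ 2 * q.factorial := by
        rw [sum_const, card_range, smul_eq_mul]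
        ring

open Classical in
/-- the dichotomy for closed families -/
theorem dich_count {l ρ B : ℕ} (hB : 1 ≤ B) (hsun : Sun q l ρ B) (hq : 64 * B ≤ q - 2 * l)
    {𝓕 : Finset (Finset (Fin q × Fin q))} (h𝓕 : Closed l ρ 𝓕) :
    (∀ w, ev 𝓕 w) ∨
    8 * (univ.filter (fun σ : Equiv.Perm (Fin q) => ev 𝓕 (xin σ))).card ≤ q.factorial := by
  by_cases he : ∅ ∈ 𝓕
  · left
    intro w
    exact ⟨∅, he, by simp⟩
  right
  have hsub : univ.filter (fun σ : Equiv.Perm (Fin q) => ev 𝓕 (xin σ)) ⊆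
      (Icc 1 l).biUnion (fun i => ((mins 𝓕).filter (fun R => R.card = i)).biUnion
        (fun R => thru R)) := by
    intro σ hσ
    rw [mem_filter] at hσ
    obtain ⟨_, R', hR', hRσ⟩ := hσ
    obtain ⟨R, hR, hRR⟩ := exists_min 𝓕 R' hR'
    have hR𝓕 := (mem_filter.mp hR).1
    have hc := (h𝓕.term R hR𝓕).1
    have hpos : 1 ≤ R.card := by
      rw [Nat.one_le_iff_ne_zero, Ne, card_eq_zero]
      rintro rfl
      exact he hR𝓕
    refine mem_biUnion.mpr ⟨R.card, mem_Icc.mpr ⟨hpos, hc⟩, mem_biUnion.mpr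
      ⟨R, mem_filter.mpr ⟨hR, rfl⟩, ?_⟩⟩
    rw [mem_thru]
    intro e he
    have := hRσ e (hRR he)
    simpa [xin] using this
  have h1 := (card_le_card hsub).trans (card_biUnion_le)
  have h2 : ∀ i ∈ Icc 1 l, 64 ^ i * (((mins 𝓕).filter (fun R => R.card = i)).biUnion
        (fun R => thru R)).card ≤ q.factorial := by
    intro i hi
    rw [mem_Icc] at hi
    have hqr : 0 < (q - 2 * l) ^ i := Nat.pow_pos (by omega)
    have h3 : (q - 2 * l) ^ i * (((mins 𝓕).filter (fun R => R.card = i)).biUnion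
        (fun R => thru R)).card ≤ B ^ i * q.factorial := by
      calc (q - 2 * l) ^ i * (((mins 𝓕).filter (fun R => R.card = i)).biUnion
            (fun R => thru R)).card
          ≤ (q - 2 * l) ^ i * ∑ R ∈ (mins 𝓕).filter (fun R => R.card = i), (thru R).card :=
            Nat.mul_le_mul_left _ card_biUnion_le
        _ = ∑ R ∈ (mins 𝓕).filter (fun R => R.card = i),
            (q - 2 * l) ^ i * (thru R).card := by
            rw [mul_sum]
        _ ≤ ∑ R ∈ (mins 𝓕).filter (fun R => R.card = i), q.factorial := by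
            apply sum_le_sum
            intro R hR
            have hc := (mem_filter.mp hR).2
            have h4 := thru_card R (2 * l) (by omega)
            rw [hc] at h4
            exact h4
        _ = ((mins 𝓕).filter (fun R => R.card = i)).card * q.factorial := by simp
        _ ≤ B ^ i * q.factorial := by
            apply Nat.mul_le_mul_right
            have h5 := card_mins_over hsun h𝓕 i ∅
            simpa only [card_empty, pow_zero, mul_one, empty_subset, and_true] using h5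
    apply Nat.le_of_mul_le_mul_left _ hqr
    calc (q - 2 * l) ^ i * (64 ^ i * (((mins 𝓕).filter (fun R => R.card = i)).biUnion
          (fun R => thru R)).card)
        = 64 ^ i * ((q - 2 * l) ^ i * (((mins 𝓕).filter (fun R => R.card = i)).biUnion
          (fun R => thru R)).card) := by ring
      _ ≤ 64 ^ i * (B ^ i * q.factorial) := Nat.mul_le_mul_left _ h3
      _ = (64 * B) ^ i * q.factorial := by rw [mul_pow]; ring
      _ ≤ (q - 2 * l) ^ i * q.factorial :=
          Nat.mul_le_mul_right _ (Nat.pow_le_pow_left hq i)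
  -- the geometric sum
  have h3 : ∀ i ∈ Icc 1 l, 16 * 2 ^ i * (((mins 𝓕).filter (fun R => R.card = i)).biUnion
        (fun R => thru R)).card ≤ q.factorial := by
    intro i hi
    refine le_trans (Nat.mul_le_mul_right _ ?_) (h2 i hi)
    rw [mem_Icc] at hi
    obtain ⟨i, rfl⟩ : ∃ k, i = k + 1 := ⟨i - 1, by omega⟩
    calc 16 * 2 ^ (i + 1) = 32 * 2 ^ i := by ring
      _ ≤ 64 * 64 ^ i := Nat.mul_le_mul (by norm_num) (Nat.pow_le_pow_left (by norm_num) i)
      _ = 64 ^ (i + 1) := by ring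
  have h4 : (2 ^ l) * (16 * ∑ i ∈ Icc 1 l, (((mins 𝓕).filter
      (fun R => R.card = i)).biUnion (fun R => thru R)).card) ≤ 2 ^ l * q.factorial := by
    calc (2 ^ l) * (16 * ∑ i ∈ Icc 1 l, (((mins 𝓕).filter
        (fun R => R.card = i)).biUnion (fun R => thru R)).card)
        = ∑ i ∈ Icc 1 l, 2 ^ (l - i) * (16 * 2 ^ i * (((mins 𝓕).filter
          (fun R => R.card = i)).biUnion (fun R => thru R)).card) := by
          rw [mul_sum, mul_sum]
          apply sum_congr rfl
          intro i hi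
          rw [mem_Icc] at hi
          have : (2 : ℕ) ^ l = 2 ^ (l - i) * 2 ^ i := by
            rw [← pow_add]
            congr 1
            omega
          rw [this]
          ring
      _ ≤ ∑ i ∈ Icc 1 l, 2 ^ (l - i) * q.factorial :=
          sum_le_sum fun i hi => Nat.mul_le_mul_left _ (h3 i hi)
      _ = (∑ i ∈ Icc 1 l, 2 ^ (l - i)) * q.factorial := by rw [sum_mul]
      _ ≤ 2 ^ l * q.factorial := by
          apply Nat.mul_le_mul_right
          have h5 : ∑ i ∈ Icc 1 l, 2 ^ (l - i) = ∑ i ∈ range l, 2 ^ i := by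
            apply sum_nbij' (fun i => l - i) (fun i => l - i)
            · intro i hi
              rw [mem_Icc] at hi
              rw [mem_range]
              omega
            · intro i hi
              rw [mem_range] at hi
              rw [mem_Icc]
              omega
            · intro i hi
              rw [mem_Icc] at hi
              omega
            · intro i hi
              rw [mem_range] at hi
              omega
            · intro i _
              rfl
          rw [h5, Nat.geomSum_eq (by norm_num)]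
          have : 1 ≤ 2 ^ l := Nat.one_le_two_pow
          omega
  have h5 := Nat.le_of_mul_le_mul_left h4 (by positivity)
  calc _ ≤ 8 * ∑ i ∈ Icc 1 l, (((mins 𝓕).filter (fun R => R.card = i)).biUnion
        (fun R => thru R)).card := Nat.mul_le_mul_left _ h1
    _ ≤ 16 * ∑ i ∈ Icc 1 l, (((mins 𝓕).filter (fun R => R.card = i)).biUnion
        (fun R => thru R)).card := Nat.mul_le_mul_right _ (by norm_num)
    _ ≤ q.factorial := h5

open Classical in
/-- the terms -/
noncomputable def terms (q l : ℕ) : Finset (Finset (Fin q × Fin q)) :=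
  univ.filter (fun R => Term l R)

open Classical in
/-- closure with a small error -/
theorem exists_closed {l : ℕ} (ρ n : ℕ) :
    ∀ 𝓕 : Finset (Finset (Fin q × Fin q)), (∀ R ∈ 𝓕, Term l R) →
      (terms q l).card ≤ 𝓕.card + n →
      ∃ 𝓖, Closed l ρ 𝓖 ∧ 𝓕 ⊆ 𝓖 ∧
        (univ.filter (fun c : Fin q ⊕ Fin q → Bool =>
          ev 𝓖 (yin c) ∧ ¬ ev 𝓕 (yin c))).card ≤ n * ρ := by
  induction n with
  | zero =>
      intro 𝓕 h𝓕 hc
      have hsub : 𝓕 ⊆ terms q l := fun R hR => mem_filter.mpr ⟨mem_univ _, h𝓕 R hR⟩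
      have heq : 𝓕 = terms q l := eq_of_subset_of_card_le hsub (by omega)
      refine ⟨𝓕, ⟨h𝓕, ?_, ?_⟩, Subset.rfl, ?_⟩
      · intro S _ R hR _
        rw [heq]
        exact mem_filter.mpr ⟨mem_univ _, hR⟩
      · intro R hR _
        rw [heq]
        exact mem_filter.mpr ⟨mem_univ _, hR⟩
      · simp
  | succ n ih =>
      intro 𝓕 h𝓕 hc
      by_cases hcl : Closed l ρ 𝓕
      · exact ⟨𝓕, hcl, Subset.rfl, by simp⟩
      · -- a term to add
        have hadd : ∃ R, Term l R ∧ R ∉ 𝓕 ∧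
            (univ.filter (fun c : Fin q ⊕ Fin q → Bool =>
              (∀ e ∈ R, yin c e = true) ∧ ¬ ev 𝓕 (yin c))).card ≤ ρ := by
          by_contra hcon
          push Not at hcon
          apply hcl
          refine ⟨h𝓕, ?_, ?_⟩
          · intro S hS R hR hSR
            by_contra hn
            have h1 := hcon R hR hn
            rw [filter_false_of_mem] at h1
            · simp at h1
            · rintro c _ ⟨h2, h3⟩
              exact h3 ⟨S, hS, fun e he => h2 e (hSR he)⟩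
          · intro K hK hf
            by_contra hn
            have h1 := hcon K hK hn
            refine absurd (lt_of_lt_of_le h1 (le_trans (card_le_card ?_) hf)) (lt_irrefl _)
            intro c hc
            unfold fail
            rw [mem_filter] at hc ⊢
            refine ⟨mem_univ _, fun R hR hKR h3 => hc.2.2 ⟨R, hR, fun e he => ?_⟩⟩
            by_cases heK : e ∈ K
            · exact hc.2.1 e heK
            · exact h3 e (mem_sdiff.mpr ⟨he, heK⟩)
        obtain ⟨R, hR, hRn, hRe⟩ := hadd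
        obtain ⟨𝓖, h1, h2, h3⟩ := ih (insert R 𝓕) (by
          intro S hS
          rcases mem_insert.mp hS with rfl | h
          · exact hR
          · exact h𝓕 S h) (by
          rw [card_insert_of_notMem hRn]
          omega)
        refine ⟨𝓖, h1, (subset_insert _ _).trans h2, ?_⟩
        have hsub : univ.filter (fun c : Fin q ⊕ Fin q → Bool =>
            ev 𝓖 (yin c) ∧ ¬ ev 𝓕 (yin c)) ⊆
            univ.filter (fun c : Fin q ⊕ Fin q → Bool =>
              ev 𝓖 (yin c) ∧ ¬ ev (insert R 𝓕) (yin c)) ∪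
            univ.filter (fun c : Fin q ⊕ Fin q → Bool =>
              (∀ e ∈ R, yin c e = true) ∧ ¬ ev 𝓕 (yin c)) := by
          intro c hc
          rw [mem_filter] at hc
          rw [mem_union, mem_filter, mem_filter]
          by_cases h4 : ev (insert R 𝓕) (yin c)
          · right
            refine ⟨mem_univ _, ?_, hc.2.2⟩
            obtain ⟨S, hS, hSc⟩ := h4
            rcases mem_insert.mp hS with rfl | h
            · exact hSc
            · exact absurd ⟨S, h, hSc⟩ hc.2.2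
          · left
            exact ⟨mem_univ _, hc.2.1, h4⟩
        calc _ ≤ _ := card_le_card hsub
          _ ≤ _ + _ := card_union_le _ _
          _ ≤ n * ρ + ρ := Nat.add_le_add h3 hRe
          _ = (n + 1) * ρ := by ring

end Pool.Agent.NEGS
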