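import Pool.Agent.Lib.MP_0087d5_lc.NEGS.Pick
import Pool.Agent.Lib.MP_0087d5_lc.NEG.Adj

/-!
The contradiction for small circuits with few special gates.
-/

namespace Pool.Agent.NEGS

open Pool.Agent.NEG

section Odd

variable {q : ℕ}

/-- the parity of the number of vertices of colour one -/
def par (c : Fin q ⊕ Fin q → Bool) : ZMod 2 := ∑ v, if c v = true then 1 else 0

theorem par_flip (c : Fin q ⊕ Fin q → Bool) (v : Fin q ⊕ Fin q) :
    par (Function.update c v (!c v)) = par c + 1 := by
  classical
  unfold par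
  rw [← Finset.add_sum_erase _ _ (Finset.mem_univ v),
    ← Finset.add_sum_erase (f := fun w => if c w = true then (1 : ZMod 2) else 0) _
      (Finset.mem_univ v)]
  have h1 : ∑ x ∈ Finset.univ.erase v, (if Function.update c v (!c v) x = true then
      (1 : ZMod 2) else 0) = ∑ x ∈ Finset.univ.erase v, (if c x = true then 1 else 0) := by
    refine Finset.sum_congr rfl (fun x hx => ?_)
    rw [Function.update_of_ne (Finset.ne_of_mem_erase hx)]
  rw [h1, Function.update_self]
  have h2 : (1 : ZMod 2) + 1 = 0 := by decide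
  cases c v
  · simp only [Bool.not_false, if_true, Bool.false_eq_true, if_false]
    ring
  · simp only [Bool.not_true, Bool.false_eq_true, if_false, if_true]
    rw [zero_add, add_right_comm, h2, zero_add]

theorem card_odd (hq : 0 < q) :
    2 * (Finset.univ.filter (fun c : Fin q ⊕ Fin q → Bool => par c = 1)).card = 2 ^ (2 * q) := by
  classical
  let v : Fin q ⊕ Fin q := Sum.inl ⟨0, hq⟩
  have hz : ∀ a : ZMod 2, a = 1 ∨ a = 0 := by decide
  have h2 : (1 : ZMod 2) + 1 = 0 := by decide
  have h1 : (Finset.univ.filter (fun c : Fin q ⊕ Fin q → Bool => par c = 1)).card =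
      (Finset.univ.filter (fun c : Fin q ⊕ Fin q → Bool => ¬ par c = 1)).card := by
    apply Finset.card_bij' (fun c _ => Function.update c v (!c v))
      (fun c _ => Function.update c v (!c v))
    · intro c _
      simp
    · intro c _
      simp
    · intro c hc
      rw [Finset.mem_filter] at hc ⊢
      refine ⟨Finset.mem_univ _, ?_⟩
      rw [par_flip, hc.2, h2]
      decide
    · intro c hc
      rw [Finset.mem_filter] at hc ⊢
      refine ⟨Finset.mem_univ _, ?_⟩
      rw [par_flip]
      rcases hz (par c) with h | h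
      · exact absurd h hc.2
      · rw [h, zero_add]
  have h3 := Finset.card_filter_add_card_filter_not (s := Finset.univ)
    (fun c : Fin q ⊕ Fin q → Bool => par c = 1)
  rw [← h1, Finset.card_univ] at h3
  rw [Fintype.card_fun, Fintype.card_bool, Fintype.card_sum, Fintype.card_fin] at h3
  rw [two_mul, h3, two_mul]

theorem odd_not_bpm (c : Fin q ⊕ Fin q → Bool) (hc : par c = 1) : ¬ BPM q (yin c) := by
  rintro ⟨s, hs⟩
  have h1 : par c = 0 := by
    unfold par
    rw [Fintype.sum_sum_type]
    rw [← Equiv.sum_comp s (fun b => if c (Sum.inr b) = true then (1 : ZMod 2) else 0),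
      ← Finset.sum_add_distrib]
    refine Finset.sum_eq_zero (fun a _ => ?_)
    have h2 := hs a
    simp only [yin, decide_eq_true_eq] at h2
    rw [h2]
    have h2 : (1 : ZMod 2) + 1 = 0 := by decide
    by_cases h3 : c (Sum.inr (s a)) = true
    · rw [if_pos h3, h2]
    · rw [if_neg h3, add_zero]
  rw [h1] at hc
  exact absurd hc (by decide)

end Odd

section SysOf

variable {E q : ℕ} {𝒜 : Set ((Fin q × Fin q → Bool) → Prop)}

open Classical in
/-- the approximation system of a class of approximators -/
noncomputable def sysOf (h : IsApp E q 𝒜) :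
    Sys (Fin q × Fin q) (Equiv.Perm (Fin q)) (Fin q ⊕ Fin q → Bool) xin yin
      ((q.factorial : ℝ) / (8 * 2 ^ E)) ((2 : ℝ) ^ (2 * q) / 2 ^ (4 * E)) where
  A := {A // A ∈ 𝒜}
  ev a w := decide (a.1 w)
  var e := ⟨_, h.var e⟩
  top := ⟨_, h.const True⟩
  bot := ⟨_, h.const False⟩
  ev_var i x := by
    cases hx : x i <;> simp [hx]
  ev_top x := by simp
  ev_bot x := by simp
  or a b := ⟨(h.join a.1 a.2 b.1 b.2).choose, (h.join a.1 a.2 b.1 b.2).choose_spec.1⟩
  and a b := ⟨(h.meet a.1 a.2 b.1 b.2).choose, (h.meet a.1 a.2 b.1 b.2).choose_spec.1⟩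
  or_pos a b := by
    have hs := (h.join a.1 a.2 b.1 b.2).choose_spec.2.1
    have : ({p : Equiv.Perm (Fin q) | ((decide (a.1 (xin p)) || decide (b.1 (xin p))) &&
        !(decide ((h.join a.1 a.2 b.1 b.2).choose (xin p)))) = true} : Set _) = ∅ := by
      ext p
      simp only [Set.mem_ofPred_eq, Set.mem_empty_iff_false, iff_false, Bool.and_eq_true,
        Bool.or_eq_true, decide_eq_true_eq, Bool.not_eq_true', decide_eq_false_iff_not]
      rintro ⟨h1, h2⟩
      exact h2 (hs _ h1)
    rw [this]
    simp only [Set.ncard_empty, Nat.cast_zero]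
    positivity
  or_neg a b := by
    have hs := (h.join a.1 a.2 b.1 b.2).choose_spec.2.2
    have : ({p : Fin q ⊕ Fin q → Bool | (!(decide (a.1 (yin p)) || decide (b.1 (yin p))) &&
        (decide ((h.join a.1 a.2 b.1 b.2).choose (yin p)))) = true} : Set _) =
        ((Finset.univ.filter (fun c : Fin q ⊕ Fin q → Bool =>
          (h.join a.1 a.2 b.1 b.2).choose (yin c) ∧ ¬ (a.1 (yin c) ∨ b.1 (yin c)))) :
          Set _) := by
      ext p
      simp only [Set.mem_ofPred_eq, Finset.coe_filter, Finset.mem_univ, true_and,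
        Bool.and_eq_true, Bool.or_eq_false_iff, decide_eq_true_eq, Bool.not_eq_true',
        decide_eq_false_iff_not, not_or]
      constructor
      · rintro ⟨h1, h2⟩
        exact ⟨h2, h1⟩
      · rintro ⟨h1, h2⟩
        exact ⟨h2, h1⟩
    rw [this, Set.ncard_coe_finset, le_div_iff₀ (by positivity), mul_comm]
    exact_mod_cast hs
  and_pos a b := by
    have hs := (h.meet a.1 a.2 b.1 b.2).choose_spec.2.2
    have : ({p : Equiv.Perm (Fin q) | ((decide (a.1 (xin p)) && decide (b.1 (xin p))) &&
        !(decide ((h.meet a.1 a.2 b.1 b.2).choose (xin p)))) = true} : Set _) =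
        ((Finset.univ.filter (fun σ : Equiv.Perm (Fin q) =>
          (a.1 (xin σ) ∧ b.1 (xin σ)) ∧ ¬ (h.meet a.1 a.2 b.1 b.2).choose (xin σ))) :
          Set _) := by
      ext p
      simp only [Set.mem_ofPred_eq, Finset.coe_filter, Finset.mem_univ, true_and,
        Bool.and_eq_true, decide_eq_true_eq, Bool.not_eq_true',
        decide_eq_false_iff_not]
    rw [this, Set.ncard_coe_finset, le_div_iff₀ (by positivity), mul_comm]
    exact_mod_cast hs
  and_neg a b := by
    have hs := (h.meet a.1 a.2 b.1 b.2).choose_spec.2.1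
    have : ({p : Fin q ⊕ Fin q → Bool | (!(decide (a.1 (yin p)) && decide (b.1 (yin p))) &&
        (decide ((h.meet a.1 a.2 b.1 b.2).choose (yin p)))) = true} : Set _) = ∅ := by
      ext p
      simp only [Set.mem_ofPred_eq, Set.mem_empty_iff_false, iff_false, Bool.and_eq_true,
        decide_eq_true_eq, Bool.not_eq_true', Bool.and_eq_false_iff, decide_eq_false_iff_not]
      rintro ⟨h1, h2⟩
      have h3 := hs _ h2
      rcases h1 with h1 | h1
      · exact h1 h3.1
      · exact h1 h3.2
    rw [this]
    simp only [Set.ncard_empty, Nat.cast_zero]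
    positivity

end SysOf

section Final

variable {n q : ℕ} {G : Type}

/-- the circuit decides the bipartite perfect matching function of the matrix -/
theorem decides_iff (C : Circuit (Fin (2 * n) × Fin (2 * n)) G) (hPM : DecidesPM n C)
    (x : Fin n × Fin n → Bool) (v : G → Bool) (hv : C.Consistent (pull (sig n) x) v) :
    v C.out = true ↔ BPM n x := by
  classical
  have hadj : (fun e : Fin (2 * n) × Fin (2 * n) => decide ((gr x).Adj e.1 e.2)) =
      pull (sig n) x := by
    funext e
    rw [Bool.eq_iff_iff, decide_eq_true_eq, pull_sig]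
    rfl
  have h1 := hPM (gr x) (gr_bip x) v (by
    have h3 : (fun e : Fin (2 * n) × Fin (2 * n) => @decide ((gr x).Adj e.1 e.2)
        (Classical.propDecidable _)) = pull (sig n) x := by
      rw [← hadj]
    rw [h3]
    exact hv)
  rw [gr_pm]
  exact h1

/-- the circuit is right on the graphs of the matrices with all entries in the diagonal blocks
of size `q` -/
def RightOn (q : ℕ) (C : Circuit (Fin (2 * n) × Fin (2 * n)) G) : Prop :=
  ∀ x : Fin n × Fin n → Bool, (∀ e, x e = true → (e.1 : ℕ) / q = (e.2 : ℕ) / q) →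
    ∀ v, C.Consistent (pull (sig n) x) v → (v C.out = true ↔ BPM n x)

/-- the substituted matrices have all entries in the diagonal blocks -/
theorem pl_sb_block {L : ℕ} (hq : 0 < q) (j : ℕ) (t : Fin L → Equiv.Perm (Fin q))
    (x : Fin q × Fin q → Bool) (e : Fin n × Fin n) (h : pl (sb hq j t) x e = true) :
    (e.1 : ℕ) / q = (e.2 : ℕ) / q := by
  by_cases hs : Same q L e
  · exact hs.1
  · unfold pl sb at h
    rw [dif_neg hs] at h
    rw [decide_eq_true_eq.mp h]

/-- composition of substitutions -/
def cmp {I J K : Type} (f : K → J ⊕ Bool) (g : J → I ⊕ Bool) (k : K) : I ⊕ Bool :=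
  match f k with
  | .inl j => g j
  | .inr b => .inr b

theorem pl_cmp {I J K : Type} (f : K → J ⊕ Bool) (g : J → I ⊕ Bool) (x : I → Bool) :
    pl (cmp f g) x = pull f (pl g x) := by
  funext k
  unfold pl cmp pull
  cases f k <;> rfl

/-- the sum of `2 ^ (number of elements of smaller level)` -/
theorem sum_lower {α : Type} [DecidableEq α] (f : α → ℕ) (S : Finset α) :
    ∑ s ∈ S, 2 ^ (S.filter (fun s' => f s' < f s)).card + 1 ≤ 2 ^ S.card := by
  induction S using Finset.induction_on_max_value f with
  | empty => simp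
  | insert a S ha hmax ih =>
      rw [Finset.sum_insert ha, Finset.card_insert_of_notMem ha]
      have h1 : ((insert a S).filter (fun s' => f s' < f a)).card ≤ S.card := by
        apply Finset.card_le_card
        intro s' hs'
        rw [Finset.mem_filter, Finset.mem_insert] at hs'
        rcases hs'.1 with h | h
        · rw [h] at hs'
          exact absurd hs'.2 (lt_irrefl _)
        · exact h
      have h2 : ∑ s ∈ S, 2 ^ ((insert a S).filter (fun s' => f s' < f s)).card =
          ∑ s ∈ S, 2 ^ (S.filter (fun s' => f s' < f s)).card := by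
        refine Finset.sum_congr rfl (fun s hs => ?_)
        congr 2
        rw [Finset.filter_insert, if_neg]
        exact not_lt.mpr (hmax s hs)
      rw [h2]
      have h3 : 2 ^ ((insert a S).filter (fun s' => f s' < f a)).card ≤ 2 ^ S.card :=
        Nat.pow_le_pow_right (by norm_num) h1
      rw [pow_succ]
      omega

open Classical in
/-- extend values of the special gates of level below `n` by `false` -/
noncomputable def ext (C : Circuit (Fin (2 * n) × Fin (2 * n)) G) (l : Lev C) (b : ℕ)
    (z : {s // ¬ C.Plain s ∧ l.lev s < b} → Bool) (g : G) : Bool :=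
  if h : ¬ C.Plain g ∧ l.lev g < b then z ⟨g, h⟩ else false

/-- the index set of the monotone functions: for every special gate and every assignment of
the special gates of lower level the inputs of the gate, and for every assignment of all
special gates the output -/
abbrev Idx (C : Circuit (Fin (2 * n) × Fin (2 * n)) G) (l : Lev C) : Type :=
  (Σ s : {s // ¬ C.Plain s}, ({s' // ¬ C.Plain s' ∧ l.lev s' < l.lev s} → Bool) ×
    Fin (C.arity s)) ⊕ ({s' // ¬ C.Plain s' ∧ l.lev s' < l.top + 1} → Bool)

/-- the forced constants of an index -/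
noncomputable def zOf (C : Circuit (Fin (2 * n) × Fin (2 * n)) G) (l : Lev C) :
    Idx C l → G → Bool
  | .inl p => ext C l (l.lev p.1) p.2.1
  | .inr z => ext C l (l.top + 1) z

/-- the node of an index -/
def nod (C : Circuit (Fin (2 * n) × Fin (2 * n)) G) (l : Lev C) :
    Idx C l → ((Fin (2 * n) × Fin (2 * n)) ⊕ Bool) ⊕ G
  | .inl p => C.src p.1 p.2.2
  | .inr _ => .inr C.out

open Classical in
theorem card_idx [Fintype G] (C : Circuit (Fin (2 * n) × Fin (2 * n)) G) (l : Lev C) (t m : ℕ)
    (ht : Fintype.card {s // ¬ C.Plain s} ≤ t) (hm : ∀ g, ¬ C.Plain g → C.arity g ≤ m) :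
    Fintype.card (Idx C l) ≤ 2 * (m * 2 ^ t + 1) := by
  have hcard : ∀ b : ℕ, Fintype.card {s' // ¬ C.Plain s' ∧ l.lev s' < b} =
      ((Finset.univ.filter (fun s => ¬ C.Plain s)).filter (fun s' => l.lev s' < b)).card := by
    intro b
    rw [Finset.filter_filter, Fintype.card_subtype]
  have hS : (Finset.univ.filter (fun s => ¬ C.Plain s)).card ≤ t := by
    rw [← Fintype.card_subtype]
    exact ht
  rw [Fintype.card_sum, Fintype.card_sigma]
  have h1 : (∑ s : {s // ¬ C.Plain s}, Fintype.card
      (({s' // ¬ C.Plain s' ∧ l.lev s' < l.lev s} → Bool) × Fin (C.arity s))) ≤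
      m * (2 ^ t - 1) := by
    have e1 : (∑ s : {s // ¬ C.Plain s}, Fintype.card
        (({s' // ¬ C.Plain s' ∧ l.lev s' < l.lev s} → Bool) × Fin (C.arity s))) ≤
        ∑ s : {s // ¬ C.Plain s}, m * 2 ^ ((Finset.univ.filter (fun s => ¬ C.Plain s)).filter
            (fun s' => l.lev s' < l.lev s)).card := by
      refine Finset.sum_le_sum (fun s _ => ?_)
      rw [Fintype.card_prod, Fintype.card_fun, Fintype.card_bool, Fintype.card_fin, hcard,
        Nat.mul_comm]
      exact Nat.mul_le_mul_right _ (hm s s.2)
    have e2 : (∑ s : {s // ¬ C.Plain s}, m * 2 ^ ((Finset.univ.filter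
        (fun s => ¬ C.Plain s)).filter (fun s' => l.lev s' < l.lev s)).card) =
        m * ∑ s ∈ Finset.univ.filter (fun s => ¬ C.Plain s),
            2 ^ ((Finset.univ.filter (fun s => ¬ C.Plain s)).filter
            (fun s' => l.lev s' < l.lev s)).card := by
      rw [Finset.mul_sum]
      exact (Finset.sum_subtype (Finset.univ.filter (fun s => ¬ C.Plain s)) (by simp)
        (fun s => m * 2 ^ ((Finset.univ.filter (fun s => ¬ C.Plain s)).filter
            (fun s' => l.lev s' < l.lev s)).card)).symm
    have e3 : m * ∑ s ∈ Finset.univ.filter (fun s => ¬ C.Plain s),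
            2 ^ ((Finset.univ.filter (fun s => ¬ C.Plain s)).filter
            (fun s' => l.lev s' < l.lev s)).card ≤ m * (2 ^ t - 1) := by
      apply Nat.mul_le_mul_left
      have h2 := sum_lower l.lev (Finset.univ.filter (fun s => ¬ C.Plain s))
      have h3 : (2 : ℕ) ^ (Finset.univ.filter (fun s => ¬ C.Plain s)).card ≤ 2 ^ t :=
        Nat.pow_le_pow_right (by norm_num) hS
      omega
    exact e1.trans (e2 ▸ e3)
  have h2 : Fintype.card ({s' // ¬ C.Plain s' ∧ l.lev s' < l.top + 1} → Bool) ≤
      2 ^ (Finset.univ.filter (fun s => ¬ C.Plain s)).card := by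
    rw [Fintype.card_fun, Fintype.card_bool, hcard]
    exact Nat.pow_le_pow_right (by norm_num) (Finset.card_filter_le _ _)
  by_cases hm0 : m = 0
  · -- no special gates at all
    have hempty : (Finset.univ.filter (fun s => ¬ C.Plain s)).card = 0 := by
      rw [Finset.card_eq_zero, Finset.filter_eq_empty_iff]
      intro s _ hs
      apply hs
      have h3 : C.arity s = 0 := by
        have := hm s hs
        omega
      refine ⟨by omega, fun a b _ h4 => ?_⟩
      have h5 : a = b := by
        funext i
        exact absurd i.2 (by omega)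
      rw [← h5]
      exact h4
    rw [hempty, pow_zero] at h2
    rw [hm0, Nat.zero_mul] at h1
    omega
  · have h3 : (2 : ℕ) ^ (Finset.univ.filter (fun s => ¬ C.Plain s)).card ≤ 2 ^ t :=
      Nat.pow_le_pow_right (by norm_num) hS
    have h4 : 2 ^ t ≤ m * 2 ^ t := Nat.le_mul_of_pos_left _ (Nat.pos_of_ne_zero hm0)
    have h5 : m * (2 ^ t - 1) ≤ m * 2 ^ t := Nat.mul_le_mul_left _ (Nat.sub_le _ _)
    omega

theorem main_false {E s t m L : ℕ} {𝒜 : Set ((Fin q × Fin q → Bool) → Prop)}
    (h𝒜 : IsApp E q 𝒜) (hq : 0 < q) [Finite G]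
    (C : Circuit (Fin (2 * n) × Fin (2 * n)) G) (hC : ∃ d, C.DepthLE d)
    (hcard : Nat.card G ≤ s) (hs : s ≤ 2 ^ E)
    (ht : {g | ¬ C.Plain g}.ncard ≤ t) (hm : ∀ g, ¬ C.Plain g → C.arity g ≤ m)
    (hT : 2 * (2 * (m * 2 ^ t + 1)) < 2 ^ (3 * E))
    (hL : 8 * (2 * (m * 2 ^ t + 1)) ≤ L) (hLq : L * q ≤ n) (hPM : RightOn q C) :
    False := by
  classical
  obtain ⟨d, lev, hlev1, hlev2⟩ := hC
  let l : Lev C := ⟨lev, d, fun g => (hlev1 g).2, hlev2⟩
  have : Fintype G := Fintype.ofFinite G
  rw [Nat.card_eq_fintype_card] at hcard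
  have hsp : Fintype.card {s // ¬ C.Plain s} ≤ t := by
    rw [← Nat.card_eq_fintype_card]
    exact ht
  have hι := card_idx C l t m hsp hm
  let u : Idx C l → (Fin n × Fin n → Bool) → Bool := fun k X =>
    nv C l (zOf C l k) (nod C l k) (pull (sig n) X)
  have hu : ∀ k x y, (∀ e, x e = true → y e = true) → u k x = true → u k y = true := by
    intro k x y hxy hx
    exact nv_mono C l _ _ (fun e he => pl_mono (sig n) hxy e he) hx
  have hL0 : 0 < L := by omega
  obtain ⟨j, τ, hjτ⟩ := chain_pick hq (show 8 * Fintype.card (Idx C l) ≤ L by omega) hL0 u hu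
  -- every function which is one at the full block is one at almost all colourings
  have hdich : ∀ k : Idx C l, u k (pl (sb hq j τ) (fun _ => true)) = true →
      2 ^ (3 * E) * (Finset.univ.filter (fun c : Fin q ⊕ Fin q → Bool =>
        u k (pl (sb hq j τ) (yin c)) = false)).card ≤ 2 ^ (2 * q) := by
    intro k hk
    have hfac : (0 : ℝ) < q.factorial := by exact_mod_cast Nat.factorial_pos q
    have hgap : ∀ a : (sysOf h𝒜).A, (({p : Equiv.Perm (Fin q) |
        (sysOf h𝒜).ev a (xin p) = true} : Set _).ncard : ℝ) ≤ (q.factorial : ℝ) / 8 ∨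
        ∀ p, (sysOf h𝒜).ev a (yin p) = true := by
      intro a
      rcases h𝒜.dich a.1 a.2 with h | h
      · right
        intro p
        exact decide_eq_true (h _)
      · left
        have e : ({p : Equiv.Perm (Fin q) | (sysOf h𝒜).ev a (xin p) = true} : Set _) =
            ((Finset.univ.filter (fun σ : Equiv.Perm (Fin q) => a.1 (xin σ))) : Set _) := by
          ext p
          simp only [Set.mem_ofPred_eq, Finset.coe_filter, Finset.mem_univ, true_and]
          exact decide_eq_true_iff
        rw [e, Set.ncard_coe_finset, le_div_iff₀ (by norm_num), mul_comm]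
        exact_mod_cast h
    have hsR : (Fintype.card G : ℝ) ≤ 2 ^ E := by
      exact_mod_cast hcard.trans hs
    have hcomp : ∀ x, u k (pl (sb hq j τ) x) =
        nv C l (zOf C l k) (nod C l k) (pl (cmp (sig n) (sb hq j τ)) x) := by
      intro x
      rw [pl_cmp]
    rcases node_dich (sysOf h𝒜) C l (zOf C l k) (cmp (sig n) (sb hq j τ)) (nod C l k)
      ((q.factorial : ℝ) / 8) hgap with h | h
    · -- too few positive tests
      exfalso
      have h1 : ({p : Equiv.Perm (Fin q) | nv C l (zOf C l k) (nod C l k)
          (pl (cmp (sig n) (sb hq j τ)) (xin p)) = true} : Set _) =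
          ((Finset.univ.filter (fun σ : Equiv.Perm (Fin q) =>
            u k (pl (sb hq j τ) (xin σ)) = true)) : Set _) := by
        ext p
        simp only [Set.mem_ofPred_eq, Finset.coe_filter, Finset.mem_univ, true_and]
        rw [hcomp]
      rw [h1, Set.ncard_coe_finset] at h
      have h2 : (Finset.univ.filter (fun σ : Equiv.Perm (Fin q) =>
            u k (pl (sb hq j τ) (xin σ)) = true)).card +
          (Finset.univ.filter (fun σ : Equiv.Perm (Fin q) =>
            ¬ u k (pl (sb hq j τ) (xin σ)) = true)).card = q.factorial := by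
        rw [Finset.card_filter_add_card_filter_not, Finset.card_univ, Fintype.card_perm,
          Fintype.card_fin]
      have h3 : (Finset.univ.filter (fun σ : Equiv.Perm (Fin q) =>
            ¬ u k (pl (sb hq j τ) (xin σ)) = true)).card ≤
          (Finset.univ.filter (fun p : Idx C l × Equiv.Perm (Fin q) =>
            u p.1 (pl (sb hq j τ) (xin p.2)) = false ∧
              u p.1 (pl (sb hq j τ) (fun _ => true)) = true)).card := by
        apply Finset.card_le_card_of_injOn (fun σ => (k, σ))
        · intro σ hσ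
          simp only [Finset.coe_filter, Finset.mem_univ, true_and, Set.mem_ofPred_eq] at hσ ⊢
          exact ⟨Bool.eq_false_iff.mpr hσ, hk⟩
        · intro a _ b _ hab
          exact (Prod.mk.inj hab).2
      have h4 : (8 : ℝ) * ((Finset.univ.filter (fun σ : Equiv.Perm (Fin q) =>
            ¬ u k (pl (sb hq j τ) (xin σ)) = true)).card : ℝ) ≤ q.factorial := by
        exact_mod_cast (Nat.mul_le_mul_left 8 h3).trans hjτ
      have h5 : ((Finset.univ.filter (fun σ : Equiv.Perm (Fin q) =>
            u k (pl (sb hq j τ) (xin σ)) = true)).card : ℝ) +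
          ((Finset.univ.filter (fun σ : Equiv.Perm (Fin q) =>
            ¬ u k (pl (sb hq j τ) (xin σ)) = true)).card : ℝ) = q.factorial := by
        exact_mod_cast h2
      have h6 : (Fintype.card G : ℝ) * ((q.factorial : ℝ) / (8 * 2 ^ E)) ≤
          (q.factorial : ℝ) / 8 := by
        calc (Fintype.card G : ℝ) * ((q.factorial : ℝ) / (8 * 2 ^ E))
            ≤ 2 ^ E * ((q.factorial : ℝ) / (8 * 2 ^ E)) := by gcongr
          _ = (q.factorial : ℝ) / 8 := by field_simp
      linarith
    · have h1 : ({p : Fin q ⊕ Fin q → Bool | nv C l (zOf C l k) (nod C l k)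
          (pl (cmp (sig n) (sb hq j τ)) (yin p)) = false} : Set _) =
          ((Finset.univ.filter (fun c : Fin q ⊕ Fin q → Bool =>
            u k (pl (sb hq j τ) (yin c)) = false)) : Set _) := by
        ext p
        simp only [Set.mem_ofPred_eq, Finset.coe_filter, Finset.mem_univ, true_and]
        rw [hcomp]
      rw [h1, Set.ncard_coe_finset] at h
      have h2 : (Fintype.card G : ℝ) * ((2 : ℝ) ^ (2 * q) / 2 ^ (4 * E)) ≤
          (2 : ℝ) ^ (2 * q) / 2 ^ (3 * E) := by
        calc (Fintype.card G : ℝ) * ((2 : ℝ) ^ (2 * q) / 2 ^ (4 * E))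
            ≤ 2 ^ E * ((2 : ℝ) ^ (2 * q) / 2 ^ (4 * E)) := by gcongr
          _ = (2 : ℝ) ^ (2 * q) / 2 ^ (3 * E) := by
              rw [show 4 * E = E + 3 * E by ring, pow_add]
              field_simp
      have h3 := h.trans h2
      rw [le_div_iff₀ (by positivity), mul_comm] at h3
      exact_mod_cast h3
  -- the bad colourings
  let B : Finset (Fin q ⊕ Fin q → Bool) := Finset.univ.filter (fun c =>
    ∃ k : Idx C l, u k (pl (sb hq j τ) (yin c)) ≠ u k (pl (sb hq j τ) (fun _ => true)))
  have hB : 2 ^ (3 * E) * B.card ≤ Fintype.card (Idx C l) * 2 ^ (2 * q) := by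
    have hsub : B ⊆ Finset.univ.biUnion (fun k : Idx C l => Finset.univ.filter
        (fun c : Fin q ⊕ Fin q → Bool => u k (pl (sb hq j τ) (fun _ => true)) = true ∧
          u k (pl (sb hq j τ) (yin c)) = false)) := by
      intro c hc
      rw [Finset.mem_filter] at hc
      obtain ⟨k, hk⟩ := hc.2
      rw [Finset.mem_biUnion]
      refine ⟨k, Finset.mem_univ _, ?_⟩
      rw [Finset.mem_filter]
      refine ⟨Finset.mem_univ _, ?_⟩
      have hmon : u k (pl (sb hq j τ) (yin c)) = true →
          u k (pl (sb hq j τ) (fun _ => true)) = true := by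
        apply hu
        intro e he
        exact pl_mono _ (fun _ _ => rfl) e he
      cases h1 : u k (pl (sb hq j τ) (fun _ => true))
      · cases h2 : u k (pl (sb hq j τ) (yin c))
        · rw [h1, h2] at hk
          exact absurd rfl hk
        · rw [hmon h2] at h1
          exact absurd h1 (by decide)
      · cases h2 : u k (pl (sb hq j τ) (yin c))
        · exact ⟨rfl, rfl⟩
        · rw [h1, h2] at hk
          exact absurd rfl hk
    calc 2 ^ (3 * E) * B.card ≤ 2 ^ (3 * E) * ∑ k : Idx C l, (Finset.univ.filter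
        (fun c : Fin q ⊕ Fin q → Bool => u k (pl (sb hq j τ) (fun _ => true)) = true ∧
          u k (pl (sb hq j τ) (yin c)) = false)).card :=
          Nat.mul_le_mul_left _ ((Finset.card_le_card hsub).trans Finset.card_biUnion_le)
      _ = ∑ k : Idx C l, 2 ^ (3 * E) * (Finset.univ.filter
        (fun c : Fin q ⊕ Fin q → Bool => u k (pl (sb hq j τ) (fun _ => true)) = true ∧
          u k (pl (sb hq j τ) (yin c)) = false)).card := by rw [Finset.mul_sum]
      _ ≤ ∑ _k : Idx C l, 2 ^ (2 * q) := by
          refine Finset.sum_le_sum (fun k _ => ?_)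
          by_cases hk : u k (pl (sb hq j τ) (fun _ => true)) = true
          · refine (Nat.mul_le_mul_left _ (Finset.card_le_card ?_)).trans (hdich k hk)
            intro c hc
            rw [Finset.mem_filter] at hc ⊢
            exact ⟨hc.1, hc.2.2⟩
          · have : (Finset.univ.filter (fun c : Fin q ⊕ Fin q → Bool =>
                u k (pl (sb hq j τ) (fun _ => true)) = true ∧
                  u k (pl (sb hq j τ) (yin c)) = false)) = ∅ := by
              rw [Finset.filter_eq_empty_iff]
              intro c _ h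
              exact hk h.1
            rw [this, Finset.card_empty, Nat.mul_zero]
            exact Nat.zero_le _
      _ = Fintype.card (Idx C l) * 2 ^ (2 * q) := by
          rw [Finset.sum_const, Finset.card_univ, smul_eq_mul]
  -- an odd colouring which is not bad
  obtain ⟨c, hc1, hc2⟩ : ∃ c : Fin q ⊕ Fin q → Bool, par c = 1 ∧ c ∉ B := by
    by_contra hcon
    push Not at hcon
    have h1 : (Finset.univ.filter (fun c : Fin q ⊕ Fin q → Bool => par c = 1)).card ≤
        B.card := by
      apply Finset.card_le_card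
      intro c hc
      rw [Finset.mem_filter] at hc
      exact hcon c hc.2
    have h2 := card_odd hq
    have h3 : 2 ^ (3 * E) * 2 ^ (2 * q) ≤ 2 * (Fintype.card (Idx C l) * 2 ^ (2 * q)) := by
      calc 2 ^ (3 * E) * 2 ^ (2 * q) = 2 * (2 ^ (3 * E) *
            (Finset.univ.filter (fun c : Fin q ⊕ Fin q → Bool => par c = 1)).card) := by
            rw [← h2]; ring
        _ ≤ 2 * (2 ^ (3 * E) * B.card) := by
            exact Nat.mul_le_mul_left _ (Nat.mul_le_mul_left _ h1)
        _ ≤ 2 * (Fintype.card (Idx C l) * 2 ^ (2 * q)) := Nat.mul_le_mul_left _ hB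
    have h4 : 2 * (Fintype.card (Idx C l) * 2 ^ (2 * q)) < 2 ^ (3 * E) * 2 ^ (2 * q) := by
      rw [← Nat.mul_assoc]
      apply Nat.mul_lt_mul_of_pos_right _ (by positivity)
      omega
    omega
  have hall : ∀ k : Idx C l, u k (pl (sb hq j τ) (yin c)) = u k (pl (sb hq j τ) (fun _ => true)) := by
    intro k
    by_contra hk
    apply hc2
    rw [Finset.mem_filter]
    exact ⟨Finset.mem_univ _, k, hk⟩
  -- the two inputs have the same output
  obtain ⟨v, hv⟩ := exists_consistent C l.lev l.top l.le_top l.lt
    (pull (sig n) (pl (sb hq j τ) (fun _ => true)))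
  obtain ⟨w, hw⟩ := exists_consistent C l.lev l.top l.le_top l.lt
    (pull (sig n) (pl (sb hq j τ) (yin c)))
  have hout : v C.out = w C.out := by
    have hz : ∀ s, ¬ C.Plain s → ext C l (l.top + 1) (fun s => v s) s = v s := by
      intro s hs
      unfold ext
      rw [dif_pos ⟨hs, by have := l.le_top s; omega⟩]
    refine out_eq C l _ _ v w (ext C l (l.top + 1) (fun s => v s)) hv hw hz ?_ ?_
    · intro s i hs
      have hcong : ∀ x, nv C l (ext C l (l.top + 1) (fun s => v s)) (C.src s i) x =
          nv C l (ext C l (l.lev s) (fun s => v s)) (C.src s i) x := by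
        intro x
        apply nv_congr
        intro s' hs' hlt
        rw [hz s' hs']
        unfold ext
        rw [dif_pos ⟨hs', hlt⟩]
      rw [hcong, hcong]
      exact (hall (Sum.inl ⟨⟨s, hs⟩, fun s => v s, i⟩)).symm
    · exact (hall (Sum.inr (fun s => v s))).symm
  have h1 := (hPM _ (pl_sb_block hq j τ _) v hv).mpr (bpm_one hq j τ hLq)
  rw [hout] at h1
  have h2 := (hPM _ (pl_sb_block hq j τ _) w hw).mp h1
  exact odd_not_bpm c hc1 (bpm_block hq j τ hLq _ h2)

end Final

end Pool.Agent.NEGS
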