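import Pool.Agent.Lib.MP_0087d5_lc.NEGS.Blocks

/-!
The choice of a block on which few of the monotone functions move.
-/

namespace Pool.Agent.NEGS

open Pool.Agent.NEG

variable {n q L : ℕ} (hq : 0 < q)

open Classical in
theorem chain_pick {ι : Type} [Fintype ι] (hL : 8 * Fintype.card ι ≤ L) (hL0 : 0 < L)
    (u : ι → (Fin n × Fin n → Bool) → Bool)
    (hu : ∀ k x y, (∀ e, x e = true → y e = true) → u k x = true → u k y = true) :
    ∃ (j : Fin L) (t : Fin L → Equiv.Perm (Fin q)),
      8 * (Finset.univ.filter (fun p : ι × Equiv.Perm (Fin q) =>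
        u p.1 (pl (sb hq j t) (xin p.2)) = false ∧
          u p.1 (pl (sb hq j t) (fun _ => true)) = true)).card ≤ q.factorial := by
  -- the jumps
  let P : ℕ → ι → (Fin L → Equiv.Perm (Fin q)) → Prop := fun j k t =>
    u k (W hq j t) = false ∧ u k (W hq (j + 1) t) = true
  let J : Fin L → ℕ := fun j => (Finset.univ.filter
    (fun p : ι × (Fin L → Equiv.Perm (Fin q)) => P j p.1 p.2)).card
  have hone : ∀ p : ι × (Fin L → Equiv.Perm (Fin q)),
      (Finset.univ.filter (fun j : Fin L => P j p.1 p.2)).card ≤ 1 := by
    intro p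
    rw [Finset.card_le_one]
    intro a ha b hb
    rw [Finset.mem_filter] at ha hb
    have key : ∀ a b : Fin L, P a p.1 p.2 → P b p.1 p.2 → ¬ (a : ℕ) < b := by
      intro a b ha hb hab
      have h1 : u p.1 (W hq b p.2) = true :=
        hu p.1 _ _ (fun e he => W_mono_le hq (show (a : ℕ) + 1 ≤ b by omega) p.2 e he) ha.2
      rw [hb.1] at h1
      exact absurd h1 (by decide)
    have h1 := key a b ha.2 hb.2
    have h2 := key b a hb.2 ha.2
    exact Fin.ext (by omega)
  have hsum : ∑ j, J j ≤ Fintype.card ι * Fintype.card (Fin L → Equiv.Perm (Fin q)) := by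
    calc ∑ j, J j = ∑ j : Fin L, ∑ p : ι × (Fin L → Equiv.Perm (Fin q)),
          (if P j p.1 p.2 then 1 else 0) := by
          refine Finset.sum_congr rfl (fun j _ => ?_)
          simp only [J, Finset.card_filter]
      _ = ∑ p : ι × (Fin L → Equiv.Perm (Fin q)), ∑ j : Fin L,
          (if P j p.1 p.2 then 1 else 0) := Finset.sum_comm
      _ ≤ ∑ _p : ι × (Fin L → Equiv.Perm (Fin q)), 1 := by
          refine Finset.sum_le_sum (fun p _ => ?_)
          have := hone p
          rw [Finset.card_filter] at this
          exact this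
      _ = Fintype.card ι * Fintype.card (Fin L → Equiv.Perm (Fin q)) := by
          rw [Finset.sum_const, Finset.card_univ, Fintype.card_prod, smul_eq_mul, mul_one]
  have hj : ∃ j, 8 * J j ≤ Fintype.card (Fin L → Equiv.Perm (Fin q)) := by
    by_contra hcon
    push Not at hcon
    have h1 : ∑ _j : Fin L, Fintype.card (Fin L → Equiv.Perm (Fin q)) < ∑ j, 8 * J j := by
      apply Finset.sum_lt_sum_of_nonempty
      · exact ⟨⟨0, hL0⟩, Finset.mem_univ _⟩
      · intro j _
        exact hcon j
    rw [Finset.sum_const, Finset.card_univ, Fintype.card_fin, smul_eq_mul,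
      ← Finset.mul_sum] at h1
    have h2 : 8 * (Fintype.card ι * Fintype.card (Fin L → Equiv.Perm (Fin q))) ≤
        L * Fintype.card (Fin L → Equiv.Perm (Fin q)) := by
      rw [← Nat.mul_assoc]
      exact Nat.mul_le_mul_right _ hL
    omega
  obtain ⟨j, hj⟩ := hj
  -- average over the free block
  let A : (Fin L → Equiv.Perm (Fin q)) → ℕ := fun t => (Finset.univ.filter
    (fun p : ι × Equiv.Perm (Fin q) => P j p.1 (Function.update t j p.2))).card
  have hinv : Function.Involutive (fun p : (Fin L → Equiv.Perm (Fin q)) × Equiv.Perm (Fin q) =>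
      (Function.update p.1 j p.2, p.1 j)) := by
    intro p
    simp
  have hA : ∑ t, A t = q.factorial * J j := by
    calc ∑ t, A t = ∑ t : Fin L → Equiv.Perm (Fin q), ∑ p : ι × Equiv.Perm (Fin q),
          (if P j p.1 (Function.update t j p.2) then 1 else 0) := by
          refine Finset.sum_congr rfl (fun t _ => ?_)
          simp only [A, Finset.card_filter]
      _ = ∑ t : Fin L → Equiv.Perm (Fin q), ∑ k : ι, ∑ s : Equiv.Perm (Fin q),
          (if P j k (Function.update t j s) then 1 else 0) := by
          refine Finset.sum_congr rfl (fun t _ => ?_)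
          rw [Fintype.sum_prod_type]
      _ = ∑ k : ι, ∑ t : Fin L → Equiv.Perm (Fin q), ∑ s : Equiv.Perm (Fin q),
          (if P j k (Function.update t j s) then 1 else 0) := Finset.sum_comm
      _ = ∑ k : ι, ∑ t : Fin L → Equiv.Perm (Fin q), ∑ _s : Equiv.Perm (Fin q),
          (if P j k t then 1 else 0) := by
          refine Finset.sum_congr rfl (fun k _ => ?_)
          rw [← Fintype.sum_prod_type' (f := fun t s =>
              if P j k (Function.update t j s) then 1 else 0),
            ← Fintype.sum_prod_type' (f := fun (t : Fin L → Equiv.Perm (Fin q))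
              (_ : Equiv.Perm (Fin q)) => if P j k t then 1 else 0)]
          exact Equiv.sum_comp hinv.toPerm (fun p : (Fin L → Equiv.Perm (Fin q)) ×
            Equiv.Perm (Fin q) => if P j k p.1 then 1 else 0)
      _ = q.factorial * J j := by
          simp only [J, Finset.card_filter, Finset.sum_const, Finset.card_univ,
            Fintype.card_perm, Fintype.card_fin, smul_eq_mul]
          rw [Fintype.sum_prod_type, Finset.mul_sum]
          refine Finset.sum_congr rfl (fun k _ => ?_)
          rw [Finset.mul_sum]
  have ht : ∃ t, 8 * A t ≤ q.factorial := by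
    by_contra hcon
    push Not at hcon
    have h1 : ∑ _t : Fin L → Equiv.Perm (Fin q), q.factorial < ∑ t, 8 * A t := by
      apply Finset.sum_lt_sum_of_nonempty
      · exact Finset.univ_nonempty
      · intro t _
        exact hcon t
    rw [Finset.sum_const, Finset.card_univ, smul_eq_mul, ← Finset.mul_sum, hA] at h1
    have h2 : 8 * (q.factorial * J j) ≤
        q.factorial * Fintype.card (Fin L → Equiv.Perm (Fin q)) := by
      calc 8 * (q.factorial * J j) = q.factorial * (8 * J j) := by ring
        _ ≤ q.factorial * Fintype.card (Fin L → Equiv.Perm (Fin q)) :=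
          Nat.mul_le_mul_left _ hj
    rw [Nat.mul_comm (Fintype.card _)] at h1
    omega
  obtain ⟨t, ht⟩ := ht
  refine ⟨j, t, ?_⟩
  have heq : (Finset.univ.filter (fun p : ι × Equiv.Perm (Fin q) =>
        u p.1 (pl (sb hq j t) (xin p.2)) = false ∧
          u p.1 (pl (sb hq j t) (fun _ => true)) = true)) =
      (Finset.univ.filter
    (fun p : ι × Equiv.Perm (Fin q) => P j p.1 (Function.update t j p.2))) := by
    apply Finset.filter_congr
    intro p _
    simp only [P]
    rw [pl_sb_perm, pl_sb_one, W_update]
  rw [heq]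
  exact ht

end Pool.Agent.NEGS
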