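import Mathlib

/-!
# Exact halving, and the second moment bound for monochromatic matchings

`mono c R`: the edges of `R` are monochromatic for the 2-colouring `c` of the vertices.
-/

set_option autoImplicit false

namespace Pool.Agent.NEGS.RS

open Finset

/-- One endpoint is recoloured. -/
theorem half_eq {W : Type} [DecidableEq W] (B : Finset (W → Bool)) (w w' : W)
    (hB : ∀ c ∈ B, ∀ b, Function.update c w b ∈ B) (hw : w ≠ w') :
    2 * (B.filter fun c => c w = c w').card = B.card := by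
  classical
  have h1 : (B.filter fun c => ¬ c w = c w').card = (B.filter fun c => c w = c w').card := by
    refine card_nbij' (fun c => Function.update c w (!(c w))) (fun c => Function.update c w (!(c w))) ?_ ?_ ?_ ?_
    · intro c hc
      rw [coe_filter, Set.mem_ofPred_eq] at hc ⊢
      refine ⟨hB c hc.1 _, ?_⟩
      have h5 := hc.2
      beta_reduce
      rw [Function.update_self, Function.update_of_ne hw.symm]
      cases h : c w <;> cases h' : c w' <;> simp_all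
    · intro c hc
      rw [coe_filter, Set.mem_ofPred_eq] at hc ⊢
      refine ⟨hB c hc.1 _, ?_⟩
      have h5 := hc.2
      beta_reduce
      rw [Function.update_self, Function.update_of_ne hw.symm]
      cases h : c w <;> cases h' : c w' <;> simp_all
    · intro c _
      simp
    · intro c _
      simp
  have h2 := card_filter_add_card_filter_not (s := B) fun c => c w = c w'
  omega

/-- The endpoints `l i` are recoloured, one for each edge. -/
theorem mono_eq {W ι : Type} [DecidableEq W] [DecidableEq ι] (l o : ι → W) (E : Finset ι) :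
    ∀ B : Finset (W → Bool), (∀ c ∈ B, ∀ i ∈ E, ∀ b, Function.update c (l i) b ∈ B) → (∀ i ∈ E, l i ≠ o i) →
      (∀ i ∈ E, ∀ j ∈ E, i ≠ j → l i ≠ l j ∧ l i ≠ o j) →
      ∃ F ⊆ B, (∀ c ∈ B, (c ∈ F ↔ ∀ i ∈ E, c (l i) = c (o i))) ∧ 2 ^ E.card * F.card = B.card := by
  classical
  induction E using Finset.induction_on with
  | empty =>
    intro B _ _ _
    exact ⟨B, Subset.rfl, fun c hc => ⟨fun _ i hi => absurd hi (notMem_empty i), fun _ => hc⟩, by simp⟩
  | insert i E hi ih =>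
    intro B hB hlo hl
    have h1 := half_eq B (l i) (o i) (fun c hc b => hB c hc i (mem_insert_self i E) b) (hlo i (mem_insert_self i E))
    obtain ⟨F, hF, hF1, hF2⟩ := ih (B.filter fun c => c (l i) = c (o i)) (by
      intro c hc j hj b
      rw [mem_filter] at hc ⊢
      have hne : j ≠ i := fun h => hi (h ▸ hj)
      obtain ⟨h4, h5⟩ := hl j (mem_insert_of_mem hj) i (mem_insert_self i E) hne
      refine ⟨hB c hc.1 j (mem_insert_of_mem hj) b, ?_⟩
      rw [Function.update_of_ne h4.symm, Function.update_of_ne h5.symm]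
      exact hc.2) (fun j hj => hlo j (mem_insert_of_mem hj))
      (fun j hj k hk => hl j (mem_insert_of_mem hj) k (mem_insert_of_mem hk))
    refine ⟨F, hF.trans (filter_subset _ _), ?_, ?_⟩
    · intro c hc
      rw [Finset.forall_mem_insert]
      constructor
      · intro h
        have h2 := mem_filter.1 (hF h)
        exact ⟨h2.2, (hF1 c (hF h)).1 h⟩
      · intro h
        exact (hF1 c (mem_filter.2 ⟨hc, h.1⟩)).2 h.2
    · rw [card_insert_of_notMem hi, pow_succ]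
      calc 2 ^ E.card * 2 * F.card = 2 * (2 ^ E.card * F.card) := by ring
        _ = B.card := by rw [hF2, h1]

variable {q : ℕ}

/-- The pairs of `R` form a matching. -/
def Mat (R : Finset (Fin q × Fin q)) : Prop :=
  ∀ e ∈ R, ∀ f ∈ R, e ≠ f → e.1 ≠ f.1 ∧ e.2 ≠ f.2

/-- The vertices of `R`. -/
def vs (R : Finset (Fin q × Fin q)) : Finset (Fin q ⊕ Fin q) :=
  R.image (fun e => Sum.inl e.1) ∪ R.image (fun e => Sum.inr e.2)

/-- The edges of `R` are monochromatic. -/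
def mono (c : Fin q ⊕ Fin q → Bool) (R : Finset (Fin q × Fin q)) : Prop :=
  ∀ e ∈ R, c (.inl e.1) = c (.inr e.2)

theorem mem_vs {R : Finset (Fin q × Fin q)} {w : Fin q ⊕ Fin q} :
    w ∈ vs R ↔ ∃ e ∈ R, w = .inl e.1 ∨ w = .inr e.2 := by
  unfold vs
  rw [mem_union, mem_image, mem_image]
  constructor
  · rintro (⟨e, he, h⟩ | ⟨e, he, h⟩)
    · exact ⟨e, he, Or.inl h.symm⟩
    · exact ⟨e, he, Or.inr h.symm⟩
  · rintro ⟨e, he, h | h⟩
    · exact Or.inl ⟨e, he, h.symm⟩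
    · exact Or.inr ⟨e, he, h.symm⟩

theorem Mat.mono {R S : Finset (Fin q × Fin q)} (h : Mat R) (hS : S ⊆ R) : Mat S :=
  fun e he f hf => h e (hS he) f (hS hf)

theorem card_vs {R : Finset (Fin q × Fin q)} (h : Mat R) : (vs R).card = 2 * R.card := by
  unfold vs
  rw [card_union_of_disjoint, card_image_of_injOn, card_image_of_injOn]
  · ring
  · intro e he f hf hef
    by_contra hne
    exact (h e he f hf hne).2 (Sum.inr.inj hef)
  · intro e he f hf hef
    by_contra hne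
    exact (h e he f hf hne).1 (Sum.inl.inj hef)
  · rw [Finset.disjoint_left]
    intro w hw hw'
    obtain ⟨e, _, rfl⟩ := mem_image.1 hw
    obtain ⟨f, _, hf⟩ := mem_image.1 hw'
    exact Sum.inr_ne_inl hf

/-- A vertex outside of `W` on the edge `e`, if there is one. -/
noncomputable def lv (W : Finset (Fin q ⊕ Fin q)) (e : Fin q × Fin q) : Fin q ⊕ Fin q :=
  if (.inl e.1 : Fin q ⊕ Fin q) ∉ W then .inl e.1 else .inr e.2

/-- The other vertex. -/
noncomputable def ov (W : Finset (Fin q ⊕ Fin q)) (e : Fin q × Fin q) : Fin q ⊕ Fin q :=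
  if (.inl e.1 : Fin q ⊕ Fin q) ∉ W then .inr e.2 else .inl e.1

/-- No edge of `R` has both ends in `W`. -/
def Fre (W : Finset (Fin q ⊕ Fin q)) (R : Finset (Fin q × Fin q)) : Prop :=
  ∀ e ∈ R, ¬ ((.inl e.1 : Fin q ⊕ Fin q) ∈ W ∧ (.inr e.2 : Fin q ⊕ Fin q) ∈ W)

theorem lv_mem {W : Finset (Fin q ⊕ Fin q)} {R : Finset (Fin q × Fin q)} (h : Fre W R) {e : Fin q × Fin q}
    (he : e ∈ R) : lv W e ∈ vs R \ W := by
  rw [mem_sdiff, mem_vs]
  unfold lv
  by_cases h1 : (.inl e.1 : Fin q ⊕ Fin q) ∈ W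
  · rw [if_neg (by simpa using h1)]
    exact ⟨⟨e, he, Or.inr rfl⟩, fun h2 => h e he ⟨h1, h2⟩⟩
  · rw [if_pos h1]
    exact ⟨⟨e, he, Or.inl rfl⟩, h1⟩

theorem lv_ne_ov (W : Finset (Fin q ⊕ Fin q)) (e : Fin q × Fin q) : lv W e ≠ ov W e := by
  unfold lv ov
  split_ifs
  · exact Sum.inr_ne_inl
  · exact Sum.inl_ne_inr

theorem lv_ne {W : Finset (Fin q ⊕ Fin q)} {R : Finset (Fin q × Fin q)} (h : Mat R) {e f : Fin q × Fin q}
    (he : e ∈ R) (hf : f ∈ R) (hef : e ≠ f) : lv W e ≠ lv W f ∧ lv W e ≠ ov W f := by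
  obtain ⟨h6, h7⟩ := h e he f hf hef
  have h6' : (.inl e.1 : Fin q ⊕ Fin q) ≠ .inl f.1 := fun h => h6 (Sum.inl.inj h)
  have h7' : (.inr e.2 : Fin q ⊕ Fin q) ≠ .inr f.2 := fun h => h7 (Sum.inr.inj h)
  unfold lv ov
  split_ifs
  · exact ⟨h7', Sum.inr_ne_inl⟩
  · exact ⟨Sum.inr_ne_inl, h7'⟩
  · exact ⟨Sum.inl_ne_inr, h6'⟩
  · exact ⟨h6', Sum.inl_ne_inr⟩

theorem lv_eq_iff (W : Finset (Fin q ⊕ Fin q)) (c : Fin q ⊕ Fin q → Bool) (e : Fin q × Fin q) :
    c (lv W e) = c (ov W e) ↔ c (.inl e.1) = c (.inr e.2) := by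
  unfold lv ov
  split_ifs
  · exact eq_comm
  · exact Iff.rfl

/-- Monochromaticity of a set of edges of a matching, each with a free endpoint, halves exactly. -/
theorem mono_half {W : Finset (Fin q ⊕ Fin q)} {R : Finset (Fin q × Fin q)} (hM : Mat R)
    (B : Finset (Fin q ⊕ Fin q → Bool)) (hB : ∀ c ∈ B, ∀ e ∈ R, ∀ b, Function.update c (lv W e) b ∈ B) :
    ∃ F ⊆ B, (∀ c ∈ B, (c ∈ F ↔ mono c R)) ∧ 2 ^ R.card * F.card = B.card := by
  obtain ⟨F, hF, h1, h2⟩ := mono_eq (lv W) (ov W) R B hB (fun e _ => lv_ne_ov W e) fun e he f hf hef => lv_ne hM he hf hef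
  refine ⟨F, hF, fun c hc => ?_, h2⟩
  rw [h1 c hc]
  exact forall₂_congr fun e _ => lv_eq_iff W c e

/-- Recolouring a vertex outside of `R` does not matter. -/
theorem mono_update {R : Finset (Fin q × Fin q)} {w : Fin q ⊕ Fin q} (hw : w ∉ vs R) (c : Fin q ⊕ Fin q → Bool)
    (b : Bool) : mono (Function.update c w b) R ↔ mono c R := by
  refine forall₂_congr fun e he => ?_
  have h1 : (.inl e.1 : Fin q ⊕ Fin q) ≠ w := fun h => hw (mem_vs.2 ⟨e, he, Or.inl h.symm⟩)
  have h2 : (.inr e.2 : Fin q ⊕ Fin q) ≠ w := fun h => hw (mem_vs.2 ⟨e, he, Or.inr h.symm⟩)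
  rw [Function.update_of_ne h1, Function.update_of_ne h2]

open Classical in
theorem card_mono {W : Finset (Fin q ⊕ Fin q)} {R : Finset (Fin q × Fin q)} (hM : Mat R) (hR : Fre W R)
    (B : Finset (Fin q ⊕ Fin q → Bool)) (hB : ∀ c ∈ B, ∀ w ∈ vs R \ W, ∀ b, Function.update c w b ∈ B) :
    2 ^ R.card * (B.filter fun c => mono c R).card = B.card := by
  obtain ⟨F, hF, h1, h2⟩ := mono_half (W := W) hM B fun c hc e he b => hB c hc _ (lv_mem hR he) b
  have h3 : (B.filter fun c => mono c R) = F := by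
    ext c
    rw [mem_filter]
    exact ⟨fun h => (h1 c h.1).2 h.2, fun h => ⟨hF h, (h1 c (hF h)).1 h⟩⟩
  rw [h3, h2]

open Classical in
theorem card_mono_pair {W : Finset (Fin q ⊕ Fin q)} {R S : Finset (Fin q × Fin q)} (hM : Mat R) (hM' : Mat S)
    (hR : Fre W R) (hS : Fre W S) (B : Finset (Fin q ⊕ Fin q → Bool))
    (hB : ∀ c ∈ B, ∀ w ∈ (vs R ∪ vs S) \ W, ∀ b, Function.update c w b ∈ B) :
    2 ^ R.card * 2 ^ S.card * (B.filter fun c => mono c R ∧ mono c S).card ≤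
      2 ^ ((vs R \ W) ∩ (vs S \ W)).card * B.card := by
  set B1 : Finset (Fin q ⊕ Fin q → Bool) := B.filter fun c => mono c R with hB1
  have h1 : 2 ^ R.card * B1.card = B.card := card_mono hM hR B fun c hc w hw b =>
    hB c hc w (mem_sdiff.2 ⟨mem_union_left _ (mem_sdiff.1 hw).1, (mem_sdiff.1 hw).2⟩) b
  set E : Finset (Fin q × Fin q) := S.filter fun f => lv W f ∉ vs R with hE
  have hES : E ⊆ S := filter_subset _ _
  obtain ⟨F, hF, h2, h3⟩ := mono_half (W := W) (hM'.mono hES) B1 (by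
    intro c hc e he b
    rw [hB1, mem_filter] at hc ⊢
    obtain ⟨he1, he2⟩ := mem_filter.1 he
    refine ⟨hB c hc.1 _ ?_ b, (mono_update he2 c b).2 hc.2⟩
    have h4 := mem_sdiff.1 (lv_mem hS he1)
    exact mem_sdiff.2 ⟨mem_union_right _ h4.1, h4.2⟩)
  have h4 : (B.filter fun c => mono c R ∧ mono c S).card ≤ F.card := by
    refine card_le_card fun c hc => ?_
    obtain ⟨hc1, hc2, hc3⟩ := mem_filter.1 hc
    exact (h2 c (mem_filter.2 ⟨hc1, hc2⟩)).2 fun e he => hc3 e (hES he)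
  have h5 : (S.filter fun f => ¬ lv W f ∉ vs R).card ≤ ((vs R \ W) ∩ (vs S \ W)).card := by
    refine card_le_card_of_injOn (lv W) ?_ ?_
    · intro f hf
      obtain ⟨hf1, hf2⟩ := mem_filter.1 hf
      rw [not_not] at hf2
      have h6 := lv_mem hS hf1
      exact mem_inter.2 ⟨mem_sdiff.2 ⟨hf2, (mem_sdiff.1 h6).2⟩, h6⟩
    · intro e he f hf hef
      by_contra hne
      exact (lv_ne hM' (filter_subset _ _ he) (filter_subset _ _ hf) hne).1 hef
  have h6 := card_filter_add_card_filter_not (s := S) fun f => lv W f ∉ vs R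
  rw [← hE] at h6
  calc 2 ^ R.card * 2 ^ S.card * (B.filter fun c => mono c R ∧ mono c S).card
      ≤ 2 ^ R.card * 2 ^ S.card * F.card := Nat.mul_le_mul_left _ h4
    _ = 2 ^ R.card * (2 ^ (S.filter fun f => ¬ lv W f ∉ vs R).card * (2 ^ E.card * F.card)) := by
      rw [← h6, pow_add]
      ring
    _ = 2 ^ (S.filter fun f => ¬ lv W f ∉ vs R).card * (2 ^ R.card * B1.card) := by
      rw [h3]
      ring
    _ ≤ 2 ^ ((vs R \ W) ∩ (vs S \ W)).card * (2 ^ R.card * B1.card) :=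
      Nat.mul_le_mul_right _ (Nat.pow_le_pow_right (by norm_num) h5)
    _ = _ := by rw [h1]

open Classical in
/-- Second moment: many colourings in `B` make some member of `G` monochromatic. -/
theorem second_moment {W : Finset (Fin q ⊕ Fin q)} {h : ℕ} (G : Finset (Finset (Fin q × Fin q)))
    (hM : ∀ R ∈ G, Mat R) (hR : ∀ R ∈ G, Fre W R) (hc : ∀ R ∈ G, R.card = h)
    (B : Finset (Fin q ⊕ Fin q → Bool)) (hB : ∀ c ∈ B, ∀ R ∈ G, ∀ w ∈ vs R \ W, ∀ b, Function.update c w b ∈ B) :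
    (G.card : ℝ) ^ 2 * B.card ≤ (∑ R ∈ G, ∑ S ∈ G, (2 : ℝ) ^ ((vs R \ W) ∩ (vs S \ W)).card) *
      (B.filter fun c => ∃ R ∈ G, mono c R).card := by
  rcases Nat.eq_zero_or_pos B.card with h0 | h0
  · rw [h0]
    simp only [Nat.cast_zero, mul_zero]
    positivity
  have hB0 : (0 : ℝ) < B.card := Nat.cast_pos.2 h0
  set X : (Fin q ⊕ Fin q → Bool) → ℝ := fun c => ((G.filter fun R => mono c R).card : ℝ) with hX
  have hXs : ∀ c, X c = ∑ R ∈ G, if mono c R then 1 else 0 := fun c => by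
    rw [hX, sum_boole]
  have h1 : ∑ c ∈ B, X c = G.card * (B.card / 2 ^ h) := by
    simp_rw [hXs]
    rw [sum_comm]
    have h2 : ∀ R ∈ G, ∑ c ∈ B, (if mono c R then (1 : ℝ) else 0) = B.card / 2 ^ h := by
      intro R hRG
      rw [sum_boole, eq_div_iff (by positivity)]
      have h3 := card_mono (hM R hRG) (hR R hRG) B fun c hc' w hw b => hB c hc' R hRG w hw b
      rw [hc R hRG] at h3
      have h4 : ((2 ^ h * (B.filter fun c => mono c R).card : ℕ) : ℝ) = B.card := by rw [h3]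
      push_cast at h4
      linarith
    rw [sum_congr rfl h2, sum_const, nsmul_eq_mul]
  have h2 : ∑ c ∈ B, X c ^ 2 ≤ (∑ R ∈ G, ∑ S ∈ G, (2 : ℝ) ^ ((vs R \ W) ∩ (vs S \ W)).card) *
      (B.card / (2 ^ h * 2 ^ h)) := by
    have h3 : ∀ c, X c ^ 2 = ∑ R ∈ G, ∑ S ∈ G, if mono c R ∧ mono c S then 1 else 0 := by
      intro c
      rw [sq, hXs, sum_mul_sum]
      refine sum_congr rfl fun R _ => sum_congr rfl fun S _ => ?_
      by_cases ha : mono c R <;> by_cases hb : mono c S <;> simp [ha, hb]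
    simp_rw [h3]
    rw [sum_comm, sum_mul]
    refine sum_le_sum fun R hRG => ?_
    rw [sum_comm, sum_mul]
    refine sum_le_sum fun S hSG => ?_
    rw [sum_boole, ← mul_div_assoc, le_div_iff₀ (by positivity)]
    have h4 := card_mono_pair (hM R hRG) (hM S hSG) (hR R hRG) (hR S hSG) B (by
      intro c hc' w hw b
      obtain ⟨hw1, hw2⟩ := mem_sdiff.1 hw
      rcases mem_union.1 hw1 with h5 | h5
      · exact hB c hc' R hRG w (mem_sdiff.2 ⟨h5, hw2⟩) b
      · exact hB c hc' S hSG w (mem_sdiff.2 ⟨h5, hw2⟩) b)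
    rw [hc R hRG, hc S hSG] at h4
    have h5 : ((2 ^ h * 2 ^ h * (B.filter fun c => mono c R ∧ mono c S).card : ℕ) : ℝ) ≤
        ((2 ^ ((vs R \ W) ∩ (vs S \ W)).card * B.card : ℕ) : ℝ) := by exact_mod_cast h4
    push_cast at h5
    linarith
  set B' : Finset (Fin q ⊕ Fin q → Bool) := B.filter fun c => ∃ R ∈ G, mono c R with hB'
  have hXz : ∀ c ∈ B, c ∉ B' → X c = 0 := by
    intro c hcB hcB'
    rw [hX]
    simp only [Nat.cast_eq_zero, card_eq_zero]
    rw [filter_eq_empty_iff]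
    intro R hRG hm
    exact hcB' (mem_filter.2 ⟨hcB, R, hRG, hm⟩)
  have h3 : ∑ c ∈ B, X c = ∑ c ∈ B', X c :=
    (sum_subset (filter_subset _ _) fun c hc1 hc2 => hXz c hc1 hc2).symm
  have h4 : (∑ c ∈ B', X c) ^ 2 ≤ B'.card * ∑ c ∈ B', X c ^ 2 := sq_sum_le_card_mul_sum_sq
  have h5 : ∑ c ∈ B', X c ^ 2 ≤ ∑ c ∈ B, X c ^ 2 :=
    sum_le_sum_of_subset_of_nonneg (filter_subset _ _) fun c _ _ => sq_nonneg _
  set Q := ∑ R ∈ G, ∑ S ∈ G, (2 : ℝ) ^ ((vs R \ W) ∩ (vs S \ W)).card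
  have h6 : (G.card * (B.card / 2 ^ h) : ℝ) ^ 2 ≤ B'.card * (Q * (B.card / (2 ^ h * 2 ^ h))) := by
    rw [← h1, h3]
    refine h4.trans (mul_le_mul_of_nonneg_left (h5.trans h2) (Nat.cast_nonneg _))
  have hp : (0 : ℝ) < 2 ^ h := by positivity
  have h7 : (G.card * (B.card / 2 ^ h) : ℝ) ^ 2 = ((G.card : ℝ) ^ 2 * B.card) * (B.card / (2 ^ h * 2 ^ h)) := by
    field_simp
  have h8 : (B'.card : ℝ) * (Q * (B.card / (2 ^ h * 2 ^ h))) = (Q * B'.card) * (B.card / (2 ^ h * 2 ^ h)) := by ring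
  rw [h7, h8] at h6
  exact le_of_mul_le_mul_right h6 (by positivity)

end Pool.Agent.NEGS.RS
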