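import Pool.Agent.Lib.MP_0087d5_lc.NEGS.RSa

/-!
# A spread family of matchings is hit by almost every colouring

The parts of a random partition of the vertices are treated one after the other.
-/

set_option autoImplicit false

namespace Pool.Agent.NEGS.RS

open Finset

open Classical in
/-- The number of maps which are constant on `T` with a given value. -/
theorem card_const {V : Type} [Fintype V] [DecidableEq V] {m : ℕ} (T : Finset V) (j : Fin m) :
    (univ.filter fun p : V → Fin m => ∀ w ∈ T, p w = j).card * m ^ T.card = m ^ Fintype.card V := by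
  have h1 : (univ.filter fun p : V → Fin m => ∀ w ∈ T, p w = j) =
      Fintype.piFinset fun w => if w ∈ T then {j} else univ := by
    ext p
    rw [mem_filter, Fintype.mem_piFinset]
    constructor
    · intro h w
      split_ifs with hw
      · exact mem_singleton.2 (h.2 w hw)
      · exact mem_univ _
    · intro h
      refine ⟨mem_univ _, fun w hw => ?_⟩
      have h2 := h w
      rw [if_pos hw] at h2
      exact mem_singleton.1 h2
  rw [h1, Fintype.card_piFinset]
  have h2 : ∀ w : V, (if w ∈ T then ({j} : Finset (Fin m)) else univ).card = if w ∈ T then 1 else m := by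
    intro w
    split_ifs
    · exact card_singleton j
    · rw [card_univ, Fintype.card_fin]
  simp_rw [h2]
  rw [prod_ite, prod_const_one, one_mul, prod_const, ← pow_add]
  have h3 : (univ.filter fun w : V => w ∉ T).card + T.card = Fintype.card V := by
    have h4 := card_filter_add_card_filter_not (s := (univ : Finset V)) fun w => w ∈ T
    have h5 : (univ.filter fun w : V => w ∈ T) = T := by
      ext w
      simp
    rw [h5, card_univ] at h4
    omega
  rw [h3]

variable {q : ℕ}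

open Classical in
/-- The members of `H` inside the part `j`. -/
noncomputable def part {m : ℕ} (W : Finset (Fin q ⊕ Fin q)) (H : Finset (Finset (Fin q × Fin q)))
    (p : Fin q ⊕ Fin q → Fin m) (j : Fin m) : Finset (Finset (Fin q × Fin q)) :=
  H.filter fun R => ∀ w ∈ vs R \ W, p w = j

/-- The second moment of the part `j`. -/
noncomputable def Q2 {m : ℕ} (W : Finset (Fin q ⊕ Fin q)) (H : Finset (Finset (Fin q × Fin q)))
    (p : Fin q ⊕ Fin q → Fin m) (j : Fin m) : ℝ :=
  ∑ R ∈ part W H p j, ∑ S ∈ part W H p j, (2 : ℝ) ^ ((vs R \ W) ∩ (vs S \ W)).card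

/-- The share of the part `j`. -/
noncomputable def th {m : ℕ} (W : Finset (Fin q ⊕ Fin q)) (H : Finset (Finset (Fin q × Fin q)))
    (p : Fin q ⊕ Fin q → Fin m) (j : Fin m) : ℝ :=
  ((part W H p j).card : ℝ) ^ 2 / Q2 W H p j

theorem Q2_nonneg {m : ℕ} (W : Finset (Fin q ⊕ Fin q)) (H : Finset (Finset (Fin q × Fin q)))
    (p : Fin q ⊕ Fin q → Fin m) (j : Fin m) : 0 ≤ Q2 W H p j :=
  sum_nonneg fun _ _ => sum_nonneg fun _ _ => by positivity

theorem Q2_ge {m : ℕ} (W : Finset (Fin q ⊕ Fin q)) (H : Finset (Finset (Fin q × Fin q)))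
    (p : Fin q ⊕ Fin q → Fin m) (j : Fin m) : ((part W H p j).card : ℝ) ^ 2 ≤ Q2 W H p j := by
  unfold Q2
  calc ((part W H p j).card : ℝ) ^ 2 = ∑ R ∈ part W H p j, ∑ S ∈ part W H p j, (1 : ℝ) := by
        simp only [sum_const, nsmul_eq_mul, mul_one]
        ring
    _ ≤ _ := sum_le_sum fun R _ => sum_le_sum fun S _ => one_le_pow₀ (by norm_num)

theorem th_mul {m : ℕ} (W : Finset (Fin q ⊕ Fin q)) (H : Finset (Finset (Fin q × Fin q)))
    (p : Fin q ⊕ Fin q → Fin m) (j : Fin m) : th W H p j * Q2 W H p j = ((part W H p j).card : ℝ) ^ 2 := by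
  unfold th
  rcases eq_or_ne (Q2 W H p j) 0 with h | h
  · have h1 := Q2_ge W H p j
    rw [h] at h1 ⊢
    have h2 : ((part W H p j).card : ℝ) ^ 2 = 0 := le_antisymm h1 (sq_nonneg _)
    rw [h2, mul_zero]
  · exact div_mul_cancel₀ _ h

open Classical in
/-- The parts are treated one after the other. -/
theorem iterate {W : Finset (Fin q ⊕ Fin q)} {h m : ℕ} (H : Finset (Finset (Fin q × Fin q)))
    (hM : ∀ R ∈ H, Mat R) (hR : ∀ R ∈ H, Fre W R) (hc : ∀ R ∈ H, R.card = h) (p : Fin q ⊕ Fin q → Fin m)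
    (J : Finset (Fin m)) :
    ((univ.filter fun c : Fin q ⊕ Fin q → Bool =>
        ∀ j ∈ J, ∀ R ∈ part W H p j, ¬ mono c R).card : ℝ) ≤
      2 ^ (2 * q) * Real.exp (- ∑ j ∈ J, th W H p j) := by
  induction J using Finset.induction_on with
  | empty =>
    rw [sum_empty, neg_zero, Real.exp_zero, mul_one]
    have h1 : (univ.filter fun c : Fin q ⊕ Fin q → Bool =>
        ∀ j ∈ (∅ : Finset (Fin m)), ∀ R ∈ part W H p j, ¬ mono c R).card ≤ 2 ^ (2 * q) := by
      refine (card_le_univ _).trans (le_of_eq ?_)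
      rw [Fintype.card_fun, Fintype.card_bool, Fintype.card_sum, Fintype.card_fin, two_mul]
    exact_mod_cast h1
  | insert j J hj ih =>
    set B : Finset (Fin q ⊕ Fin q → Bool) := univ.filter fun c : Fin q ⊕ Fin q → Bool =>
        ∀ j ∈ J, ∀ R ∈ part W H p j, ¬ mono c R with hB
    have h1 := second_moment (W := W) (h := h) (part W H p j) (fun R hR' => hM R (mem_filter.1 hR').1)
      (fun R hR' => hR R (mem_filter.1 hR').1) (fun R hR' => hc R (mem_filter.1 hR').1) B (by
        intro c hcB R hRp w hw b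
        rw [hB, mem_filter] at hcB ⊢
        refine ⟨mem_univ _, fun j' hj' S hS => ?_⟩
        have h2 : w ∉ vs S := by
          intro h3
          have h4 := (mem_filter.1 hS).2 w (mem_sdiff.2 ⟨h3, (mem_sdiff.1 hw).2⟩)
          have h5 := (mem_filter.1 hRp).2 w hw
          rw [h4] at h5
          exact hj (h5 ▸ hj')
        rw [mono_update h2]
        exact hcB.2 j' hj' S hS)
    change ((part W H p j).card : ℝ) ^ 2 * B.card ≤ Q2 W H p j * _ at h1
    have h2 := card_filter_add_card_filter_not (s := B) fun c => ∃ R ∈ part W H p j, mono c R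
    have h3 : (univ.filter fun c : Fin q ⊕ Fin q → Bool =>
        ∀ j' ∈ insert j J, ∀ R ∈ part W H p j', ¬ mono c R) =
        B.filter fun c => ¬ ∃ R ∈ part W H p j, mono c R := by
      ext c
      rw [hB, mem_filter, mem_filter, mem_filter, Finset.forall_mem_insert]
      constructor
      · rintro ⟨_, h4, h5⟩
        exact ⟨⟨mem_univ _, h5⟩, fun ⟨R, hR1, hR2⟩ => h4 R hR1 hR2⟩
      · rintro ⟨⟨_, h4⟩, h5⟩
        exact ⟨mem_univ _, fun R hR1 hR2 => h5 ⟨R, hR1, hR2⟩, h4⟩
    rw [h3]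
    have h4 : ((B.filter fun c => ¬ ∃ R ∈ part W H p j, mono c R).card : ℝ) =
        B.card - (B.filter fun c => ∃ R ∈ part W H p j, mono c R).card := by
      rw [← h2]
      push_cast
      ring
    have h5 : th W H p j * B.card ≤ (B.filter fun c => ∃ R ∈ part W H p j, mono c R).card := by
      rcases eq_or_lt_of_le (Q2_nonneg W H p j) with h6 | h6
      · unfold th
        rw [← h6, div_zero, zero_mul]
        exact Nat.cast_nonneg _
      · unfold th
        rw [div_mul_eq_mul_div, div_le_iff₀ h6, mul_comm _ (Q2 W H p j)]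
        exact h1
    have h6 : 1 - th W H p j ≤ Real.exp (- th W H p j) := Real.one_sub_le_exp_neg _
    rw [h4, sum_insert hj, neg_add, Real.exp_add]
    calc (B.card : ℝ) - (B.filter fun c => ∃ R ∈ part W H p j, mono c R).card
        ≤ (1 - th W H p j) * B.card := by linarith
      _ ≤ Real.exp (- th W H p j) * B.card := mul_le_mul_of_nonneg_right h6 (Nat.cast_nonneg _)
      _ ≤ Real.exp (- th W H p j) * (2 ^ (2 * q) * Real.exp (- ∑ j ∈ J, th W H p j)) :=
        mul_le_mul_of_nonneg_left ih (Real.exp_pos _).le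
      _ = _ := by ring

open Classical in
/-- Averaging over the partitions. -/
theorem exists_part {W : Finset (Fin q ⊕ Fin q)} {a m : ℕ} (hm : 1 ≤ m) (H : Finset (Finset (Fin q × Fin q)))
    (hH : H.Nonempty) (ha : ∀ R ∈ H, (vs R \ W).card = a)
    (hQ : ∑ R ∈ H, ∑ S ∈ H, (2 * m : ℝ) ^ ((vs R \ W) ∩ (vs S \ W)).card ≤ 6 * (H.card : ℝ) ^ 2) :
    ∃ p : Fin q ⊕ Fin q → Fin m, (m : ℝ) / 6 ≤ ∑ j, th W H p j := by
  have hm0 : (0 : ℝ) < m := Nat.cast_pos.2 hm
  have hH0 : (0 : ℝ) < H.card := Nat.cast_pos.2 (card_pos.2 hH)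
  set M : ℝ := (m : ℝ) ^ Fintype.card (Fin q ⊕ Fin q) with hMd
  have hM0 : 0 < M := by positivity
  have hcnt : ∀ (T : Finset (Fin q ⊕ Fin q)) (j : Fin m),
      ((univ.filter fun p : Fin q ⊕ Fin q → Fin m => ∀ w ∈ T, p w = j).card : ℝ) = M / (m : ℝ) ^ T.card := by
    intro T j
    rw [eq_div_iff (by positivity)]
    have h1 := card_const T j
    rw [hMd]
    exact_mod_cast h1
  have h1 : ∑ x : (Fin q ⊕ Fin q → Fin m) × Fin m, ((part W H x.1 x.2).card : ℝ) =
      H.card * (m * (M / (m : ℝ) ^ a)) := by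
    have h2 : ∀ x : (Fin q ⊕ Fin q → Fin m) × Fin m, ((part W H x.1 x.2).card : ℝ) =
        ∑ R ∈ H, if (∀ w ∈ vs R \ W, x.1 w = x.2) then (1 : ℝ) else 0 := fun x => by
      rw [sum_boole]
      rfl
    simp_rw [h2]
    rw [sum_comm]
    have h3 : ∀ R ∈ H, ∑ x : (Fin q ⊕ Fin q → Fin m) × Fin m, (if (∀ w ∈ vs R \ W, x.1 w = x.2) then (1 : ℝ) else 0) =
        m * (M / (m : ℝ) ^ a) := by
      intro R hR
      rw [Fintype.sum_prod_type_right]
      have h4 : ∀ j : Fin m, ∑ p : Fin q ⊕ Fin q → Fin m, (if (∀ w ∈ vs R \ W, p w = j) then (1 : ℝ) else 0) =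
          M / (m : ℝ) ^ a := fun j => by
        rw [sum_boole, hcnt, ha R hR]
      simp only [h4, sum_const, card_univ, Fintype.card_fin, nsmul_eq_mul]
    rw [sum_congr rfl h3, sum_const, nsmul_eq_mul]
  have h2 : ∑ x : (Fin q ⊕ Fin q → Fin m) × Fin m, Q2 W H x.1 x.2 ≤
      m * (M / (m : ℝ) ^ (2 * a)) * (6 * (H.card : ℝ) ^ 2) := by
    have h3 : ∀ x : (Fin q ⊕ Fin q → Fin m) × Fin m, Q2 W H x.1 x.2 =
        ∑ R ∈ H, ∑ S ∈ H, if (∀ w ∈ (vs R \ W) ∪ (vs S \ W), x.1 w = x.2) then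
          (2 : ℝ) ^ ((vs R \ W) ∩ (vs S \ W)).card else 0 := by
      intro x
      unfold Q2 part
      rw [sum_filter]
      refine sum_congr rfl fun R _ => ?_
      by_cases h4 : ∀ w ∈ vs R \ W, x.1 w = x.2
      · rw [if_pos h4, sum_filter]
        refine sum_congr rfl fun S _ => ?_
        by_cases h5 : ∀ w ∈ vs S \ W, x.1 w = x.2
        · rw [if_pos h5, if_pos]
          intro w hw
          rcases mem_union.1 hw with h6 | h6
          · exact h4 w h6
          · exact h5 w h6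
        · rw [if_neg h5, if_neg]
          exact fun h6 => h5 fun w hw => h6 w (mem_union_right _ hw)
      · rw [if_neg h4]
        symm
        refine sum_eq_zero fun S _ => ?_
        rw [if_neg]
        exact fun h6 => h4 fun w hw => h6 w (mem_union_left _ hw)
    simp_rw [h3]
    rw [sum_comm]
    have h4 : ∀ R ∈ H, ∑ x : (Fin q ⊕ Fin q → Fin m) × Fin m, ∑ S ∈ H,
        (if (∀ w ∈ (vs R \ W) ∪ (vs S \ W), x.1 w = x.2) then
          (2 : ℝ) ^ ((vs R \ W) ∩ (vs S \ W)).card else 0) =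
        m * (M / (m : ℝ) ^ (2 * a)) * ∑ S ∈ H, (2 * m : ℝ) ^ ((vs R \ W) ∩ (vs S \ W)).card := by
      intro R hR
      rw [sum_comm, mul_sum]
      refine sum_congr rfl fun S hS => ?_
      rw [Fintype.sum_prod_type_right]
      have h5 : ∀ j : Fin m, ∑ p : Fin q ⊕ Fin q → Fin m, (if (∀ w ∈ (vs R \ W) ∪ (vs S \ W), p w = j) then
          (2 : ℝ) ^ ((vs R \ W) ∩ (vs S \ W)).card else 0) =
          M / (m : ℝ) ^ ((vs R \ W) ∪ (vs S \ W)).card * (2 : ℝ) ^ ((vs R \ W) ∩ (vs S \ W)).card := fun j => by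
        rw [← sum_filter, sum_const, nsmul_eq_mul, hcnt]
      simp only [h5, sum_const, card_univ, Fintype.card_fin, nsmul_eq_mul]
      have h6 := card_union_add_card_inter (vs R \ W) (vs S \ W)
      rw [ha R hR, ha S hS] at h6
      have h7 : (m : ℝ) ^ (2 * a) = (m : ℝ) ^ ((vs R \ W) ∪ (vs S \ W)).card * (m : ℝ) ^ ((vs R \ W) ∩ (vs S \ W)).card := by
        rw [← pow_add, h6, two_mul]
      rw [h7, mul_pow]
      field_simp
    rw [sum_congr rfl h4, ← mul_sum]
    exact mul_le_mul_of_nonneg_left hQ (by positivity)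
  have h3 : (∑ x : (Fin q ⊕ Fin q → Fin m) × Fin m, ((part W H x.1 x.2).card : ℝ)) ^ 2 ≤
      (∑ x : (Fin q ⊕ Fin q → Fin m) × Fin m, th W H x.1 x.2) *
        ∑ x : (Fin q ⊕ Fin q → Fin m) × Fin m, Q2 W H x.1 x.2 := by
    refine sum_sq_le_sum_mul_sum_of_sq_le_mul _ (fun x _ => ?_) (fun x _ => Q2_nonneg _ _ _ _) fun x _ =>
      (th_mul _ _ _ _).ge
    exact div_nonneg (sq_nonneg _) (Q2_nonneg _ _ _ _)
  have h4 : (0 : ℝ) ≤ ∑ x : (Fin q ⊕ Fin q → Fin m) × Fin m, th W H x.1 x.2 :=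
    sum_nonneg fun x _ => div_nonneg (sq_nonneg _) (Q2_nonneg _ _ _ _)
  have h5 := h3.trans (mul_le_mul_of_nonneg_left h2 h4)
  rw [h1] at h5
  have h6 : M * (m / 6) ≤ ∑ x : (Fin q ⊕ Fin q → Fin m) × Fin m, th W H x.1 x.2 := by
    set T := ∑ x : (Fin q ⊕ Fin q → Fin m) × Fin m, th W H x.1 x.2
    have h7 : ((H.card : ℝ) * (m * (M / (m : ℝ) ^ a))) ^ 2 =
        (M * (m / 6)) * (m * (M / (m : ℝ) ^ (2 * a)) * (6 * (H.card : ℝ) ^ 2)) := by
      rw [mul_comm 2 a, pow_mul]
      field_simp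
    rw [h7] at h5
    exact le_of_mul_le_mul_right h5 (by positivity)
  rw [Fintype.sum_prod_type] at h6
  by_contra hcon
  push Not at hcon
  have h7 : ∑ p : Fin q ⊕ Fin q → Fin m, ∑ j, th W H p j < ∑ p : Fin q ⊕ Fin q → Fin m, (m : ℝ) / 6 := by
    refine sum_lt_sum_of_nonempty ?_ fun p _ => hcon p
    exact ⟨fun _ => ⟨0, hm⟩, mem_univ _⟩
  rw [sum_const, card_univ, Fintype.card_fun, Fintype.card_fin, nsmul_eq_mul] at h7
  push_cast at h7
  rw [← hMd] at h7
  exact absurd h6 (not_le.2 h7)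

open Classical in
/-- The second moment of a spread family. -/
theorem spread_sum {W : Finset (Fin q ⊕ Fin q)} {a l m : ℕ} (hm : 1 ≤ m) (hl : 1 ≤ l) (hal : a ≤ 2 * l)
    (H : Finset (Finset (Fin q × Fin q))) (ha : ∀ R ∈ H, (vs R \ W).card = a)
    (hs : ∀ U : Finset (Fin q ⊕ Fin q), Disjoint U W →
      (H.filter fun S => U ⊆ vs S).card * (4 * m * l) ^ U.card ≤ 2 * H.card) :
    ∑ R ∈ H, ∑ S ∈ H, (2 * m : ℝ) ^ ((vs R \ W) ∩ (vs S \ W)).card ≤ 6 * (H.card : ℝ) ^ 2 := by
  have hm0 : (1 : ℝ) ≤ m := Nat.one_le_cast.2 hm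
  have hl0 : (1 : ℝ) ≤ l := Nat.one_le_cast.2 hl
  set x : ℝ := 2 * m - 1 with hx
  have hx0 : 0 ≤ x := by linarith
  set D : ℝ := 4 * m * l with hD
  have hD0 : 0 < D := by positivity
  have h1 : ∀ R ∈ H, ∑ S ∈ H, (2 * m : ℝ) ^ ((vs R \ W) ∩ (vs S \ W)).card ≤ 6 * H.card := by
    intro R hR
    have h2 : ∀ S ∈ H, (2 * m : ℝ) ^ ((vs R \ W) ∩ (vs S \ W)).card =
        ∑ U ∈ (vs R \ W).powerset, if U ⊆ vs S \ W then x ^ U.card else 0 := by
      intro S _
      have h3 := sum_pow_mul_eq_add_pow x 1 ((vs R \ W) ∩ (vs S \ W))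
      simp only [one_pow, mul_one] at h3
      have h4 : (2 * m : ℝ) = x + 1 := by rw [hx]; ring
      rw [h4, ← h3, ← sum_filter]
      refine sum_congr ?_ fun _ _ => rfl
      ext U
      rw [mem_filter, mem_powerset, mem_powerset, subset_inter_iff]
    rw [sum_congr rfl h2, sum_comm]
    have h3 : ∀ U ∈ (vs R \ W).powerset, (∑ S ∈ H, if U ⊆ vs S \ W then x ^ U.card else 0) ≤
        2 * H.card * ((x / D) ^ U.card * 1 ^ ((vs R \ W).card - U.card)) := by
      intro U hU
      rw [mem_powerset] at hU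
      have hUW : Disjoint U W := disjoint_of_subset_left hU sdiff_disjoint
      rw [← sum_filter, sum_const, nsmul_eq_mul, one_pow, mul_one, div_pow, ← mul_div_assoc,
        le_div_iff₀ (by positivity)]
      have h4 := hs U hUW
      have h5 : (H.filter fun S => U ⊆ vs S \ W).card ≤ (H.filter fun S => U ⊆ vs S).card :=
        card_le_card (monotone_filter_right _ fun S _ hS => hS.trans sdiff_subset)
      have h6 : (((H.filter fun S => U ⊆ vs S \ W).card * (4 * m * l) ^ U.card : ℕ) : ℝ) ≤ ((2 * H.card : ℕ) : ℝ) := by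
        exact_mod_cast (Nat.mul_le_mul_right _ h5).trans h4
      push_cast at h6
      rw [← hD] at h6
      have h7 : 0 ≤ x ^ U.card := by positivity
      calc ((H.filter fun S => U ⊆ vs S \ W).card : ℝ) * x ^ U.card * D ^ U.card
          = (((H.filter fun S => U ⊆ vs S \ W).card : ℝ) * D ^ U.card) * x ^ U.card := by ring
        _ ≤ (2 * H.card) * x ^ U.card := mul_le_mul_of_nonneg_right h6 h7
    refine (sum_le_sum h3).trans ?_
    rw [← mul_sum, sum_pow_mul_eq_add_pow, ha R hR]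
    have h4 : (x / D + 1) ^ a ≤ 3 := by
      have h5 : x / D + 1 ≤ Real.exp (x / D) := Real.add_one_le_exp _
      have h6 : (a : ℝ) * (x / D) ≤ 1 := by
        have h7 : (a : ℝ) ≤ 2 * l := by exact_mod_cast hal
        rw [← mul_div_assoc, div_le_one hD0, hD]
        calc (a : ℝ) * x ≤ (2 * l) * (2 * m) := mul_le_mul h7 (by rw [hx]; linarith) hx0 (by positivity)
          _ = 4 * m * l := by ring
      calc (x / D + 1) ^ a ≤ Real.exp (x / D) ^ a := pow_le_pow_left₀ (by positivity) h5 a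
        _ = Real.exp (a * (x / D)) := (Real.exp_nat_mul _ _).symm
        _ ≤ Real.exp 1 := Real.exp_le_exp.2 h6
        _ ≤ 3 := by
          have h8 := Real.exp_one_lt_d9
          linarith
    calc 2 * (H.card : ℝ) * (x / D + 1) ^ a ≤ 2 * (H.card : ℝ) * 3 :=
          mul_le_mul_of_nonneg_left h4 (by positivity)
      _ = 6 * H.card := by ring
  calc ∑ R ∈ H, ∑ S ∈ H, (2 * m : ℝ) ^ ((vs R \ W) ∩ (vs S \ W)).card ≤ ∑ R ∈ H, 6 * (H.card : ℝ) :=
        sum_le_sum h1
    _ = 6 * (H.card : ℝ) ^ 2 := by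
      rw [sum_const, nsmul_eq_mul]
      ring

open Classical in
/-- **A spread family of matchings**: few colourings make no member monochromatic. -/
theorem spread_mono {W : Finset (Fin q ⊕ Fin q)} {h l m : ℕ} (hm : 1 ≤ m) (hl : 1 ≤ l) (hhl : h ≤ l)
    (H : Finset (Finset (Fin q × Fin q))) (hH : H.Nonempty)
    (hM : ∀ R ∈ H, Mat R) (hR : ∀ R ∈ H, Fre W R) (hc : ∀ R ∈ H, R.card = h) (hW : ∀ R ∈ H, W ⊆ vs R)
    (hs : ∀ U : Finset (Fin q ⊕ Fin q), Disjoint U W →
      (H.filter fun S => U ⊆ vs S).card * (4 * m * l) ^ U.card ≤ 2 * H.card) :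
    ((univ.filter fun c : Fin q ⊕ Fin q → Bool => ∀ R ∈ H, ¬ mono c R).card : ℝ) ≤
      2 ^ (2 * q) * Real.exp (- (m / 6)) := by
  have ha : ∀ R ∈ H, (vs R \ W).card = 2 * h - W.card := by
    intro R hR'
    rw [card_sdiff_of_subset (hW R hR'), card_vs (hM R hR'), hc R hR']
  obtain ⟨p, hp⟩ := exists_part hm H hH ha (spread_sum hm hl (by omega) H ha hs)
  have h1 := iterate H hM hR hc p univ
  have h2 : (univ.filter fun c : Fin q ⊕ Fin q → Bool => ∀ R ∈ H, ¬ mono c R).card ≤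
      (univ.filter fun c : Fin q ⊕ Fin q → Bool => ∀ j ∈ (univ : Finset (Fin m)), ∀ R ∈ part W H p j, ¬ mono c R).card :=
    card_le_card (monotone_filter_right _ fun c _ hc' j _ R hR' => hc' R (mem_filter.1 hR').1)
  refine (Nat.cast_le.2 h2).trans (h1.trans ?_)
  refine mul_le_mul_of_nonneg_left (Real.exp_le_exp.2 ?_) (by positivity)
  linarith

end Pool.Agent.NEGS.RS
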