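import Mathlib

/-!
Abstract approximation systems for monotone circuits (Razborov's method), the interface
between the approximators of the perfect matching function and circuits.
-/

namespace Pool.Agent.NEGS

/-- An approximation system over the variables `V`, the positive tests `px` and the negative
tests `py`: there are approximators for the variables and the constants without any error, and
every OR and every AND of two approximators has an approximator which loses at most `ep`
positive tests and gains at most `en` negative tests. -/
structure Sys (V : Type) (P N : Type) [Fintype P] [Fintype N] (px : P → V → Bool)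
    (py : N → V → Bool) (ep en : ℝ) : Type 1 where
  A : Type
  ev : A → (V → Bool) → Bool
  var : V → A
  top : A
  bot : A
  ev_var : ∀ i x, ev (var i) x = x i
  ev_top : ∀ x, ev top x = true
  ev_bot : ∀ x, ev bot x = false
  or : A → A → A
  and : A → A → A
  or_pos : ∀ a b, ({p : P | ((ev a (px p) || ev b (px p)) && !(ev (or a b) (px p))) = true} :
    Set P).ncard ≤ ep
  or_neg : ∀ a b, ({p : N | (!(ev a (py p) || ev b (py p)) && ev (or a b) (py p)) = true} :
    Set N).ncard ≤ en
  and_pos : ∀ a b, ({p : P | ((ev a (px p) && ev b (px p)) && !(ev (and a b) (px p))) = true} :
    Set P).ncard ≤ ep
  and_neg : ∀ a b, ({p : N | (!(ev a (py p) && ev b (py p)) && ev (and a b) (py p)) = true} :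
    Set N).ncard ≤ en

end Pool.Agent.NEGS
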